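import Pool.Agent.SSL.Targets
import Pool.Agent.SSW.CMN

/-!
# CMW: complex multiplication with torsion data on the model of the lattice
-/

set_option autoImplicit false

open Polynomial

namespace SSL

open SSA SSP

namespace CMW_

/-- the composition identities, from a representation of `c` -/
lemma comp (h1 : SSW.T_RPB) (h2 : SSW.T_RPA) (h3 : SSW.T_RPX) (L : PeriodPair)
    (hL : Hyp (SSW.aw L) (SSW.bw L)) (c : ℂ) (D : ℕ) (hD : 0 < D) (hc : c ^ 2 = -(D : ℂ))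
    (α : MM (SSW.aw L) (SSW.bw L)) (hα : SSW.Rep L α c) (x : ℕ) :
    rcomp (xr (x • idM (SSW.aw L) (SSW.bw L) + α)) (xr (x • idM (SSW.aw L) (SSW.bw L) - α)) =
      xr ((x ^ 2 + D) • idM (SSW.aw L) (SSW.bw L)) := by
  obtain ⟨-, hB⟩ := h1 L hL
  obtain ⟨hAdd, -, hnat⟩ := h2 L hL
  obtain ⟨hαneg, -, -, -, hDDα⟩ := hB α c hα
  rcases Nat.eq_zero_or_pos x with rfl | hx
  · have e1 : (0 : ℕ) • idM (SSW.aw L) (SSW.bw L) + α = α := by rw [zero_nsmul, zero_add]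
    have e2 : (0 : ℕ) • idM (SSW.aw L) (SSW.bw L) - α = -α := by rw [zero_nsmul, zero_sub]
    have e3 : (0 ^ 2 + D) = D := by ring
    rw [e1, e2, e3]
    have hD' := hnat D hD
    have e4 : (D : ℂ) = c * (-c) := by
      have : c * (-c) = -(c ^ 2) := by ring
      rw [this, hc, neg_neg]
    rw [e4] at hD'
    exact h3 L hL α (-α) _ c (-c) hα hαneg hD'
  · have hid := hnat x hx
    have hDDid := (hB _ _ hid).2.2.2.2
    have hDDneg := (hB _ _ hαneg).2.2.2.2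
    have hCinj : Function.Injective (RatFunc.C : ℂ →+* RatFunc ℂ) := RingHom.injective _
    have n1 : x • idM (SSW.aw L) (SSW.bw L) ≠ α := by
      intro h
      rw [h, hDDα] at hDDid
      have : c = (x : ℂ) := hCinj hDDid
      exact SSW.CMN_.no_real c D x hD hc (by rw [this])
    have n2 : x • idM (SSW.aw L) (SSW.bw L) ≠ -α := by
      intro h
      rw [h, hDDneg] at hDDid
      have : -c = (x : ℂ) := hCinj hDDid
      exact SSW.CMN_.no_real c D x hD hc (by rw [← this]; ring)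
    have r1 := hAdd _ _ _ _ hid hα n1 n2
    have r2 := hAdd _ _ _ _ hid hαneg n2 (by rw [neg_neg]; exact n1)
    rw [← sub_eq_add_neg] at r2
    have hx2 := hnat (x ^ 2 + D) (by positivity)
    have e4 : ((x ^ 2 + D : ℕ) : ℂ) = ((x : ℂ) + c) * ((x : ℂ) + -c) := by
      have : ((x : ℂ) + c) * ((x : ℂ) + -c) = (x : ℂ) ^ 2 - c ^ 2 := by ring
      rw [this, hc]
      push_cast
      ring
    rw [e4] at hx2
    exact h3 L hL _ _ _ _ _ r1 r2 hx2

/-- the torsion data -/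
lemma tor (h2 : SSW.T_RPA) (h5 : T_KER) (h6 : T_SUJ) (h7 : T_LIN) (L : PeriodPair)
    (hL : Hyp (SSW.aw L) (SSW.bw L)) (c : ℂ) (D : ℕ) (hc : c ^ 2 = -(D : ℂ))
    (hmul : ∀ w ∈ L.lattice, c * w ∈ L.lattice)
    (α : MM (SSW.aw L) (SSW.bw L)) (hα : SSW.Rep L α c) (l : ℕ) (hl : l.Prime) (hlD : l ∣ D)
    (hl2 : ¬ l ^ 2 ∣ D) : Tor α l := by
  obtain ⟨-, -, hnat⟩ := h2 L hL
  obtain ⟨z₀, hz0, hcz0, hlz0, hall⟩ := h7 L c D l hc hmul hl hlD hl2
  have hlrep := hnat l hl.pos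
  refine ⟨L.weierstrassP z₀, (h5 L hL α c hα z₀ hz0).1.2 hcz0,
    (h5 L hL _ _ hlrep z₀ hz0).1.2 hlz0, ?_⟩
  intro y hy1 hy2
  obtain ⟨z, hz, rfl⟩ := h6 L y
  have hcz := (h5 L hL α c hα z hz).1.1 hy1
  have hlz := (h5 L hL _ _ hlrep z hz).1.1 hy2
  obtain ⟨n, hn0, hnl, hnz, hzn⟩ := hall z hz hcz hlz
  have hnrep := hnat n hn0
  have hk := h5 L hL _ _ hnrep z₀ hz0
  refine ⟨n, hn0, hnl, fun h => hnz (hk.1.1 h), ?_⟩
  rw [← hk.2 hnz]
  have h8 := L.weierstrassP_add_coe (n * z₀) ⟨z - n * z₀, hzn⟩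
  have e : (n : ℂ) * z₀ + (z - n * z₀) = z := by ring
  rw [← h8]
  show L.weierstrassP z = L.weierstrassP ((n : ℂ) * z₀ + (z - n * z₀))
  rw [e]

end CMW_

theorem p_CMW (h1 : SSW.T_RPB) (h2 : SSW.T_RPA) (h3 : SSW.T_RPX) (h4 : SSW.T_RPE) (h5 : T_KER)
    (h6 : T_SUJ) (h7 : T_LIN) : T_CMW := by
  intro L hL c D hD hc hmul
  have hc0 : c ≠ 0 := by
    rintro rfl
    have : ((D : ℕ) : ℂ) = 0 := by
      have h5 : -(D : ℂ) = 0 := by
        rw [← hc]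
        ring
      exact neg_eq_zero.1 h5
    have : D = 0 := by exact_mod_cast this
    omega
  obtain ⟨α, hα, hdeg⟩ := h4 L hL c hc0 hmul
  obtain ⟨-, -, -, -, hDDα⟩ := (h1 L hL).2 α c hα
  exact ⟨α, hDDα, hdeg, fun x => CMW_.comp h1 h2 h3 L hL c D hD hc α hα x,
    fun l hl _ hlD hl2 => CMW_.tor h2 h5 h6 h7 L hL c D hc hmul α hα l hl hlD hl2⟩

end SSL
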