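import Pool.Agent.SSL.Targets
import Pool.Agent.SSF.DATA
import Pool.Agent.SSF.BRG

/-!
# MP_d74fca_nt, project SSL, DATL: the hypotheses of the counting part (helper94, for helper22)
-/

set_option autoImplicit false

open Polynomial

namespace SSL

open SSA SSP

namespace DATL_

/-- the odd primes dividing `6 A B s` outside `L` -/
noncomputable def PP (A B : ℤ) (L : Finset ℕ) : Finset ℕ :=
  ((6 * A * B * SSF.sj A B).natAbs.primeFactors).filter (fun p => p ≠ 2 ∧ p ∉ L)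

lemma oddPr (A B : ℤ) (L : Finset ℕ) : SSN.OddPr (PP A B L) := by
  intro p hp
  unfold PP at hp
  rw [Finset.mem_filter] at hp
  exact ⟨Nat.prime_of_mem_primeFactors hp.1, hp.2.1⟩

lemma disj (A B : ℤ) (L : Finset ℕ) : Disjoint (PP A B L) L := by
  rw [Finset.disjoint_left]
  intro p hp
  unfold PP at hp
  rw [Finset.mem_filter] at hp
  exact hp.2.2

lemma memP {A B : ℤ} {L : Finset ℕ} (hne : 6 * A * B * SSF.sj A B ≠ 0) {p : ℕ} (hp : p.Prime)
    (hp2 : p ≠ 2) (hpL : p ∉ L) (h : (p : ℤ) ∣ 6 * A * B * SSF.sj A B) : p ∈ PP A B L := by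
  unfold PP
  rw [Finset.mem_filter, Nat.mem_primeFactors]
  exact ⟨⟨hp, Int.natCast_dvd.mp h, Int.natAbs_ne_zero.mpr hne⟩, hp2, hpL⟩

lemma dvd_MM {P : Finset ℕ} {p : ℕ} (hp : p ∈ P) : p ∣ SSN.MM P := by
  unfold SSN.MM
  exact (Finset.dvd_prod_of_mem (fun p => p) hp).mul_left 8

lemma dvd24 {P : Finset ℕ} (h3 : 3 ∈ P) : 24 ∣ SSN.MM P := by
  unfold SSN.MM
  have : (24 : ℕ) = 8 * 3 := by norm_num
  rw [this]
  exact mul_dvd_mul_left 8 (Finset.dvd_prod_of_mem (fun p => p) h3)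

lemma dvd_pr {L : Finset ℕ} {l : ℕ} (hl : l ∈ L) : l ∣ pr L := by
  unfold pr
  exact Finset.dvd_prod_of_mem (fun p => p) hl

lemma pr_pos {L : Finset ℕ} (hL : ∀ l ∈ L, l.Prime) : 0 < pr L := by
  unfold pr
  exact Finset.prod_pos fun l hl => (hL l hl).pos

lemma mem_of_dvd {L : Finset ℕ} (hL : ∀ l ∈ L, l.Prime) {l : ℕ} (hl : l.Prime)
    (h : l ∣ pr L) : l ∈ L := by
  unfold pr at h
  obtain ⟨m, hm, hd⟩ := (Prime.dvd_finsetProd_iff hl.prime _).1 h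
  rw [(Nat.prime_dvd_prime_iff_eq hl (hL m hm)).1 hd]
  exact hm

lemma sqf_pr {L : Finset ℕ} (hL : ∀ l ∈ L, l.Prime) : Squarefree (pr L) := by
  induction L using Finset.induction_on with
  | empty => unfold pr; simp
  | insert l T hl ih =>
    have hT : ∀ m ∈ T, m.Prime := fun m hm => hL m (Finset.mem_insert_of_mem hm)
    have hlp : l.Prime := hL l (Finset.mem_insert_self l T)
    have e : pr (insert l T) = l * pr T := by
      unfold pr
      rw [Finset.prod_insert hl]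
    rw [e, Nat.squarefree_mul_iff]
    refine ⟨?_, hlp.squarefree, ih hT⟩
    rw [Nat.Prime.coprime_iff_not_dvd hlp]
    exact fun h => hl (mem_of_dvd hT hlp h)

/-- `pr L * a * c` is squarefree -/
lemma sqf {L : Finset ℕ} (hL : ∀ l ∈ L, l.Prime) {a c : ℕ} (ha : a.Prime) (hc : c.Prime)
    (hac : a < c) (hLa : pr L < a) : Squarefree (pr L * a * c) := by
  have h0 := pr_pos hL
  rw [Nat.squarefree_mul_iff, Nat.squarefree_mul_iff]
  refine ⟨?_, ⟨?_, sqf_pr hL, ha.squarefree⟩, hc.squarefree⟩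
  · rw [Nat.coprime_comm, Nat.Prime.coprime_iff_not_dvd hc]
    intro h
    rcases (Nat.Prime.dvd_mul hc).1 h with h1 | h1
    · exact absurd (Nat.le_of_dvd h0 h1) (by omega)
    · exact absurd (Nat.le_of_dvd ha.pos h1) (by omega)
  · rw [Nat.coprime_comm, Nat.Prime.coprime_iff_not_dvd ha]
    intro h
    exact absurd (Nat.le_of_dvd h0 h) (by omega)

/-- `hv Q r s` modulo a divisor of `s` -/
lemma hv_mod {Q : ℤ[X]} (hQ : Q.Monic) (r s l : ℤ) (h : l ∣ s) (hd : l ∣ hv Q r s) :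
    l ∣ r ^ Q.natDegree := by
  unfold hv at hd
  rw [Finset.sum_range_succ, Nat.sub_self, pow_zero, mul_one, hQ.coeff_natDegree, one_mul] at hd
  refine (dvd_add_right ?_).1 hd
  refine Finset.dvd_sum fun i hi => ?_
  rw [Finset.mem_range] at hi
  exact (h.trans (dvd_pow_self s (by omega))).mul_left _

lemma cme {k : Type} [Field k] {j : k} {D : ℕ} (h : CMX k j D) : SSP.CME k j D := by
  obtain ⟨h0, h1, c, hc, α, h2, h3, h4, -⟩ := h
  exact ⟨h0, h1, c, hc, α, h2, h3, h4⟩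

lemma cmx (h2 : T_CMX) {D : ℕ} (hD : 0 < D) {z : ℂ} (h0 : z ≠ 0) (h1 : z ≠ 1728)
    (h : ∃ t : ℂ, SSM.CMt D t ∧ SSM.J t = z) : CMX ℂ z D := by
  obtain ⟨t, ⟨ht, α, β, γ, hα, hdet, heq⟩, hJ⟩ := h
  have hjt : SSM.J t = SSW.jt ⟨t, ht⟩ := by
    unfold SSM.J SSW.jt
    rw [UpperHalfPlane.ofComplex_apply_of_im_pos ht]
  have hzj : SSW.jt ⟨t, ht⟩ = z := by rw [← hjt, hJ]
  have := h2 ⟨t, ht⟩ D α β γ hD hdet (by simpa using heq) (by rw [hzj]; exact h0)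
    (by rw [hzj]; exact h1)
  rw [hzj] at this
  exact this

/-- the threshold for the size of the killing prime -/
lemma thr (C ε : ℝ) (hC : 1 ≤ C) (hε : 0 < ε) : ∃ N : ℕ, ∀ a D : ℕ, N ≤ a → 0 < a →
    (D : ℝ) ≤ C * (a : ℝ) ^ 2 → (D : ℝ) ^ (1 / 2 + ε / 4) ≤ (a : ℝ) ^ (1 + ε) := by
  have ht := (tendsto_rpow_atTop (show 0 < ε / 2 by positivity)).eventually_ge_atTop
    (C ^ (1 / 2 + ε / 4))
  obtain ⟨x₀, hx₀⟩ := Filter.eventually_atTop.1 ht
  refine ⟨⌈x₀⌉₊, fun a D ha ha1 hD => ?_⟩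
  have hax : x₀ ≤ a := (Nat.le_ceil x₀).trans (by exact_mod_cast ha)
  have h1 := hx₀ a hax
  have ha0 : (0 : ℝ) < a := by exact_mod_cast ha1
  have e1 : ((a : ℝ) ^ 2) ^ (1 / 2 + ε / 4) = (a : ℝ) ^ (1 + ε / 2) := by
    rw [← Real.rpow_natCast, ← Real.rpow_mul ha0.le]
    congr 1
    push_cast
    ring
  have e2 : (a : ℝ) ^ (ε / 2) * (a : ℝ) ^ (1 + ε / 2) = (a : ℝ) ^ (1 + ε) := by
    rw [← Real.rpow_add ha0]
    congr 1
    ring
  calc (D : ℝ) ^ (1 / 2 + ε / 4) ≤ (C * (a : ℝ) ^ 2) ^ (1 / 2 + ε / 4) :=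
        Real.rpow_le_rpow (Nat.cast_nonneg D) hD (by positivity)
    _ = C ^ (1 / 2 + ε / 4) * (a : ℝ) ^ (1 + ε / 2) := by
        rw [Real.mul_rpow (by linarith) (by positivity), e1]
    _ ≤ (a : ℝ) ^ (ε / 2) * (a : ℝ) ^ (1 + ε / 2) :=
        mul_le_mul_of_nonneg_right h1 (Real.rpow_nonneg ha0.le _)
    _ = (a : ℝ) ^ (1 + ε) := e2

/-- large primes do not divide `6 A B s` -/
lemma big_nd {A B : ℤ} (hne : 6 * A * B * SSF.sj A B ≠ 0) {l : ℕ}
    (h : (6 * A * B * SSF.sj A B).natAbs < l) : ¬ (l : ℤ) ∣ 6 * A * B * SSF.sj A B := by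
  intro hd
  exact absurd (Nat.le_of_dvd (Int.natAbs_pos.2 hne) (Int.natCast_dvd.1 hd)) (by omega)

lemma five_nd6 {l : ℕ} (h5 : 5 ≤ l) (hl : l.Prime) : ¬ (l : ℤ) ∣ 6 := by
  intro h
  have h1 : l ∣ 6 := by exact_mod_cast h
  have h2 : l ∣ 2 * 3 := h1
  rcases (Nat.Prime.dvd_mul hl).1 h2 with h3 | h3
  · exact absurd (Nat.le_of_dvd (by norm_num) h3) (by omega)
  · exact absurd (Nat.le_of_dvd (by norm_num) h3) (by omega)

lemma nd_rj {A : ℤ} {l : ℕ} (h5 : 5 ≤ l) (hl : l.Prime) (hA : ¬ (l : ℤ) ∣ A) :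
    ¬ (l : ℤ) ∣ SSF.rj A := by
  have hpp : Prime (l : ℤ) := Nat.prime_iff_prime_int.1 hl
  intro hd
  have e : SSF.rj A = 6912 * A ^ 3 := rfl
  rw [e] at hd
  rcases hpp.dvd_or_dvd hd with h | h
  · exact five_nd6 h5 hl (hpp.dvd_of_dvd_pow (h.trans (by norm_num : (6912 : ℤ) ∣ 6 ^ 8)))
  · exact hA (hpp.dvd_of_dvd_pow h)

/-- a ramified prime outside the bad set lies in `SS` -/
lemma ram (h5 : SSP.T_KRM) (h6 : SSP.T_TWI) {A B : ℤ} {D l : ℕ} (hsq : Squarefree D)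
    {Q : ℤ[X]} (hQ : Q.Monic) (hQd : 0 < Q.natDegree)
    (hC : ∀ z : ℂ, aeval z Q = 0 → SSP.CME ℂ z D) (hl : l.Prime) (hlD : l ∣ D)
    (hlv : (l : ℤ) ∣ hv Q (SSF.rj A) (SSF.sj A B))
    (hbad : ¬ (l : ℤ) ∣ 6 * A * B * SSF.sj A B) : l ∈ SSF.SS A B := by
  have : Fact l.Prime := ⟨hl⟩
  obtain ⟨g5, gA, gB, gs, gr, gr', g6⟩ := SSF.DATA_.good A B l hl hbad
  exact SSF.DATA_.mem_SS h6 A B l hbad
    (h5 l D g5 hsq hlD Q (SSF.rj A) (SSF.sj A B) hQ hQd gs gr gr' hlv hC)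

/-- the elements of `L` are not ramified killing primes -/
lemma ramL (h5 : SSP.T_KRM) (h6 : SSP.T_TWI) {A B : ℤ} {D l : ℕ} (hsq : Squarefree D)
    {Q : ℤ[X]} (hQ : Q.Monic) (hQd : 0 < Q.natDegree)
    (hC : ∀ z : ℂ, aeval z Q = 0 → SSP.CME ℂ z D) (hl : l.Prime) (hlD : l ∣ D)
    (hlv : (l : ℤ) ∣ hv Q (SSF.rj A) (SSF.sj A B)) (hl5 : 5 ≤ l) (hAB : ¬ (l : ℤ) ∣ A * B)
    (hSS : l ∉ SSF.SS A B) : False := by
  have hpp : Prime (l : ℤ) := Nat.prime_iff_prime_int.1 hl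
  have hA : ¬ (l : ℤ) ∣ A := fun h => hAB (h.mul_right B)
  have hB : ¬ (l : ℤ) ∣ B := fun h => hAB (h.mul_left A)
  by_cases hs : (l : ℤ) ∣ SSF.sj A B
  · have h1 := hv_mod hQ (SSF.rj A) (SSF.sj A B) l hs hlv
    exact nd_rj hl5 hl hA (hpp.dvd_of_dvd_pow h1)
  · apply hSS
    refine ram h5 h6 hsq hQ hQd hC hl hlD hlv ?_
    intro hd
    rcases hpp.dvd_or_dvd hd with h | h
    · rcases hpp.dvd_or_dvd h with h | h
      · rcases hpp.dvd_or_dvd h with h | h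
        · exact five_nd6 hl5 hl h
        · exact hA h
      · exact hB h
    · exact hs h

/-- primes congruent to `-1` modulo `pr L` -/
lemma sq_of_dvd {L : Finset ℕ} {q : ℕ} (h : pr L ∣ q + 1) : Sq L q := by
  intro l hl
  refine ⟨1, ?_⟩
  have h1 : ((q + 1 : ℕ) : ZMod l) = 0 :=
    (ZMod.natCast_eq_zero_iff _ l).2 ((dvd_pr hl).trans h)
  push_cast at h1
  linear_combination h1

end DATL_

open DATL_ in
theorem p_DATL (h1 : T_OUTL) (h2 : T_CMX) (h3 : T_KIX) (h4 : SSP.T_KIN) (h5 : SSP.T_KRM)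
    (h6 : SSP.T_TWI) (h7 : SSA.T_SPW) (h8 : SSP.T_JHP) : T_DATL := by
  intro A B hA hB hs L hL
  have hsj : SSF.sj A B ≠ 0 := hs
  have hrs : SSF.rj A ≠ 1728 * SSF.sj A B := by
    intro h
    have e : SSF.rj A - 1728 * SSF.sj A B = -46656 * B ^ 2 := by
      unfold SSF.rj SSF.sj; ring
    rw [h, sub_self] at e
    have := mul_ne_zero (show (-46656 : ℤ) ≠ 0 by norm_num) (pow_ne_zero 2 hB)
    exact this e.symm
  have hne : 6 * A * B * SSF.sj A B ≠ 0 :=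
    mul_ne_zero (mul_ne_zero (mul_ne_zero (by norm_num) hA) hB) hsj
  have hLp : ∀ l ∈ L, l.Prime := fun l hl => (hL l hl).1
  have hL5 : ∀ l ∈ L, 5 ≤ l := fun l hl => (hL l hl).2.1
  have hpr := pr_pos hLp
  obtain ⟨ρ₁, ρ₂, hρ1, hρ2, hout⟩ := h1 (SSF.rj A) (SSF.sj A B) hsj hrs L
    (fun l hl => ⟨hLp l hl, hL5 l hl⟩)
  have h3P : 3 ∈ PP A B L := by
    refine memP hne Nat.prime_three (by norm_num) (fun h => absurd (hL5 3 h) (by norm_num)) ?_
    have e : 6 * A * B * SSF.sj A B = ((3 : ℕ) : ℤ) * (2 * A * B * SSF.sj A B) := by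
      push_cast; ring
    rw [e]
    exact dvd_mul_right _ _
  refine ⟨PP A B L, ρ₁, ρ₂, oddPr A B L, ?_, disj A B L, hρ1, hρ2, ?_, ?_, ?_, ?_⟩
  · intro l hl
    have := hL5 l hl
    exact ⟨hLp l hl, by omega⟩
  · rintro p ⟨hp, -⟩
    refine ⟨hp.1, ?_, fun h => (hL p h).2.2.2 hp⟩
    rintro rfl
    exact hp.2.1 ⟨3 * (4 * A ^ 3 + 27 * B ^ 2), by push_cast; ring⟩
  · rintro p ⟨hp, -⟩ D hK
    exact SSF.p_H3 A B p hp D hK
  · intro ε hε
    obtain ⟨D₀, hD₀⟩ := hout (ε / 4) (by positivity)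
    have hC1 : (1 : ℝ) ≤ pr L * ρ₂ := by
      have h9 : (1 : ℝ) ≤ pr L := by exact_mod_cast hpr
      have h10 : (1 : ℝ) ≤ ρ₂ := by linarith
      nlinarith
    obtain ⟨N, hN⟩ := thr (pr L * ρ₂) ε hC1 hε
    refine ⟨max (max D₀ N) (max (pr L + 1) ((6 * A * B * SSF.sj A B).natAbs + 1)), ?_⟩
    intro a c ha hc hDa hac1 hac2 hLa hLc hM
    obtain ⟨hDN, hDM⟩ := max_le_iff.1 hDa
    obtain ⟨hD1, hN1⟩ := max_le_iff.1 hDN
    obtain ⟨hpa, hba⟩ := max_le_iff.1 hDM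
    have ha0 : (0 : ℝ) < a := by exact_mod_cast ha.pos
    have hacR : (a : ℝ) < c := by nlinarith
    have hac : a < c := by exact_mod_cast hacR
    have hsq : Squarefree (pr L * a * c) := sqf hLp ha hc hac (by omega)
    have h24 : 24 ∣ pr L * a * c + 1 := (dvd24 h3P).trans hM
    obtain ⟨Q, hQm, hQd, hQC, hQ0, hQb, hQ⟩ := hD₀ a c (pr L * a * c) ha hc hD1 hac1 hac2 rfl h24
    have hDpos : 0 < pr L * a * c := Nat.pos_of_ne_zero hsq.ne_zero
    have hD2 : 2 ≤ pr L * a * c := by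
      have h9 : 1 ≤ pr L := hpr
      have h10 := ha.two_le
      have h11 := hc.two_le
      calc 2 ≤ 1 * 2 * 1 := by norm_num
        _ ≤ pr L * a * c := Nat.mul_le_mul (Nat.mul_le_mul h9 h10) (by omega)
    have hX : ∀ z : ℂ, aeval z Q = 0 → CMX ℂ z (pr L * a * c) := by
      intro z hz
      obtain ⟨hz0, hz1, ht⟩ := hQC z hz
      exact cmx h2 hDpos hz0 hz1 ht
    have hE : ∀ z : ℂ, aeval z Q = 0 → SSP.CME ℂ z (pr L * a * c) := fun z hz => cme (hX z hz)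
    rcases hQ with ⟨l, hl, hlD, hlv⟩ | ⟨p, hp, hp2, hx, hodd⟩
    · rcases (Nat.Prime.dvd_mul hl).1 hlD with h9 | h9
      · rcases (Nat.Prime.dvd_mul hl).1 h9 with h10 | h10
        · exfalso
          have hlL := mem_of_dvd hLp hl h10
          obtain ⟨-, hl5, hlAB, hlSS⟩ := hL l hlL
          exact ramL h5 h6 hsq hQm hQd hE hl hlD hlv hl5 hlAB hlSS
        · left
          have e := (Nat.prime_dvd_prime_iff_eq hl ha).1 h10
          subst e
          exact ⟨ram h5 h6 hsq hQm hQd hE hl hlD hlv (big_nd hne (by omega)), sq_of_dvd hLa⟩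
      · right; left
        have e := (Nat.prime_dvd_prime_iff_eq hl hc).1 h9
        subst e
        exact ⟨ram h5 h6 hsq hQm hQd hE hl hlD hlv (big_nd hne (by omega)), sq_of_dvd hLc⟩
    · right; right
      have hf : Fact p.Prime := ⟨hp⟩
      have hpD : ¬ p ∣ pr L * a * c := by
        intro hd
        have h9 : ((pr L * a * c : ℕ) : ZMod p) = 0 := (ZMod.natCast_eq_zero_iff _ p).2 hd
        exact hx 0 (by rw [h9]; simp)
      have hpD1 : ¬ p ∣ pr L * a * c + 1 := by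
        intro hd
        have h9 : ((pr L * a * c + 1 : ℕ) : ZMod p) = 0 := (ZMod.natCast_eq_zero_iff _ p).2 hd
        rw [Nat.cast_add, Nat.cast_one] at h9
        exact hx 1 (by linear_combination h9)
      have hpL : p ∉ L := by
        intro h9
        exact hpD (((dvd_pr h9).mul_right a).mul_right c)
      have hbad : ¬ (p : ℤ) ∣ 6 * A * B * SSF.sj A B := by
        intro hd
        exact hpD1 ((dvd_MM (memP hne hp hp2 hpL hd)).trans hM)
      obtain ⟨g5, gA, gB, gs, gr, gr', g6⟩ := SSF.DATA_.good A B p hp hbad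
      obtain ⟨k1, k2⟩ := h4 p (SSF.plc p) (pr L * a * c) g5 hD2 hx Q (SSF.rj A) (SSF.sj A B) hQm
        gs gr gr' hQ0 hodd hE
      have hS : p ∈ SSF.SS A B := SSF.DATA_.mem_SS h6 A B p hbad (k2 hsq)
      refine ⟨p, ⟨hS, ?_⟩, hpD, ⟨hf, g5, hbad, k1⟩, ?_⟩
      · intro l hl
        have h9 := hL5 l hl
        exact h3 p (pr L * a * c) g5 hD2 hsq hx Q (SSF.rj A) (SSF.sj A B) hQm gs gr gr' hQ0 hodd
          hX l (hLp l hl) (by omega) (((dvd_pr hl).mul_right a).mul_right c)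
      · have hdv : (p : ℤ) ∣ hv Q (SSF.rj A) (SSF.sj A B) := by
          by_contra hnd
          have h9 : padicValInt p (hv Q (SSF.rj A) (SSF.sj A B)) = 0 :=
            padicValInt.eq_zero_of_not_dvd hnd
          rw [h9] at hodd
          exact absurd hodd (by decide)
        have hle : (p : ℤ) ≤ |hv Q (SSF.rj A) (SSF.sj A B)| :=
          Int.le_of_dvd (abs_pos.2 hQ0) ((dvd_abs _ _).2 hdv)
        have hleR : (p : ℝ) ≤ |((hv Q (SSF.rj A) (SSF.sj A B) : ℤ) : ℝ)| := by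
          have h9 : ((p : ℤ) : ℝ) ≤ ((|hv Q (SSF.rj A) (SSF.sj A B)| : ℤ) : ℝ) :=
            Int.cast_le.2 hle
          rw [Int.cast_abs] at h9
          simpa using h9
        refine hleR.trans (hQb.trans (Real.exp_le_exp.2 ?_))
        refine hN a (pr L * a * c) hN1 ha.pos ?_
        push_cast
        have h9 : (0 : ℝ) < pr L := by exact_mod_cast hpr
        have h10 : (pr L : ℝ) * a * c ≤ pr L * a * (ρ₂ * a) :=
          mul_le_mul_of_nonneg_left hac2.le (by positivity)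
        calc (pr L : ℝ) * a * c ≤ pr L * a * (ρ₂ * a) := h10
          _ = pr L * ρ₂ * (a : ℝ) ^ 2 := by ring
  · rintro p ⟨⟨hp, -, -⟩, -⟩ G hG hGF
    have hf : Fact p.Prime := ⟨hp⟩
    have hGne : G.Nonempty := Finset.card_pos.1 (by omega)
    obtain ⟨D₁, hD₁⟩ := hGne
    obtain ⟨-, -, g5, hbad, -⟩ := hGF D₁ hD₁
    obtain ⟨_, gA, gB, gs, gr, gr', g6⟩ := SSF.DATA_.good A B p hp hbad
    exact (h7 p (SSF.plc p).k g5 _ _
      (SSP.KRM_.hyp p h8 (k := (SSF.plc p).k) g5 (SSF.rj A) (SSF.sj A B) gs gr gr') G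
      (fun D hD => by
        obtain ⟨hsq, hf2, -, -, hdat⟩ := hGF D hD
        exact ⟨hsq, hdat⟩)).2 hG

end SSL
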