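import Pool.Agent.SSL.Targets

/-!
# INF: `n • id` fixes infinity; degree of the denominator

The set of maps with a pole at infinity is closed under adding `id`, by comparing degrees in the
formulas for `x(P+Q) + x(P-Q)` and `x(P+Q) x(P-Q)`.
-/

set_option autoImplicit false

open Polynomial

namespace SSL

open SSA SSP

/-- order of growth at infinity at most `m` -/
def INF_.Le {k : Type} [Field k] (R : RatFunc k) (m : ℤ) : Prop := R = 0 ∨ R.intDegree ≤ m

namespace INF_

variable {k : Type} [Field k]

theorem mono {R : RatFunc k} {m n : ℤ} (h : Le R m) (hmn : m ≤ n) : Le R n :=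
  h.imp id (fun h => h.trans hmn)

theorem zero (m : ℤ) : Le (0 : RatFunc k) m := Or.inl rfl

theorem cst (c : k) : Le (RatFunc.C c) 0 := Or.inr (by rw [RatFunc.intDegree_C])

theorem xx : Le (RatFunc.X : RatFunc k) 1 := Or.inr (by rw [RatFunc.intDegree_X])

theorem add {R S : RatFunc k} {m : ℤ} (hR : Le R m) (hS : Le S m) : Le (R + S) m := by
  by_cases h0 : R + S = 0
  · exact Or.inl h0
  rcases hS with rfl | hS
  · rwa [add_zero]
  rcases hR with rfl | hR
  · rw [zero_add]
    exact Or.inr hS
  by_cases hS0 : S = 0
  · rw [hS0, add_zero]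
    exact Or.inr hR
  exact Or.inr ((RatFunc.intDegree_add_le hS0 h0).trans (max_le hR hS))

theorem neg {R : RatFunc k} {m : ℤ} (hR : Le R m) : Le (-R) m := by
  rcases hR with rfl | hR
  · rw [neg_zero]
    exact zero m
  · exact Or.inr (by rwa [RatFunc.intDegree_neg])

theorem sub {R S : RatFunc k} {m : ℤ} (hR : Le R m) (hS : Le S m) : Le (R - S) m := by
  rw [sub_eq_add_neg]
  exact add hR (neg hS)

theorem mul {R S : RatFunc k} {m n : ℤ} (hR : Le R m) (hS : Le S n) : Le (R * S) (m + n) := by
  by_cases hR0 : R = 0
  · rw [hR0, zero_mul]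
    exact zero _
  by_cases hS0 : S = 0
  · rw [hS0, mul_zero]
    exact zero _
  right
  rw [RatFunc.intDegree_mul hR0 hS0]
  exact add_le_add (hR.resolve_left hR0) (hS.resolve_left hS0)

theorem mulC {R : RatFunc k} {m : ℤ} (c : k) (hR : Le R m) : Le (RatFunc.C c * R) m := by
  have h := mul (cst c) hR
  rwa [zero_add] at h

theorem two {R : RatFunc k} {m : ℤ} (hR : Le R m) : Le (2 * R) m := by
  rw [two_mul]
  exact add hR hR

theorem four {R : RatFunc k} {m : ℤ} (hR : Le R m) : Le (4 * R) m := by
  rw [show (4 : RatFunc k) * R = 2 * (2 * R) by ring]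
  exact two (two hR)

theorem pow {R : RatFunc k} {m : ℤ} (hR : Le R m) (n : ℕ) : Le (R ^ n) (n * m) := by
  induction n with
  | zero =>
    have h := cst (1 : k)
    rw [map_one] at h
    rw [pow_zero, Nat.cast_zero, zero_mul]
    exact h
  | succ n ih =>
    have h := mul ih hR
    rw [pow_succ]
    refine mono h (le_of_eq ?_)
    push_cast
    ring

theorem nle {R : RatFunc k} {m : ℤ} (h : ¬ Le R m) : R ≠ 0 ∧ m < R.intDegree := by
  unfold Le at h
  rw [not_or, not_le] at h
  exact h

theorem nle_pow {R : RatFunc k} {m : ℤ} (h0 : R ≠ 0) (h : m ≤ R.intDegree) (n : ℕ) :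
    ¬ Le (R ^ n) (n * m - 1) := by
  have h1 : ∀ n : ℕ, (R ^ n).intDegree = n * R.intDegree := by
    intro n
    induction n with
    | zero => simp
    | succ n ih =>
      rw [pow_succ, RatFunc.intDegree_mul (pow_ne_zero n h0) h0, ih]
      push_cast
      ring
  rintro (h2 | h2)
  · exact pow_ne_zero n h0 h2
  · rw [h1] at h2
    have h3 : (n : ℤ) * m ≤ n * R.intDegree := mul_le_mul_of_nonneg_left h (by positivity)
    linarith

/-- addition of `id` keeps the pole at infinity -/
theorem step {a b : k} {u x y : RatFunc k} {d : ℤ} (hu0 : u ≠ 0) (hd : u.intDegree = d)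
    (hd1 : 1 ≤ d) (hne : u ≠ RatFunc.X)
    (hs : x + y = 2 * ((u * RatFunc.X + RatFunc.C a) * (u + RatFunc.X) + 2 * RatFunc.C b) /
      (u - RatFunc.X) ^ 2)
    (hp : x * y = ((u * RatFunc.X - RatFunc.C a) ^ 2 - 4 * RatFunc.C b * (u + RatFunc.X)) /
      (u - RatFunc.X) ^ 2) : ¬ Le x 0 := by
  intro hx
  have hu : Le u d := Or.inr hd.le
  have hX : Le (RatFunc.X : RatFunc k) d := mono xx hd1
  have huX0 : u - RatFunc.X ≠ 0 := sub_ne_zero.2 hne
  have hw : Le (u - RatFunc.X) d := sub hu hX
  have hw2 : Le ((u - RatFunc.X) ^ 2) (2 * d) := by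
    have := pow hw 2
    exact_mod_cast this
  rw [eq_div_iff (pow_ne_zero 2 huX0)] at hs hp
  have huX : Le (u * RatFunc.X) (d + 1) := mul hu xx
  have hS : Le (2 * ((u * RatFunc.X + RatFunc.C a) * (u + RatFunc.X) + 2 * RatFunc.C b))
      (2 * d + 1) := by
    refine two (add ?_ ?_)
    · have h := mul (add huX (mono (cst a) (by linarith : (0 : ℤ) ≤ d + 1))) (add hu hX)
      exact mono h (by linarith)
    · exact mono (two (cst b)) (by linarith)
  have hy : Le (y * (u - RatFunc.X) ^ 2) (2 * d + 1) := by
    have h1 : y * (u - RatFunc.X) ^ 2 =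
        2 * ((u * RatFunc.X + RatFunc.C a) * (u + RatFunc.X) + 2 * RatFunc.C b) -
          x * (u - RatFunc.X) ^ 2 := by
      rw [← hs]
      ring
    rw [h1]
    refine sub hS ?_
    exact mono (mul hx hw2) (by linarith)
  have hA : Le (x * (y * (u - RatFunc.X) ^ 2)) (2 * d + 1) := by
    have h := mul hx hy
    rwa [zero_add] at h
  have h2 : (u * RatFunc.X) ^ 2 = x * (y * (u - RatFunc.X) ^ 2) +
      (2 * (RatFunc.C a * (u * RatFunc.X)) - RatFunc.C a * RatFunc.C a +
        4 * (RatFunc.C b * (u + RatFunc.X))) := by
    linear_combination (-1 : RatFunc k) * hp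
  have h3 : Le ((u * RatFunc.X) ^ 2) (2 * d + 1) := by
    rw [h2]
    refine add hA (add (sub ?_ ?_) ?_)
    · exact mono (two (mulC a huX)) (by linarith)
    · exact mono (mulC a (cst a)) (by linarith)
    · exact mono (four (mulC b (add hu hX))) (by linarith)
  have h4 : (u * RatFunc.X).intDegree = d + 1 := by
    rw [RatFunc.intDegree_mul hu0 RatFunc.X_ne_zero, hd, RatFunc.intDegree_X]
  have h5 := nle_pow (mul_ne_zero hu0 RatFunc.X_ne_zero) h4.ge 2
  apply h5
  refine mono h3 ?_
  push_cast
  linarith

/-- degree of the derivative -/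
theorem der (R : RatFunc k) : Le (rder R) (R.intDegree - 1) := by
  have hp : ∀ P : k[X], Le (algebraMap k[X] (RatFunc k) (derivative P)) (P.natDegree - 1) := by
    intro P
    by_cases h : derivative P = 0
    · rw [h, map_zero]
      exact zero _
    · right
      rw [RatFunc.intDegree_polynomial]
      have h1 : P.natDegree ≠ 0 := by
        intro h1
        apply h
        exact derivative_of_natDegree_zero h1
      have h2 := natDegree_derivative_lt h1
      omega
  have hq : ∀ P : k[X], Le (algebraMap k[X] (RatFunc k) P) P.natDegree := by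
    intro P
    right
    rw [RatFunc.intDegree_polynomial]
  have hD : algebraMap k[X] (RatFunc k) R.denom ≠ 0 :=
    (map_ne_zero_iff _ (RatFunc.algebraMap_injective k)).2 R.denom_ne_zero
  have h1 : Le (algebraMap k[X] (RatFunc k)
      (derivative R.num * R.denom - R.num * derivative R.denom))
      (R.num.natDegree + R.denom.natDegree - 1) := by
    rw [map_sub, map_mul, map_mul]
    refine sub (mono (mul (hp R.num) (hq R.denom)) ?_) (mono (mul (hq R.num) (hp R.denom)) ?_)
    · linarith
    · linarith
  have h2 : Le ((algebraMap k[X] (RatFunc k) (R.denom ^ 2))⁻¹) (-(2 * R.denom.natDegree)) := by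
    right
    rw [RatFunc.intDegree_inv, RatFunc.intDegree_polynomial, natDegree_pow]
    push_cast
    exact le_rfl
  have h3 := mul h1 h2
  unfold rder
  rw [div_eq_mul_inv]
  refine mono h3 ?_
  unfold RatFunc.intDegree
  linarith

end INF_

open INF_ in
theorem p_INF (h1 : SSA.T_API) (h2 : SSA.T_XPM) (_h3 : SSA.T_TRS) (h4 : SSP.T_DGN)
    (_h5 : SSA.T_DDA) : T_INF := by
  intro k _ _ a b hH n hn
  obtain ⟨a1, -, a3, a4, -, -, -, -, -⟩ := h1 k a b hH
  obtain ⟨x1, x2, -⟩ := h2 k a b hH
  obtain ⟨g1, g2, g3⟩ := h4 k a b hH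
  have hid : idM a b ≠ 0 ∧ xr (idM a b) = RatFunc.X ∧ yr (idM a b) = 1 := by
    refine a3 RatFunc.X 1 ?_
    unfold ff ev
    ring
  -- a pole at infinity
  have key : ∀ m : ℕ, 0 < m → ¬ Le (xr (m • idM a b)) 0 := by
    intro m hm
    induction m with
    | zero => omega
    | succ m ih =>
      rcases Nat.eq_zero_or_pos m with rfl | hm0
      · rw [zero_add, one_smul, hid.2.1]
        rintro (h | h)
        · exact RatFunc.X_ne_zero h
        · rw [RatFunc.intDegree_X] at h
          omega
      · by_cases hx : xr (m • idM a b) = RatFunc.X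
        · have hm1 : m = 1 := by
            have h := g1 m
            unfold dd rdeg at h
            rw [hx, RatFunc.num_X, RatFunc.denom_X, natDegree_X, natDegree_one] at h
            have : m ^ 2 = 1 := by
              rw [← h]
              rfl
            exact (Nat.pow_eq_one.1 this).resolve_right (by norm_num)
          subst hm1
          obtain ⟨-, hd⟩ := x2 (idM a b) hid.1 (by rw [hid.2.2]; exact one_ne_zero)
          intro hle
          have h2s : (1 + 1) • idM a b = idM a b + idM a b := two_nsmul _
          rw [h2s, hd, hid.2.1] at hle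
          have hev : ev a b (RatFunc.X : RatFunc k) = ff a b := by
            unfold ff ev
            rfl
          rw [hev] at hle
          have h40 : (4 : RatFunc k) ≠ 0 := by
            have h := hH.two
            intro h4
            apply h
            have h5 : (RatFunc.C ((2 : k) * 2) : RatFunc k) = 0 := by
              rw [map_mul]
              rw [show (RatFunc.C (2 : k) : RatFunc k) = 2 from map_ofNat _ 2]
              linear_combination h4
            have h6 := (map_eq_zero_iff _ (RatFunc.C_injective (K := k))).1 h5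
            exact (mul_self_eq_zero.1 h6)
          have hff : Le (ff a b : RatFunc k) 3 := by
            unfold ff
            have h := pow (xx (k := k)) 3
            refine add (add (mono h (by norm_num)) ?_) (mono (cst b) (by norm_num))
            exact mono (mulC a xx) (by norm_num)
          have h3 := mul hle (four hff)
          rw [div_mul_cancel₀ _ (mul_ne_zero h40 a1)] at h3
          have h6 : Le ((RatFunc.X : RatFunc k) ^ 4) 3 := by
            have h7 : (RatFunc.X : RatFunc k) ^ 4 = (RatFunc.X ^ 4 -
                2 * RatFunc.C a * RatFunc.X ^ 2 - 8 * RatFunc.C b * RatFunc.X + RatFunc.C a ^ 2) +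
                (2 * (RatFunc.C a * RatFunc.X ^ 2) + 4 * (2 * (RatFunc.C b * RatFunc.X)) -
                  RatFunc.C a * RatFunc.C a) := by
              ring
            rw [h7]
            refine add (mono h3 (by norm_num)) (sub (add ?_ ?_) ?_)
            · exact mono (two (mulC a (pow xx 2))) (by norm_num)
            · exact mono (four (two (mulC b xx))) (by norm_num)
            · exact mono (mulC a (cst a)) (by norm_num)
          have h8 := nle_pow (k := k) RatFunc.X_ne_zero (RatFunc.intDegree_X).ge 4
          apply h8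
          exact mono h6 (by norm_num)
        · have hP := g2 m hm0
          obtain ⟨hu0, hdeg⟩ := nle (ih hm0)
          obtain ⟨-, -, hs, hp⟩ := x1 (m • idM a b) (idM a b) hP hid.1 (by rwa [hid.2.1])
          rw [hid.2.1] at hs hp
          have h9 := step hu0 rfl (by omega) hx hs hp
          rwa [succ_nsmul]
  -- the exact degree
  have hn0 : 0 < n := by
    rcases Nat.eq_zero_or_pos n with rfl | h
    · simp at hn
    · exact h
  have hP := g2 n hn0
  obtain ⟨hR0, hδ⟩ := nle (key n hn0)
  have hDD := g3 n
  unfold DD at hDD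
  set R := xr (n • idM a b) with hR
  have hnR : ((n : ℕ) : RatFunc k) ≠ 0 := by
    rw [← map_natCast (RatFunc.C (K := k)) n]
    exact (map_ne_zero_iff _ (RatFunc.C_injective (K := k))).2 hn
  have hy : yr (n • idM a b) ≠ 0 := by
    intro hy
    rw [hy, div_zero] at hDD
    exact hnR hDD.symm
  rw [div_eq_iff hy] at hDD
  obtain ⟨e1, -⟩ := a4 _ hP
  have hode : rder R ^ 2 * ff a b = RatFunc.C ((n : k) ^ 2) * ev a b R := by
    rw [← e1, hDD, map_pow, map_natCast]
    ring
  have hff : Le (ff a b : RatFunc k) 3 := by
    unfold ff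
    have h := pow (xx (k := k)) 3
    refine add (add (mono h (by norm_num)) ?_) (mono (cst b) (by norm_num))
    exact mono (mulC a xx) (by norm_num)
  have hL : Le (rder R ^ 2 * ff a b) (2 * (R.intDegree - 1) + 3) := by
    refine mul ?_ hff
    have h := pow (der R) 2
    exact_mod_cast h
  have hev : Le (ev a b R) (2 * (R.intDegree - 1) + 3) := by
    have h : ev a b R = RatFunc.C (((n : k) ^ 2)⁻¹) * (rder R ^ 2 * ff a b) := by
      rw [hode, ← mul_assoc, ← map_mul, inv_mul_cancel₀ (pow_ne_zero 2 hn), map_one, one_mul]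
    rw [h]
    exact mulC _ hL
  have hle1 : R.intDegree ≤ 1 := by
    by_contra hcon
    rw [not_le] at hcon
    have h10 := nle_pow hR0 (le_refl R.intDegree) 3
    apply h10
    have h11 : R ^ 3 = ev a b R - (RatFunc.C a * R + RatFunc.C b) := by
      unfold ev
      ring
    rw [h11]
    refine sub (mono hev ?_) (add ?_ ?_)
    · push_cast
      linarith
    · refine mono (mulC a (Or.inr le_rfl)) ?_
      push_cast
      linarith
    · refine mono (cst b) ?_
      push_cast
      linarith
  have hrd := g1 n
  unfold dd rdeg at hrd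
  rw [← hR] at hrd
  unfold RatFunc.intDegree at hδ hle1
  have hpos : 0 < n ^ 2 := by positivity
  omega

end SSL
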