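import Pool.Agent.SSL.Targets
import Pool.Agent.SSP.INR

/-!
# MP_d74fca_nt, project SSL: INX, the inert case with torsion data
-/

set_option autoImplicit false

open Polynomial

namespace SSL

open SSA SSP

namespace INX_

variable {k k' : Type} [Field k] [Field k']

/-- numerator and denominator of a reduced fraction with monic denominator -/
lemma numden_monic {N D : k[X]} (hD : D.Monic) (hc : IsCoprime N D) {R : RatFunc k}
    (hR : R = algebraMap k[X] (RatFunc k) N / algebraMap k[X] (RatFunc k) D) :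
    R.num = N ∧ R.denom = D := by
  have h1 : R.num * D = N * R.denom := (RatFunc.num_mul_eq_mul_denom_iff hD.ne_zero).2 hR
  have h2 : IsCoprime R.num R.denom := RatFunc.isCoprime_num_denom R
  have h3 : R.denom ∣ D := h2.symm.dvd_of_dvd_mul_left (Dvd.intro_left N h1.symm)
  have h4 : D ∣ R.denom := hc.symm.dvd_of_dvd_mul_left (Dvd.intro_left R.num h1)
  have h5 : R.denom = D :=
    Polynomial.eq_of_monic_of_associated (RatFunc.monic_denom R) hD (associated_of_dvd_dvd h3 h4)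
  refine ⟨?_, h5⟩
  rw [h5] at h1
  exact mul_right_cancel₀ hD.ne_zero h1

/-- numerator and denominator of a mapped rational function -/
lemma rmap_numden (σ : k →+* k') (R : RatFunc k) :
    (rmap σ R).num = R.num.map σ ∧ (rmap σ R).denom = R.denom.map σ := by
  apply numden_monic
  · exact (RatFunc.monic_denom R).map σ
  · exact (RatFunc.isCoprime_num_denom R).map (Polynomial.mapRingHom σ)
  · rfl

lemma denom_map {σ : k →+* k} {R : RatFunc k} (h : rmap σ R = R) (x : k) :
    R.denom.eval (σ x) = σ (R.denom.eval x) := by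
  have h1 := (rmap_numden σ R).2
  rw [h] at h1
  conv_lhs => rw [h1]
  rw [eval_map, eval₂_at_apply]

lemma num_map {σ : k →+* k} {R : RatFunc k} (h : rmap σ R = R) (x : k) :
    R.num.eval (σ x) = σ (R.num.eval x) := by
  have h1 := (rmap_numden σ R).1
  rw [h] at h1
  conv_lhs => rw [h1]
  rw [eval_map, eval₂_at_apply]

/-- the differential equation -/
lemma ode {a b : k} (H : Hyp a b) (h3 : SSA.T_API) {β : MM a b} {c : k} (hc : c ≠ 0)
    (hD : DD β = RatFunc.C c) :
    rder (xr β) ^ 2 * ff a b = RatFunc.C (c ^ 2) * ev a b (xr β) := by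
  obtain ⟨-, h00, -, hrec, -⟩ := h3 k a b H
  have hCc : (RatFunc.C c : RatFunc k) ≠ 0 := by
    rw [Ne, map_eq_zero]
    exact hc
  have hy : yr β ≠ 0 := by
    intro h0
    apply hCc
    rw [← hD]
    unfold DD
    rw [h0, div_zero]
  have hβ : β ≠ 0 := by
    intro h0
    rw [h0] at hy
    exact hy h00.2
  have hder : rder (xr β) = RatFunc.C c * yr β := by
    rw [← hD]
    unfold DD
    rw [div_mul_cancel₀ _ hy]
  have heq := (hrec β hβ).1
  rw [hder, map_pow]
  linear_combination RatFunc.C c ^ 2 * heq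

/-- multiplication by `n` is defined over the field of definition -/
lemma rmap_smul (h8 : SSA.T_TAU) {a b : k} (H : Hyp a b) (σ : k ≃+* k)
    (ha : σ a = a) (hb : σ b = b) (n : ℕ) :
    rmap σ.toRingHom (xr (n • idM a b)) = xr (n • idM a b) := by
  obtain ⟨tadd, -, tx, tid, -⟩ := h8 k a b H σ ha hb
  have h1 : tau σ (n • idM a b) = n • idM a b := by
    induction n with
    | zero =>
      rw [zero_nsmul]
      unfold tau
      rw [if_pos rfl]
    | succ m ih =>
      rw [succ_nsmul, tadd, ih, tid]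
  have h2 := (tx (n • idM a b)).1
  rw [h1] at h2
  exact h2.symm

end INX_

open INX_ SSP.INR_ in
/-- INX: the inert case with torsion data -/
theorem p_INX (h1 : SSP.T_AUT) (h2 : SSP.T_RIN) (h3 : SSP.T_PARL) (h4 : SSP.T_UNQ)
    (h5 : SSP.T_JHP) (h6 : SSA.T_API) (h7 : SSA.T_RFM) (h8 : SSA.T_TAU) (h9 : T_NRD) : T_INX := by
  intro p _ P D hp hD2 hsq Q r s hQ hs hr hr' hv0 hodd hCM
  have hp2 : p ≠ 2 := by omega
  have hpp : p.Prime := Fact.out
  -- the square root and the root of `Q`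
  obtain ⟨c0, hc0⟩ := IsAlgClosed.exists_pow_nat_eq (-(D : PadicAlgCl p)) (n := 2) (by norm_num)
  obtain ⟨j, hjQ, hjd, σ, hσj, hσc0⟩ := h3 p D hp2 hsq Q r s hQ hs hv0 hodd c0 hc0
  obtain ⟨hjne0, hjne1, c, hc, α, hDα, hαdeg, -, hTor⟩ := hCM j hjQ
  have hσc : σ c = -c := by
    have h14 : c ^ 2 = c0 ^ 2 := by rw [hc, hc0]
    rcases sq_eq_sq_iff_eq_or_eq_neg.1 h14 with h15 | h15
    · rw [h15, hσc0]
    · rw [h15, map_neg, hσc0]
  -- reduction of integers
  obtain ⟨hred0, hneg, hint, hcong, hunit, hfrac⟩ := h2 p P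
  obtain ⟨hrs, hredrs⟩ := hfrac r s hs
  set j0 : ZMod p := (r : ZMod p) / (s : ZMod p) with hj0
  have hj1 : ‖j‖ ≤ 1 := by
    have h14 := norm_add_le1 hjd.le hrs
    rwa [sub_add_cancel] at h14
  have hredj : P.red j = zc p P.k j0 := by
    rw [← hredrs]
    exact (hcong _ _ hj1 hrs).2 hjd
  obtain ⟨haj, hredaj⟩ := red_aj h2 P hj1
  obtain ⟨hbj, hredbj⟩ := red_bj h2 P hj1
  have hsz : (s : ZMod p) ≠ 0 := by
    intro h
    exact hs ((ZMod.intCast_zmod_eq_zero_iff_dvd s p).1 h)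
  have hj00 : j0 ≠ 0 := by
    refine div_ne_zero (fun h => hr ((ZMod.intCast_zmod_eq_zero_iff_dvd r p).1 h)) hsz
  have hj01 : j0 ≠ 1728 := by
    intro h
    rw [hj0, div_eq_iff hsz] at h
    apply hr'
    rw [← ZMod.intCast_zmod_eq_zero_iff_dvd]
    push_cast
    rw [h, sub_self]
  have hk0 : P.red j ≠ 0 := by
    rw [hredj]
    exact (_root_.map_ne_zero _).2 hj00
  have hk1 : P.red j ≠ 1728 := by
    rw [hredj]
    intro h
    apply hj01
    apply (zc p P.k).injective
    rw [h, map_ofNat]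
  have hchar : ∀ m : ℕ, 0 < m → m < p → ((m : ℕ) : P.k) ≠ 0 := by
    intro m hm hmp h
    rw [CharP.cast_eq_zero_iff P.k p] at h
    exact absurd (Nat.le_of_dvd hm h) (by omega)
  have h2k : (2 : P.k) ≠ 0 := by
    have := hchar 2 (by norm_num) (by omega)
    exact_mod_cast this
  have h3k : (3 : P.k) ≠ 0 := by
    have := hchar 3 (by norm_num) (by omega)
    exact_mod_cast this
  obtain ⟨hypk, _, _⟩ := h5 P.k (P.red j) h2k h3k hk0 hk1
  have hypk' : Hyp (P.red (aj j)) (P.red (bj j)) := by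
    rw [hredaj, hredbj]
    exact hypk
  obtain ⟨hypj, _, _⟩ := h5 (PadicAlgCl p) j two_ne_zero three_ne_zero hjne0 hjne1
  -- the norm of `c`
  have hpD : ¬ (p : ℤ) ∣ (D : ℤ) := by
    intro h
    have h14 : ((D : ℕ) : ZMod p) = 0 := by
      have := (ZMod.intCast_zmod_eq_zero_iff_dvd (D : ℤ) p).2 h
      exact_mod_cast this
    apply hsq 0
    rw [h14]
    ring
  have hnD : ‖(D : PadicAlgCl p)‖ = 1 := by
    have h14 : ‖((D : ℤ) : PadicAlgCl p)‖ ≤ 1 := (hint D).1
    by_contra hne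
    have h15 : ‖((D : ℤ) : PadicAlgCl p)‖ < 1 := by
      push_cast at h14 ⊢
      exact lt_of_le_of_ne h14 hne
    have h16 : P.red ((D : ℤ) : PadicAlgCl p) = 0 := (P.red_zero _ h14).2 h15
    rw [(hint D).2, CharP.intCast_eq_zero_iff P.k p] at h16
    exact hpD h16
  have hκ : ‖c ^ 2‖ = 1 := by rw [hc, norm_neg, hnD]
  have hnc : ‖c‖ = 1 := by
    rw [norm_pow] at hκ
    nlinarith [norm_nonneg c]
  have hredc2 : P.red (c ^ 2) = P.red c ^ 2 := by
    rw [sq, sq, P.red_mul _ _ hnc.le hnc.le]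
  have hcne : c ≠ 0 := by
    intro h
    rw [h, norm_zero] at hnc
    exact zero_ne_one hnc
  have hRode := ode hypj h6 hcne hDα
  -- invariance under `σ`
  obtain ⟨hσn, τ, hτ⟩ := h1 p P σ
  set σr : PadicAlgCl p ≃+* PadicAlgCl p := σ.toRingEquiv with hσr
  set σ' : PadicAlgCl p →+* PadicAlgCl p := σr.toRingHom with hσ'
  have hσ'a : ∀ x, σ' x = σ x := fun x => rfl
  have hσra : ∀ x, σr x = σ x := fun x => rfl
  have hσa : σ' (aj j) = aj j := by rw [map_aj, hσ'a, hσj]
  have hσb : σ' (bj j) = bj j := by rw [map_bj, hσ'a, hσj]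
  have hinvR : rmap σ' (xr α) = xr α := by
    obtain ⟨madd, msub, mmul, mdiv, mpow, mpol, mC, mX, minj, mder, mdeg, mcomp⟩ :=
      h7 (PadicAlgCl p) (PadicAlgCl p) σ'
    have hff : rmap σ' (ff (aj j) (bj j)) = ff (aj j) (bj j) := by
      unfold ff
      rw [madd, madd, mmul, mpow, mX, mC, mC, hσa, hσb]
    have hev : rmap σ' (ev (aj j) (bj j) (xr α)) = ev (aj j) (bj j) (rmap σ' (xr α)) := by
      unfold ev
      rw [madd, madd, mmul, mpow, mC, mC, hσa, hσb]
    refine h4 (PadicAlgCl p) (aj j) (bj j) hypj (rmap σ' (xr α)) (xr α) (c ^ 2) ?_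
      (deg_rmap σ' hαdeg) hαdeg ?_ hRode
    · intro h
      rw [h, norm_zero] at hκ
      exact zero_ne_one hκ
    · have h14 := congrArg (rmap σ') hRode
      rw [mmul, mmul, mpow, mder, hff, hev, mC, hσ'a, map_pow, hσc, neg_sq] at h14
      exact h14
  have hinvn : ∀ n : ℕ, rmap σ' (xr (n • idM (aj j) (bj j))) = xr (n • idM (aj j) (bj j)) :=
    fun n => rmap_smul h8 hypj σr hσa hσb n
  have hτc : τ (P.red c) = -P.red c := by
    rw [← hτ c hnc.le, hσc, hneg c hnc.le]
  have hza : zc p P.k (aj j0) = P.red (aj j) := by rw [map_aj, hredaj, hredj]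
  have hzb : zc p P.k (bj j0) = P.red (bj j) := by rw [map_bj, hredbj, hredj]
  refine ⟨P.red c, τ, (hunit c hnc).1, ?_, hτc, ?_⟩
  · rw [← hredc2, hc]
    have h14 := (hint (-(D : ℤ))).2
    push_cast at h14
    exact h14
  · intro l hl hl2 hlD hlD2
    have hlp : l ≠ p := by
      rintro rfl
      exact hpD (by exact_mod_cast hlD)
    obtain ⟨x₀, hx1, hx2, hx3⟩ := hTor l hl hl2 hlD hlD2
    have hy1 : (xr α).denom.eval (σ x₀) = 0 := by
      have := denom_map hinvR x₀
      rw [hx1, map_zero] at this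
      exact this
    have hy2 : (xr (l • idM (aj j) (bj j))).denom.eval (σ x₀) = 0 := by
      have := denom_map (hinvn l) x₀
      rw [hx2, map_zero] at this
      exact this
    obtain ⟨n, hn0, hnl, hn1, hn2⟩ := hx3 (σ x₀) hy1 hy2
    obtain ⟨hx4, hx5, hx6⟩ := h9 p P hp (aj j) (bj j) haj hbj hypk'.disc l hl hl2 hlp x₀ hx2
    obtain ⟨hn3, hn4⟩ := hx6 n hn0 hnl
    rw [hza, hzb]
    refine ⟨P.red x₀, n, hx5, hn3, hn0, hnl, ?_⟩
    rw [← hτ x₀ hx4, hn2, hn4]

end SSL
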