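import Pool.Agent.SSL.Targets

/-!
# MP_d74fca_nt, KER: values and poles of `xr P` at arbitrary points (helper76, for helper22)
-/

set_option autoImplicit false

open Polynomial Filter Topology

namespace SSL

open SSA SSP

namespace KER_

lemma cont_P (L : PeriodPair) (z : ℂ) (hz : z ∉ L.lattice) : ContinuousAt L.weierstrassP z :=
  (L.analyticOnNhd_weierstrassP z hz).continuousAt

lemma pole (L : PeriodPair) (z : ℂ) (hz : z ∈ L.lattice) :
    Tendsto L.weierstrassP (𝓝[≠] z) (Bornology.cobounded ℂ) :=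
  (tendsto_cobounded_iff_meromorphicOrderAt_neg (L.meromorphic_weierstrassP z)).mpr
    (by rw [L.order_weierstrassP z hz]; decide)

/-- the main argument, for polynomials -/
lemma main (L : PeriodPair) (N D : ℂ[X]) (hco : IsCoprime N D) (m : ℂ) (S : Set ℂ)
    (hS : S.Countable)
    (hgood : ∀ w, w ∉ S → m * w ∉ L.lattice ∧ D.eval (L.weierstrassP w) ≠ 0 ∧
      L.weierstrassP (m * w) = N.eval (L.weierstrassP w) / D.eval (L.weierstrassP w))
    (z : ℂ) (hz : z ∉ L.lattice) :
    (D.eval (L.weierstrassP z) = 0 ↔ m * z ∈ L.lattice) ∧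
    (m * z ∉ L.lattice → L.weierstrassP (m * z) =
      N.eval (L.weierstrassP z) / D.eval (L.weierstrassP z)) := by
  have hdense : Dense Sᶜ := hS.dense_compl ℂ
  have hne : (𝓝[Sᶜ] z).NeBot := mem_closure_iff_nhdsWithin_neBot.mp (hdense z)
  have hx : Tendsto L.weierstrassP (𝓝[Sᶜ] z) (𝓝 (L.weierstrassP z)) :=
    (cont_P L z hz).tendsto.mono_left nhdsWithin_le_nhds
  have hN : Tendsto (fun w => N.eval (L.weierstrassP w)) (𝓝[Sᶜ] z) (𝓝 (N.eval (L.weierstrassP z))) :=
    (N.continuous.tendsto _).comp hx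
  have hD : Tendsto (fun w => D.eval (L.weierstrassP w)) (𝓝[Sᶜ] z) (𝓝 (D.eval (L.weierstrassP z))) :=
    (D.continuous.tendsto _).comp hx
  have hmw : Tendsto (fun w => m * w) (𝓝[Sᶜ] z) (𝓝 (m * z)) := by
    have : Continuous (fun w : ℂ => m * w) := by fun_prop
    exact (this.tendsto z).mono_left nhdsWithin_le_nhds
  have hself : ∀ᶠ w in 𝓝[Sᶜ] z, w ∉ S := self_mem_nhdsWithin
  have hA : m * z ∉ L.lattice → D.eval (L.weierstrassP z) ≠ 0 ∧ L.weierstrassP (m * z) =
      N.eval (L.weierstrassP z) / D.eval (L.weierstrassP z) := by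
    intro hmz
    have h1 : Tendsto (fun w => L.weierstrassP (m * w)) (𝓝[Sᶜ] z) (𝓝 (L.weierstrassP (m * z))) :=
      (cont_P L (m * z) hmz).tendsto.comp hmw
    have h2 : Tendsto (fun w => L.weierstrassP (m * w) * D.eval (L.weierstrassP w)) (𝓝[Sᶜ] z)
        (𝓝 (L.weierstrassP (m * z) * D.eval (L.weierstrassP z))) := h1.mul hD
    have h3 : (fun w => L.weierstrassP (m * w) * D.eval (L.weierstrassP w)) =ᶠ[𝓝[Sᶜ] z]
        fun w => N.eval (L.weierstrassP w) := by
      filter_upwards [hself] with w hw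
      obtain ⟨-, hw2, hw3⟩ := hgood w hw
      rw [hw3]
      field_simp
    have h4 : L.weierstrassP (m * z) * D.eval (L.weierstrassP z) = N.eval (L.weierstrassP z) :=
      tendsto_nhds_unique (h2.congr' h3) hN
    have h5 : D.eval (L.weierstrassP z) ≠ 0 := by
      intro h6
      rw [h6, mul_zero] at h4
      obtain ⟨u, v, huv⟩ := hco
      have h7 := congrArg (fun Q : ℂ[X] => Q.eval (L.weierstrassP z)) huv
      simp only [eval_add, eval_mul, eval_one, h6, ← h4, mul_zero, add_zero] at h7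
      exact zero_ne_one h7
    exact ⟨h5, by rw [← h4]; field_simp⟩
  refine ⟨⟨fun h => ?_, fun h => ?_⟩, fun h => (hA h).2⟩
  · by_contra hcon
    exact (hA hcon).1 h
  · by_contra hcon
    have h1 : Tendsto (fun w => L.weierstrassP (m * w)) (𝓝[Sᶜ] z) (Bornology.cobounded ℂ) := by
      refine (pole L (m * z) h).comp ?_
      rw [tendsto_nhdsWithin_iff]
      refine ⟨hmw, ?_⟩
      filter_upwards [hself] with w hw
      intro hc
      apply (hgood w hw).1
      rw [show m * w = m * z from hc]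
      exact h
    have h2 : Tendsto (fun w => N.eval (L.weierstrassP w) / D.eval (L.weierstrassP w)) (𝓝[Sᶜ] z)
        (𝓝 (N.eval (L.weierstrassP z) / D.eval (L.weierstrassP z))) := hN.div hD hcon
    have h3 : (fun w => L.weierstrassP (m * w)) =ᶠ[𝓝[Sᶜ] z]
        fun w => N.eval (L.weierstrassP w) / D.eval (L.weierstrassP w) := by
      filter_upwards [hself] with w hw
      exact (hgood w hw).2.2
    exact (h2.congr' h3.symm).not_tendsto (Metric.disjoint_nhds_cobounded _) h1

end KER_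

theorem p_KER (h1 : SSW.T_CTB) (h2 : SSW.T_SND) (h3 : SSW.T_RPB) : T_KER := by
  clear h1 h2 h3
  intro L _ P m hRep z hz
  obtain ⟨-, hS⟩ := hRep
  refine KER_.main L (xr P).num (xr P).denom (RatFunc.isCoprime_num_denom _) m _ hS ?_ z hz
  intro w hw
  have hw' := not_not.mp hw
  exact ⟨hw'.2.1, hw'.2.2.1, hw'.2.2.2.2.1⟩

end SSL
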