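import Pool.Agent.SSL.Targets
import Pool.Agent.SSP.KIN

/-!
# MP_d74fca_nt, project SSL: the arithmetic input in final form, inert primes (job SSL-KIX)
-/

set_option autoImplicit false

open Polynomial

namespace SSL

open SSA SSP

namespace KIX_

variable {p : ℕ} [Fact p.Prime]

/-- elements of a field of characteristic `p` fixed by Frobenius lie in the prime field -/
theorem exists_zc {k : Type} [Field k] [CharP k p] (c : k) (h : c ^ p = c) :
    ∃ z : ZMod p, zc p k z = c := by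
  classical
  have hp : p.Prime := Fact.out
  have hinj : Function.Injective (zc p k) := (zc p k).injective
  have hne : (X ^ p - X : k[X]) ≠ 0 := by
    exact FiniteField.X_pow_card_sub_X_ne_zero k hp.one_lt
  have hsub : (Finset.univ.image (zc p k)) ⊆ (X ^ p - X : k[X]).roots.toFinset := by
    intro y hy
    obtain ⟨z, -, rfl⟩ := Finset.mem_image.1 hy
    rw [Multiset.mem_toFinset, mem_roots hne, IsRoot.def, eval_sub, eval_pow, eval_X, ← map_pow,
      ZMod.pow_card, sub_self]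
  have hcard : (X ^ p - X : k[X]).roots.toFinset.card ≤ (Finset.univ.image (zc p k)).card := by
    rw [Finset.card_image_of_injective _ hinj, Finset.card_univ, ZMod.card]
    refine (Multiset.toFinset_card_le _).trans ((card_roots' _).trans ?_)
    rw [FiniteField.X_pow_card_sub_X_natDegree_eq k hp.one_lt]
  have heq := Finset.eq_of_subset_of_card_le hsub hcard
  have hc : c ∈ (X ^ p - X : k[X]).roots.toFinset := by
    rw [Multiset.mem_toFinset, mem_roots hne, IsRoot.def, eval_sub, eval_pow, eval_X, h, sub_self]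
  rw [← heq] at hc
  obtain ⟨z, -, hz⟩ := Finset.mem_image.1 hc
  exact ⟨z, hz⟩

theorem pow_p {k : Type} [Field k] [CharP k p] (D : ℕ) (hx : ∀ x : ZMod p, x ^ 2 ≠ -(D : ZMod p))
    (c : k) (hc : c ^ 2 = -(D : k)) : c ^ p = -c := by
  have h1 : (c ^ p) ^ 2 = c ^ 2 := by
    have h2 : -(D : k) = zc p k (-(D : ZMod p)) := by
      rw [map_neg, map_natCast]
    rw [← pow_mul, mul_comm, pow_mul, hc, h2, ← map_pow, ZMod.pow_card]
  rcases sq_eq_sq_iff_eq_or_eq_neg.1 h1 with h3 | h3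
  · exfalso
    obtain ⟨z, hz⟩ := exists_zc c h3
    apply hx z
    apply (zc p k).injective
    rw [map_pow, hz, hc, map_neg, map_natCast]
  · exact h3

end KIX_

theorem p_KIX (h1 : T_INX) (h2 : T_LEG) (h3 : T_TRY) (h4 : SSP.T_ISO) (h5 : SSP.T_KIN)
    (h6 : SSP.T_PLC) (_h7 : SSP.T_JHP) : T_KIX := by
  intro p _ D hp5 hD hsq hx Q r s hQ hs hr hrs hhv hodd hCM l hl hl2 hlD
  obtain ⟨P⟩ := h6 p
  have hmain : ∀ j₁ : PadicAlgCl p, aeval j₁ Q = 0 → CMX (PadicAlgCl p) j₁ D := by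
    intro j₁ hj
    obtain ⟨e⟩ := h4 p
    have hz : aeval (e.symm j₁) Q = 0 := by
      have h8 : e.symm (aeval j₁ Q) = aeval (e.symm j₁) Q := by
        rw [aeval_def, aeval_def, ← RingEquiv.coe_toRingHom, hom_eval₂]
        congr 1
        exact Subsingleton.elim _ _
      rw [← h8, hj, map_zero]
    have h9 := h3 ℂ (PadicAlgCl p) e (e.symm j₁) D two_ne_zero three_ne_zero (hCM _ hz)
    rwa [RingEquiv.apply_symm_apply] at h9
  have hE : ∀ z : ℂ, aeval z Q = 0 → CME ℂ z D := by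
    intro z hz
    obtain ⟨hj0, hj1, c, hc, α, hDD, hdeg, hxx, -⟩ := hCM z hz
    exact ⟨hj0, hj1, c, hc, α, hDD, hdeg, hxx⟩
  have hN := (h5 p P D hp5 hD hx Q r s hQ hs hr hrs hhv hodd hE).2 hsq
  have hyp := KIN_.hyp P hp5 r s hs hr hrs
  obtain ⟨c, σ, hc0, hc, hσ, hl'⟩ := h1 p P D hp5 hD hx Q r s hQ hs hr hrs hhv hodd hmain
  have hll : ¬ l ^ 2 ∣ D := by
    intro h
    rw [pow_two] at h
    exact hl.one_lt.ne' (Nat.isUnit_iff.1 (hsq l h))
  obtain ⟨x₀, n, hx0, hn, hn0, hnl, hσx⟩ := hl' l hl hl2 hlD hll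
  have hlp : l ≠ p := by
    rintro rfl
    apply hx 0
    rw [(CharP.cast_eq_zero_iff (ZMod l) l D).2 hlD]
    simp
  exact h2 p P.k hp5 _ _ hyp hN c σ hc0 (KIX_.pow_p D hx c hc) hσ l hl hl2 hlp x₀ n hx0 hn hn0 hnl
    hσx

end SSL
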