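import Pool.Agent.SSL.Targets

/-!
# LEG: the Legendre symbol, characteristic `p`
-/

set_option autoImplicit false
set_option maxHeartbeats 4000000

open Polynomial

namespace SSL

open SSA SSP

namespace LEG_

/-- the group theoretic part -/
theorem grp {G : Type} [AddCommGroup G] (F : G →+ G) (P : G) (l p : ℕ) (hl : l.Prime)
    (hlp : ¬ l ∣ p) (hP : P ≠ 0) (hlP : l • P = 0) (hF : F (F P) = -((p : ℤ) • P)) (s : ℕ)
    (hs : Odd s) (m : ℤ) (hm : F^[s] P = m • P) : ∃ x : ZMod l, x ^ 2 = -(p : ZMod l) := by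
  obtain ⟨u, rfl⟩ := hs
  have hFz : ∀ (z : ℤ) (Q : G), F (z • Q) = z • F Q := fun z Q => map_zsmul F z Q
  have h1 : ∀ u : ℕ, F^[2 * u] P = ((-(p : ℤ)) ^ u) • P := by
    intro u
    induction u with
    | zero => simp
    | succ u ih =>
      rw [show 2 * (u + 1) = (2 * u + 1) + 1 from by ring, Function.iterate_succ_apply',
        Function.iterate_succ_apply', ih, hFz, hFz, hF, pow_succ, mul_smul, neg_smul]
  have h2 : ((-(p : ℤ)) ^ u) • F P = m • P := by
    have h0 : F^[2 * u + 1] P = F (F^[2 * u] P) := Function.iterate_succ_apply' F (2 * u) P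
    rw [h0, h1, hFz] at hm
    exact hm
  have hlF : (l : ℤ) • F P = 0 := by
    rw [← hFz, natCast_zsmul, hlP, map_zero]
  have hcop : IsCoprime ((-(p : ℤ)) ^ u) (l : ℤ) := by
    apply IsCoprime.pow_left
    apply IsCoprime.neg_left
    rw [Int.isCoprime_iff_gcd_eq_one, Int.gcd_natCast_natCast]
    exact Nat.Coprime.symm ((Nat.Prime.coprime_iff_not_dvd hl).2 hlp)
  obtain ⟨v, w, hvw⟩ := hcop
  have h3 : F P = (v * m) • P := by
    calc F P = (1 : ℤ) • F P := (one_smul _ _).symm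
      _ = (v * (-(p : ℤ)) ^ u + w * l) • F P := by rw [hvw]
      _ = (v * m) • P := by rw [add_smul, mul_smul, mul_smul, mul_smul, h2, hlF, smul_zero, add_zero]
  have h4 : ((v * m) ^ 2 + p) • P = 0 := by
    have h5 : F (F P) = ((v * m) ^ 2) • P := by
      rw [h3, hFz, h3, pow_two, mul_smul (v * m)]
    rw [add_smul, ← h5, hF]
    simp
  have hord : addOrderOf P = l := by
    have : Fact l.Prime := ⟨hl⟩
    exact addOrderOf_eq_prime hlP hP
  have h6 : (l : ℤ) ∣ (v * m) ^ 2 + p := by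
    rw [← hord]
    exact addOrderOf_dvd_iff_zsmul_eq_zero.2 h4
  refine ⟨((v * m : ℤ) : ZMod l), ?_⟩
  have h7 := (ZMod.intCast_zmod_eq_zero_iff_dvd _ l).2 h6
  push_cast at h7 ⊢
  exact eq_neg_of_add_eq_zero_left h7

/-- automorphisms act as powers of Frobenius on elements of finite fields -/
theorem sig (p : ℕ) [Fact p.Prime] (k : Type) [Field k] [CharP k p] (σ : k ≃+* k) (x c : k)
    (m : ℕ) (hm : 0 < m) (hx : x ^ p ^ m = x) (hc : c ^ p ^ m = c) :
    ∃ s : ℕ, σ x = x ^ p ^ s ∧ σ c = c ^ p ^ s := by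
  have hp : p.Prime := Fact.out
  let K : Subfield k := (iterateFrobenius k p m).eqLocusField (RingHom.id k)
  have hK : ∀ z : k, z ∈ K ↔ z ^ p ^ m = z := by
    intro z
    rw [RingHom.mem_eqLocusField, iterateFrobenius_def]
    rfl
  have hfin : Finite K := by
    have h1 : (X ^ p ^ m - X : k[X]) ≠ 0 := by
      apply FiniteField.X_pow_card_pow_sub_X_ne_zero k hm.ne' hp.one_lt
    have h2 : ((X ^ p ^ m - X : k[X]).rootSet k).Finite := Polynomial.rootSet_finite _ _
    apply Set.Finite.subset h2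
    intro z hz
    rw [Polynomial.mem_rootSet]
    refine ⟨h1, ?_⟩
    have h3 := (hK z).1 hz
    simp [h3]
  have hch : CharP K p := by
    exact (algebraMap K k).charP (algebraMap K k).injective p
  letI : Algebra (ZMod p) K := ZMod.algebra K p
  have hmap : ∀ z ∈ K, σ z ∈ K := by
    intro z hz
    rw [hK] at hz ⊢
    rw [← map_pow, hz]
  let f : K →+* K := σ.toRingHom.restrict K K hmap
  have hfc : ∀ r : ZMod p, f (algebraMap (ZMod p) K r) = algebraMap (ZMod p) K r := by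
    intro r
    exact RingHom.congr_fun (Subsingleton.elim (f.comp (algebraMap (ZMod p) K)) (algebraMap (ZMod p) K)) r
  let g : K →ₐ[ZMod p] K := { toRingHom := f, commutes' := hfc }
  have hg : Function.Bijective g := Finite.injective_iff_bijective.1 g.toRingHom.injective
  let e : K ≃ₐ[ZMod p] K := AlgEquiv.ofBijective g hg
  obtain ⟨n, hn⟩ := (FiniteField.bijective_frobeniusAlgEquivOfAlgebraic_pow (ZMod p) K).2 e
  have key : ∀ z : k, z ∈ K → σ z = z ^ p ^ n.1 := by
    intro z hz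
    have h1 : e ⟨z, hz⟩ = (⟨z, hz⟩ : K) ^ p ^ n.1 := by
      rw [← hn]
      simp only [AlgEquiv.coe_pow]
      rw [FiniteField.coe_frobeniusAlgEquivOfAlgebraic_iterate, ZMod.card]
    have h2 := congrArg (Subtype.val) h1
    exact h2
  exact ⟨n.1, key x ((hK x).2 hx), key c ((hK c).2 hc)⟩

/-- an endomorphism of `k` fixing the coefficients fixes the curve -/
theorem map_Ek {k : Type} [Field k] {a b : k} (τ : k →+* k) (ha : τ a = a) (hb : τ b = b) :
    (Ek a b).map τ = Ek a b := by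
  ext <;> simp [Ek, ha, hb]

/-- coordinatewise action of an endomorphism of `k` on the points -/
theorem exF {k : Type} [Field k] [DecidableEq k] {a b : k} (τ : k →+* k) (ha : τ a = a)
    (hb : τ b = b) : ∃ F : (Ek a b).toAffine.Point →+ (Ek a b).toAffine.Point, ∀ (x y : k)
      (h : (Ek a b).toAffine.Nonsingular x y), ∃ h' : (Ek a b).toAffine.Nonsingular (τ x) (τ y),
      F (.some x y h) = .some (τ x) (τ y) h' := by
  have hW : (Ek a b).toAffine.map τ = (Ek a b).toAffine := map_Ek τ ha hb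
  have hns : ∀ x y : k, (Ek a b).toAffine.Nonsingular x y →
      (Ek a b).toAffine.Nonsingular (τ x) (τ y) := by
    intro x y h
    have := ((Ek a b).toAffine.map_nonsingular (f := τ) τ.injective x y).2 h
    rwa [hW] at this
  have hnegY : ∀ x y : k, (Ek a b).toAffine.negY (τ x) (τ y) = τ ((Ek a b).toAffine.negY x y) := by
    intro x y
    have := (Ek a b).toAffine.map_negY τ x y
    rwa [hW] at this
  have hslope : ∀ x₁ x₂ y₁ y₂ : k, (Ek a b).toAffine.slope (τ x₁) (τ x₂) (τ y₁) (τ y₂) =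
      τ ((Ek a b).toAffine.slope x₁ x₂ y₁ y₂) := by
    intro x₁ x₂ y₁ y₂
    have := (Ek a b).toAffine.map_slope τ x₁ x₂ y₁ y₂
    rwa [hW] at this
  have haddX : ∀ x₁ x₂ l : k, (Ek a b).toAffine.addX (τ x₁) (τ x₂) (τ l) =
      τ ((Ek a b).toAffine.addX x₁ x₂ l) := by
    intro x₁ x₂ l
    have := (Ek a b).toAffine.map_addX τ x₁ x₂ l
    rwa [hW] at this
  have haddY : ∀ x₁ x₂ y₁ l : k, (Ek a b).toAffine.addY (τ x₁) (τ x₂) (τ y₁) (τ l) =
      τ ((Ek a b).toAffine.addY x₁ x₂ y₁ l) := by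
    intro x₁ x₂ y₁ l
    have := (Ek a b).toAffine.map_addY τ x₁ y₁ x₂ l
    rwa [hW] at this
  let f : (Ek a b).toAffine.Point → (Ek a b).toAffine.Point := fun P => match P with
    | .zero => .zero
    | .some x y h => .some (τ x) (τ y) (hns x y h)
  have hadd : ∀ P Q, f (P + Q) = f P + f Q := by
    rintro (_ | ⟨x₁, y₁, h₁⟩) (_ | ⟨x₂, y₂, h₂⟩)
    any_goals rfl
    by_cases hxy : x₁ = x₂ ∧ y₁ = (Ek a b).toAffine.negY x₂ y₂
    · rw [WeierstrassCurve.Affine.Point.add_of_Y_eq hxy.left hxy.right]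
      have h3 := WeierstrassCurve.Affine.Point.add_of_Y_eq (h₁ := hns _ _ h₁) (h₂ := hns _ _ h₂)
        (congrArg τ hxy.left) (by rw [hxy.right, hnegY])
      exact h3.symm
    · rw [WeierstrassCurve.Affine.Point.add_some hxy]
      have hxy' : ¬ (τ x₁ = τ x₂ ∧ τ y₁ = (Ek a b).toAffine.negY (τ x₂) (τ y₂)) := by
        rintro ⟨h3, h4⟩
        rw [hnegY] at h4
        exact hxy ⟨τ.injective h3, τ.injective h4⟩
      have h3 := WeierstrassCurve.Affine.Point.add_some hxy' (h₁ := hns _ _ h₁) (h₂ := hns _ _ h₂)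
      change _ = WeierstrassCurve.Affine.Point.some _ _ _ + WeierstrassCurve.Affine.Point.some _ _ _
      rw [h3]
      change WeierstrassCurve.Affine.Point.some _ _ _ = _
      rw [WeierstrassCurve.Affine.Point.some.injEq]
      constructor
      · rw [hslope, haddX]
      · rw [hslope, haddY]
  refine ⟨⟨⟨f, rfl⟩, hadd⟩, fun x y h => ⟨hns x y h, rfl⟩⟩

/-- values of polynomials -/
theorem evk_alg {k : Type} [Field k] (P : k[X]) (x : k) :
    (algebraMap k[X] (RatFunc k) P).denom.eval x ≠ 0 ∧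
      evk (algebraMap k[X] (RatFunc k) P) x = P.eval x := by
  rw [evk, RatFunc.num_algebraMap, RatFunc.denom_algebraMap]
  simp

/-- composition of a polynomial -/
theorem rcomp_alg {k : Type} [Field k] (P : k[X]) (R : RatFunc k) :
    rcomp (algebraMap k[X] (RatFunc k) P) R = aeval R P := by
  rw [rcomp, RatFunc.num_algebraMap, RatFunc.denom_algebraMap]
  simp

/-- iterates of Frobenius on a point -/
theorem itF {p : ℕ} {k : Type} [Field k] [DecidableEq k] {a b : k}
    (F : (Ek a b).toAffine.Point → (Ek a b).toAffine.Point)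
    (hF : ∀ (x y : k) (h : (Ek a b).toAffine.Nonsingular x y),
      ∃ h' : (Ek a b).toAffine.Nonsingular (x ^ p) (y ^ p), F (.some x y h) = .some (x ^ p) (y ^ p) h')
    (x y : k) (h : (Ek a b).toAffine.Nonsingular x y) (i : ℕ) :
    ∃ h' : (Ek a b).toAffine.Nonsingular (x ^ p ^ i) (y ^ p ^ i),
      F^[i] (.some x y h) = .some (x ^ p ^ i) (y ^ p ^ i) h' := by
  induction i with
  | zero =>
    have e1 : x ^ p ^ 0 = x := by simp
    have e2 : y ^ p ^ 0 = y := by simp
    rw [e1, e2]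
    exact ⟨h, rfl⟩
  | succ i ih =>
    obtain ⟨h1, h2⟩ := ih
    obtain ⟨h3, h4⟩ := hF _ _ h1
    rw [Function.iterate_succ_apply', h2, h4]
    have e1 : (x ^ p ^ i) ^ p = x ^ p ^ (i + 1) := by rw [← pow_mul, ← pow_succ]
    have e2 : (y ^ p ^ i) ^ p = y ^ p ^ (i + 1) := by rw [← pow_mul, ← pow_succ]
    have key : ∀ (x x' y y' : k) (_ : x = x') (_ : y = y')
        (h : (Ek a b).toAffine.Nonsingular x y), ∃ h' : (Ek a b).toAffine.Nonsingular x' y',
        WeierstrassCurve.Affine.Point.some x y h = WeierstrassCurve.Affine.Point.some x' y' h' := by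
      rintro x x' y y' rfl rfl h
      exact ⟨h, rfl⟩
    exact key _ _ _ _ e1 e2 h3

end LEG_

open LEG_ in
/-- LEG -/
theorem p_LEG (h1 : T_SPH) (h2 : T_TWO) (h3 : SSA.T_API) (h4 : SSA.T_HC) (_h5 : SSA.T_FRB) (h6 : SSA.T_XPM)
    (h7 : SSP.T_DGN) (h8 : SSA.T_RFG) : T_LEG := by
  intro p _ k _ _ _ hp5 a b hH hN c σ hc hcp hσc l hl hl2 hlp x₀ n hden hden' hn0 hnl hσx
  classical
  have hp : p.Prime := Fact.out
  have hodd : Odd p := hp.odd_of_ne_two (by omega)
  set A : k := zc p k a with hA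
  set B : k := zc p k b with hB
  have hAp : A ^ p = A := by rw [hA, ← map_pow, ZMod.pow_card]
  have hBp : B ^ p = B := by rw [hB, ← map_pow, ZMod.pow_card]
  clear_value A B
  have hCA : (RatFunc.C A : RatFunc k) ^ p = RatFunc.C A := by rw [← map_pow, hAp]
  have hCB : (RatFunc.C B : RatFunc k) ^ p = RatFunc.C B := by rw [← map_pow, hBp]
  have hlk : (l : k) ≠ 0 := by
    intro h
    rw [CharP.cast_eq_zero_iff k p l, Nat.prime_dvd_prime_iff_eq hp hl] at h
    exact hlp h.symm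
  have hldp : ¬ l ∣ p := by
    rw [Nat.prime_dvd_prime_iff_eq hl hp]
    exact hlp
  have hf0 := h2 k A B hH l (hl.odd_of_ne_two hl2) hlk x₀ hden
  obtain ⟨y₀, hy₀⟩ := IsAlgClosed.exists_pow_nat_eq (x₀ ^ 3 + A * x₀ + B) (n := 2) two_pos
  have hy0 : y₀ ≠ 0 := by
    rintro rfl
    apply hf0
    rw [← hy₀]
    ring
  obtain ⟨ψ, hψ⟩ := h1 k A B x₀ y₀ hH hy₀ hy0
  obtain ⟨hff, ⟨hx0, hy0'⟩, hmk, hpt, hneg, hcase, hadd, hdbl, htor⟩ := h3 k A B hH
  have key : ∀ (x x' y y' : k) (_ : x = x') (_ : y = y')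
      (h : (Ek A B).toAffine.Nonsingular x y), ∃ h' : (Ek A B).toAffine.Nonsingular x' y',
      WeierstrassCurve.Affine.Point.some x y h = WeierstrassCurve.Affine.Point.some x' y' h' := by
    rintro x x' y y' rfl rfl h
    exact ⟨h, rfl⟩
  -- specialization of points given by polynomials
  have hpol : ∀ (P : MM A B) (U V : k[X]), P ≠ 0 → xr P = algebraMap k[X] (RatFunc k) U →
      yr P = algebraMap k[X] (RatFunc k) V → ∃ h : (Ek A B).toAffine.Nonsingular (U.eval x₀)
        (y₀ * V.eval x₀), ψ P = .some _ _ h := by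
    intro P U V hP hU hV
    have e1 := (hψ P hP).2
    rw [hU, hV] at e1
    obtain ⟨-, h, e2⟩ := e1 (evk_alg U x₀).1
    rw [e2]
    exact key _ _ _ _ (evk_alg U x₀).2 (by rw [(evk_alg V x₀).2]) h
  have ffalg : ff A B = algebraMap k[X] (RatFunc k) (fp A B) := by
    rw [ff, fp]
    simp
  -- the identity
  have e1 : ff A B * (1 : RatFunc k) ^ 2 = ev A B RatFunc.X := by
    rw [ff, ev]
    ring
  obtain ⟨i1, i2, i3⟩ := hmk _ _ e1
  have hid : ∃ h : (Ek A B).toAffine.Nonsingular x₀ y₀, ψ (idM A B) = .some x₀ y₀ h := by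
    obtain ⟨h, e⟩ := hpol (idM A B) X 1 i1 (by rw [RatFunc.algebraMap_X]; exact i2)
      (by rw [map_one]; exact i3)
    rw [e]
    exact key _ _ _ _ (by simp) (by simp) h
  obtain ⟨hP, hψid⟩ := hid
  -- Frobenius
  have hchar : CharP (RatFunc k) p := charP_of_injective_algebraMap
      (algebraMap k (RatFunc k)).injective p
  obtain ⟨m, hm⟩ := hodd
  have hm2 : (p - 1) / 2 = m := by omega
  have e3 : ff A B ^ p = ev A B (RatFunc.X ^ p) := by
    rw [ff, ev, add_pow_char, add_pow_char, mul_pow, hCA, hCB]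
    ring
  have e4 : ff A B * (ff A B ^ m) ^ 2 = ev A B (RatFunc.X ^ p) := by
    rw [← e3, hm]
    ring
  obtain ⟨j1, j2, j3⟩ := hmk _ _ e4
  have hpi : piM p A B = mkP A B (RatFunc.X ^ p) (ff A B ^ m) := by
    rw [piM, hm2]
  have e5 : rcomp (RatFunc.X ^ p : RatFunc k) (RatFunc.X ^ p) = (RatFunc.X ^ p) ^ p := by
    have : (RatFunc.X ^ p : RatFunc k) = algebraMap k[X] (RatFunc k) (X ^ p) := by simp
    conv_lhs => rw [this, rcomp_alg]
    simp
  have e6 : rcomp (ff A B ^ m) (RatFunc.X ^ p) = (ff A B ^ p) ^ m := by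
    have : ff A B ^ m = algebraMap k[X] (RatFunc k) (fp A B ^ m) := by rw [ffalg, map_pow]
    rw [this, rcomp_alg, map_pow, e3]
    congr 1
    rw [fp, ev]
    simp [RatFunc.algebraMap_eq_C]
  have e7 : ff A B * ((ff A B ^ p) ^ m * ff A B ^ m) ^ 2 = ev A B ((RatFunc.X ^ p) ^ p) := by
    have h8 : ev A B ((RatFunc.X ^ p) ^ p) = (ev A B (RatFunc.X ^ p)) ^ p := by
      rw [ev, ev, add_pow_char, add_pow_char, mul_pow, hCA, hCB]
      ring
    rw [h8, ← e3]
    have h9 : p * p = 1 + 2 * (p * m + m) := by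
      have : (p : ℤ) * p = 1 + 2 * (p * m + m) := by
        rw [hm]
        push_cast
        ring
      exact_mod_cast this
    rw [← pow_mul, ← pow_mul, h9, ← pow_add, ← pow_mul, ← pow_succ']
    congr 1
    ring
  obtain ⟨f1, f2, f3⟩ := hmk _ _ e7
  have hfr : frb p (piM p A B) = mkP A B ((RatFunc.X ^ p) ^ p) ((ff A B ^ p) ^ m * ff A B ^ m) := by
    rw [frb, if_neg (by rw [hpi]; exact j1), hpi, j2, j3, e5, e6, hm2]
  let τ : k →+* k := frobenius k p
  have hτ : ∀ z, τ z = z ^ p := fun z => frobenius_def p z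
  obtain ⟨F, hF⟩ := exF τ (a := A) (b := B) (by rw [hτ, hAp]) (by rw [hτ, hBp])
  set P : (Ek A B).toAffine.Point := ψ (idM A B) with hPdef
  have hPne : P ≠ 0 := by
    rw [hψid]
    exact WeierstrassCurve.Affine.Point.some_ne_zero _
  have hlP : l • P = 0 := by
    rw [hPdef, ← map_nsmul]
    exact (hψ _ ((h7 k A B hH).2.1 l hl.pos)).1 hden
  have hitF : ∀ i : ℕ, ∃ h' : (Ek A B).toAffine.Nonsingular (x₀ ^ p ^ i) (y₀ ^ p ^ i),
      F^[i] P = .some (x₀ ^ p ^ i) (y₀ ^ p ^ i) h' := by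
    intro i
    rw [hψid]
    exact itF F hF x₀ y₀ hP i
  have hFF : ψ (frb p (piM p A B)) = F (F P) := by
    rw [hfr]
    obtain ⟨h, e⟩ := hpol _ ((X ^ p) ^ p) (((fp A B) ^ p) ^ m * (fp A B) ^ m) f1 (by rw [f2]; simp)
      (by rw [f3, ffalg]; simp)
    rw [e]
    obtain ⟨h', e'⟩ := hitF 2
    have e'' : F^[2] P = F (F P) := rfl
    rw [← e'', e']
    obtain ⟨h₁, h₂⟩ := key _ (x₀ ^ p ^ 2) _ (y₀ ^ p ^ 2) (by simp [← pow_mul, pow_two]) (by
      have h5 : (fp A B).eval x₀ = y₀ ^ 2 := by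
        rw [hy₀, fp]
        simp
      rw [eval_mul, eval_pow, eval_pow, eval_pow, h5, ← pow_mul, ← pow_mul, ← pow_mul, ← pow_add,
        ← pow_succ']
      congr 1
      have : ((2 * p * m + 2 * m + 1 : ℕ) : ℤ) = ((p ^ 2 : ℕ) : ℤ) := by
        rw [hm]
        push_cast
        ring
      have := Int.natCast_inj.1 this
      rw [← this]
      ring) h
    rw [h₂]
  -- Hamilton-Cayley
  have hZ : frb p (piM p A B) + (p : ℤ) • idM A B + (frb p (piM p A B) + (p : ℤ) • idM A B) = 0 := by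
    have g1 := h4 p k hp5 a b (by rw [← hA, ← hB]; exact hH)
    rw [← hA, ← hB, hN, sub_self, zero_zsmul, sub_zero] at g1
    set Z := frb p (piM p A B) + (p : ℤ) • idM A B with hZdef
    by_cases hZ0 : Z = 0
    · rw [hZ0, add_zero]
    · apply htor
      apply (h6 k A B hH).2.2 Z hZ0
      exact ((h8 k).2.1 (xr Z)).1 g1
  have hW : F (F P) + (p : ℤ) • P + (F (F P) + (p : ℤ) • P) = 0 := by
    have g2 := congrArg ψ hZ
    rw [map_add, map_add, map_zsmul, map_zero, hFF] at g2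
    exact g2
  have hFFP : F (F P) = -((p : ℤ) • P) := by
    set Q := F (F P) + (p : ℤ) • P with hQ
    have g3 : l • Q = 0 := by
      have g0 : l • ((p : ℤ) • P) = 0 := by rw [smul_comm, hlP, smul_zero]
      rw [hQ, nsmul_add, ← map_nsmul, ← map_nsmul, hlP, map_zero, map_zero, zero_add, g0]
    obtain ⟨u, hu⟩ := hl.odd_of_ne_two hl2
    have g4 : Q = 0 := by
      have : l • Q = u • (Q + Q) + Q := by
        rw [hu, add_smul, one_smul, mul_comm, mul_smul, two_smul]
      rw [g3, hW, smul_zero, zero_add] at this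
      exact this.symm
    exact eq_neg_of_add_eq_zero_left g4
  -- finite field
  have hF2 : ∀ u : ℕ, F^[2 * u] P = ((-(p : ℤ)) ^ u) • P := by
    intro u
    induction u with
    | zero => simp
    | succ u ih =>
      rw [show 2 * (u + 1) = (2 * u + 1) + 1 from by ring, Function.iterate_succ_apply',
        Function.iterate_succ_apply', ih, map_zsmul, map_zsmul, hFFP, pow_succ, mul_smul, neg_smul]
  have hfer : ((-(p : ℤ)) ^ (l - 1)) • P = P := by
    have g5 : (l : ℤ) ∣ (-(p : ℤ)) ^ (l - 1) - 1 := by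
      have : Fact l.Prime := ⟨hl⟩
      rw [← ZMod.intCast_zmod_eq_zero_iff_dvd]
      push_cast
      rw [sub_eq_zero]
      apply ZMod.pow_card_sub_one_eq_one
      rw [neg_ne_zero]
      intro h
      exact hldp ((ZMod.natCast_eq_zero_iff p l).1 h)
    obtain ⟨v, hv⟩ := g5
    have g6 : (-(p : ℤ)) ^ (l - 1) = v * l + 1 := by linarith
    rw [g6, add_smul, one_smul, mul_smul, natCast_zsmul, hlP, smul_zero, zero_add]
  have hl3 : 0 < 2 * (l - 1) := by
    have := hl.two_le
    omega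
  have hx : x₀ ^ p ^ (2 * (l - 1)) = x₀ := by
    obtain ⟨h', e'⟩ := hitF (2 * (l - 1))
    rw [hF2, hfer, hψid, WeierstrassCurve.Affine.Point.some.injEq] at e'
    exact e'.1.symm
  have hcs : ∀ s : ℕ, c ^ p ^ s = (-1) ^ s * c := by
    intro s
    induction s with
    | zero => simp
    | succ s ih =>
      have hop : Odd p := hp.odd_of_ne_two (by omega)
      rw [pow_succ p s, pow_mul, ih, mul_pow, ← pow_mul, mul_comm s p, pow_mul, hop.neg_one_pow,
        hcp, pow_succ]
      ring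
  have hcc : c ^ p ^ (2 * (l - 1)) = c := by
    rw [hcs, pow_mul]
    simp
  obtain ⟨s, hs1, hs2⟩ := sig p k σ x₀ c _ hl3 hx hcc
  have hsodd : Odd s := by
    by_contra h
    rw [Nat.not_odd_iff_even] at h
    rw [hcs, h.neg_one_pow, one_mul, hσc] at hs2
    have g7 : (2 : k) * c = 0 := by
      rw [two_mul]
      nth_rewrite 1 [← hs2]
      ring
    exact mul_ne_zero hH.two hc g7
  -- the point n P
  have hnP : ∃ (y : k) (h : (Ek A B).toAffine.Nonsingular (x₀ ^ p ^ s) y), n • P = .some _ _ h := by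
    obtain ⟨-, h, e⟩ := (hψ _ ((h7 k A B hH).2.1 n hn0)).2 hden'
    rw [map_nsmul] at e
    rw [← hPdef] at e
    rw [e]
    obtain ⟨h₁, h₂⟩ := key _ (x₀ ^ p ^ s) _ _ (by rw [← hs1, hσx]) rfl h
    exact ⟨_, h₁, h₂⟩
  obtain ⟨y, hy, hnPy⟩ := hnP
  obtain ⟨h', e'⟩ := hitF s
  have hfin := (WeierstrassCurve.Affine.Point.X_eq_iff (h₁ := h') (h₂ := hy)).1 rfl
  rw [← e', ← hnPy] at hfin
  rcases hfin with h | h
  · exact grp F P l p hl hldp hPne hlP hFFP s hsodd n (by rw [h, natCast_zsmul])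
  · exact grp F P l p hl hldp hPne hlP hFFP s hsodd (-n) (by rw [h, neg_smul, natCast_zsmul])

end SSL
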