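import Pool.Agent.SSF.Targets
import Pool.Agent.SSM.Targets
import Pool.Agent.SSW.Targets

/-!
# MP_d74fca_nt, project SSL (helper22): supersingular primes `p` such that every prime of a given
finite set `L` splits in `ℚ(√-p)` (for `l ≡ 3 mod 4`: `p` is inert in `ℚ(√-l)`, i.e. common
supersingular primes with a CM curve)
-/

set_option autoImplicit false

open Polynomial

namespace SSL

open SSA SSP

noncomputable section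

/-- `-p` is a square modulo all elements of `L` -/
def Sq (L : Finset ℕ) (p : ℕ) : Prop := ∀ l ∈ L, ∃ x : ZMod l, x ^ 2 = -(p : ZMod l)

/-- the product of the elements of `L` -/
def pr (L : Finset ℕ) : ℕ := ∏ l ∈ L, l

/-! ## (W) Primes in progressions in short intervals -/

/-- PAP -/
def T_PAP : Prop := ∃ κ : ℝ, 0 < κ ∧ ∀ m u : ℕ, 0 < m → u.Coprime m → ∀ r : ℝ, 1 < r →
  ∃ X₀ : ℝ, 2 ≤ X₀ ∧ ∀ X : ℝ, X₀ ≤ X → κ * (r - 1) * X / (m.totient * Real.log X) ≤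
    (((Finset.Icc 1 ⌊r * X⌋₊).filter
      fun p : ℕ => p.Prime ∧ X < (p : ℝ) ∧ p ≡ u [MOD m]).card : ℝ)

/-! ## (S) Sign: the modular function part for `D = pr L * a * c` -/

/-- OUTL -/
def T_OUTL : Prop := ∀ r s : ℤ, s ≠ 0 → r ≠ 1728 * s → ∀ L : Finset ℕ,
  (∀ l ∈ L, l.Prime ∧ 5 ≤ l) → ∃ ρ₁ ρ₂ : ℝ, 1 ≤ ρ₁ ∧ ρ₁ < ρ₂ ∧ ∀ ε : ℝ, 0 < ε → ∃ D₀ : ℕ,
  ∀ a c D : ℕ, a.Prime → c.Prime → D₀ ≤ a → ρ₁ * a < c → (c : ℝ) < ρ₂ * a → D = pr L * a * c →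
  24 ∣ D + 1 → ∃ Q : ℤ[X], Q.Monic ∧ 0 < Q.natDegree ∧
  (∀ x : ℂ, aeval x Q = 0 → x ≠ 0 ∧ x ≠ 1728 ∧ ∃ t : ℂ, SSM.CMt D t ∧ SSM.J t = x) ∧
  hv Q r s ≠ 0 ∧ |((hv Q r s : ℤ) : ℝ)| ≤ Real.exp ((D : ℝ) ^ (1 / 2 + ε)) ∧
  ((∃ l : ℕ, l.Prime ∧ l ∣ D ∧ (l : ℤ) ∣ hv Q r s) ∨
    ∃ p : ℕ, p.Prime ∧ p ≠ 2 ∧ (∀ x : ZMod p, x ^ 2 ≠ -(D : ZMod p)) ∧
      Odd (padicValInt p (hv Q r s)))

/-! ## (C) Counting -/

/-- the hypotheses of the counting part: `S` the set of supersingular primes with `Sq L` -/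
def DatL (S : Set ℕ) (K : ℕ → ℕ → Prop) (L P : Finset ℕ) (ρ₁ ρ₂ : ℝ) : Prop :=
  SSN.OddPr P ∧ SSN.OddPr L ∧ Disjoint P L ∧ 1 ≤ ρ₁ ∧ ρ₁ < ρ₂ ∧
  (∀ p ∈ S, p.Prime ∧ p ≠ 2 ∧ p ∉ L) ∧ (∀ p ∈ S, ∀ D : ℕ, K D p → ¬ p ∣ D + 1) ∧
  (∀ ε : ℝ, 0 < ε → ∃ D₀ : ℕ, ∀ a c : ℕ, a.Prime → c.Prime → D₀ ≤ a → ρ₁ * a < c →
    (c : ℝ) < ρ₂ * a → pr L ∣ a + 1 → pr L ∣ c + 1 → SSN.MM P ∣ pr L * a * c + 1 →
    a ∈ S ∨ c ∈ S ∨ ∃ p ∈ S, ¬ p ∣ pr L * a * c ∧ K (pr L * a * c) p ∧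
      (p : ℝ) ≤ Real.exp ((a : ℝ) ^ (1 + ε))) ∧
  ∀ p ∈ S, SSC.Bin p {D : ℕ | Squarefree D ∧ K D p}

/-- CNTL: the counting theorem -/
def T_CNTL : Prop := ∀ (S : Set ℕ) (K : ℕ → ℕ → Prop) (L P : Finset ℕ) (ρ₁ ρ₂ : ℝ),
  DatL S K L P ρ₁ ρ₂ → ∀ ε : ℝ, 0 < ε → ∀ x₀ : ℝ, ∃ x : ℝ, x₀ ≤ x ∧
    (Real.log x) ^ (2 - ε) ≤ SSC.NS S x

/-! ## (G) Geometry: `-p` is a square modulo the prime divisors of a killed `D` -/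

/-- numerical value of a rational function -/
def evk {k : Type} [Field k] (R : RatFunc k) (x : k) : k := R.num.eval x / R.denom.eval x

/-- torsion data: the common poles of `xr α` and `xr (l • id)` are the multiples of one of them -/
def Tor {k : Type} [Field k] {a b : k} (α : MM a b) (l : ℕ) : Prop := ∃ x₀ : k,
  (xr α).denom.eval x₀ = 0 ∧ (xr (l • idM a b)).denom.eval x₀ = 0 ∧
  ∀ y : k, (xr α).denom.eval y = 0 → (xr (l • idM a b)).denom.eval y = 0 →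
    ∃ n : ℕ, 0 < n ∧ n < l ∧ (xr (n • idM a b)).denom.eval x₀ ≠ 0 ∧ y = evk (xr (n • idM a b)) x₀

/-- `CME` with torsion data -/
def CMX (k : Type) [Field k] (j : k) (D : ℕ) : Prop :=
  j ≠ 0 ∧ j ≠ 1728 ∧ ∃ c : k, c ^ 2 = -(D : k) ∧ ∃ α : MM (aj j) (bj j),
    DD α = RatFunc.C c ∧ (xr α).denom.natDegree < (xr α).num.natDegree ∧
    (∀ x : ℕ, rcomp (xr (x • idM (aj j) (bj j) + α)) (xr (x • idM (aj j) (bj j) - α)) =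
      xr ((x ^ 2 + D) • idM (aj j) (bj j))) ∧
    ∀ l : ℕ, l.Prime → l ≠ 2 → l ∣ D → ¬ l ^ 2 ∣ D → Tor α l

/-- SUJ: `℘` is surjective -/
def T_SUJ : Prop := ∀ (L : PeriodPair) (y : ℂ), ∃ z : ℂ, z ∉ L.lattice ∧ L.weierstrassP z = y

/-- KER: values and poles of `xr P` at arbitrary points -/
def T_KER : Prop := ∀ (L : PeriodPair), Hyp (SSW.aw L) (SSW.bw L) →
  ∀ (P : MM (SSW.aw L) (SSW.bw L)) (m : ℂ), SSW.Rep L P m → ∀ z : ℂ, z ∉ L.lattice →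
  ((xr P).denom.eval (L.weierstrassP z) = 0 ↔ m * z ∈ L.lattice) ∧
  (m * z ∉ L.lattice → L.weierstrassP (m * z) = evk (xr P) (L.weierstrassP z))

/-- LIN: the common kernel of `c` and `l` is cyclic -/
def T_LIN : Prop := ∀ (L : PeriodPair) (c : ℂ) (D l : ℕ), c ^ 2 = -(D : ℂ) →
  (∀ w ∈ L.lattice, c * w ∈ L.lattice) → l.Prime → l ∣ D → ¬ l ^ 2 ∣ D →
  ∃ z₀ : ℂ, z₀ ∉ L.lattice ∧ c * z₀ ∈ L.lattice ∧ l * z₀ ∈ L.lattice ∧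
  ∀ z : ℂ, z ∉ L.lattice → c * z ∈ L.lattice → l * z ∈ L.lattice →
    ∃ n : ℕ, 0 < n ∧ n < l ∧ n * z₀ ∉ L.lattice ∧ z - n * z₀ ∈ L.lattice

/-- CMW: complex multiplication with torsion data on the model of the lattice -/
def T_CMW : Prop := ∀ (L : PeriodPair), Hyp (SSW.aw L) (SSW.bw L) → ∀ (c : ℂ) (D : ℕ), 0 < D →
  c ^ 2 = -(D : ℂ) → (∀ w ∈ L.lattice, c * w ∈ L.lattice) →
  ∃ α : MM (SSW.aw L) (SSW.bw L), DD α = RatFunc.C c ∧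
    (xr α).denom.natDegree < (xr α).num.natDegree ∧
    (∀ x : ℕ, rcomp (xr (x • idM (SSW.aw L) (SSW.bw L) + α))
      (xr (x • idM (SSW.aw L) (SSW.bw L) - α)) = xr ((x ^ 2 + D) • idM (SSW.aw L) (SSW.bw L))) ∧
    ∀ l : ℕ, l.Prime → l ≠ 2 → l ∣ D → ¬ l ^ 2 ∣ D → Tor α l

/-- SCX: scaling of the model -/
def T_SCX : Prop := ∀ (k : Type) [Field k] (a b v : k), Hyp a b → v ≠ 0 →
  ∀ (c : k) (D : ℕ) (α : MM a b), DD α = RatFunc.C c →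
  (xr α).denom.natDegree < (xr α).num.natDegree →
  (∀ x : ℕ, rcomp (xr (x • idM a b + α)) (xr (x • idM a b - α)) = xr ((x ^ 2 + D) • idM a b)) →
  (∀ l : ℕ, l.Prime → l ≠ 2 → l ∣ D → ¬ l ^ 2 ∣ D → Tor α l) →
  ∃ α' : MM (v ^ 2 * a) (v ^ 3 * b), DD α' = RatFunc.C c ∧
    (xr α').denom.natDegree < (xr α').num.natDegree ∧
    (∀ x : ℕ, rcomp (xr (x • idM (v ^ 2 * a) (v ^ 3 * b) + α'))
      (xr (x • idM (v ^ 2 * a) (v ^ 3 * b) - α')) =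
        xr ((x ^ 2 + D) • idM (v ^ 2 * a) (v ^ 3 * b))) ∧
    ∀ l : ℕ, l.Prime → l ≠ 2 → l ∣ D → ¬ l ^ 2 ∣ D → Tor α' l

/-- CMX: complex multiplication with torsion data in terms of `j` -/
def T_CMX : Prop := ∀ (t : UpperHalfPlane) (D : ℕ) (al be ga : ℤ), 0 < D →
  al * ga - be ^ 2 = D → (al : ℂ) * (t : ℂ) ^ 2 + 2 * be * t + ga = 0 → SSW.jt t ≠ 0 →
  SSW.jt t ≠ 1728 → CMX ℂ (SSW.jt t) D

/-- TRY: transport of `CMX` along an isomorphism of fields -/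
def T_TRY : Prop := ∀ (k k' : Type) [Field k] [Field k'] (σ : k ≃+* k') (j : k) (D : ℕ),
  (2 : k) ≠ 0 → (3 : k) ≠ 0 → CMX k j D → CMX k' (σ j) D

/-- the curve `y^2 = x^3 + a x + b` -/
def Ek {k : Type} [Field k] (a b : k) : WeierstrassCurve k := ⟨0, 0, 0, a, b⟩

/-- SPH: specialization at a point `(x₀, y₀)`, `y₀ ≠ 0`, of the curve -/
def T_SPH : Prop := ∀ (k : Type) [Field k] [DecidableEq k] (a b x₀ y₀ : k), Hyp a b →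
  y₀ ^ 2 = x₀ ^ 3 + a * x₀ + b → y₀ ≠ 0 → ∃ ψ : MM a b →+ (Ek a b).toAffine.Point,
  ∀ P : MM a b, P ≠ 0 → ((xr P).denom.eval x₀ = 0 → ψ P = 0) ∧
    ((xr P).denom.eval x₀ ≠ 0 → (yr P).denom.eval x₀ ≠ 0 ∧
      ∃ h : (Ek a b).toAffine.Nonsingular (evk (xr P) x₀) (y₀ * evk (yr P) x₀),
        ψ P = WeierstrassCurve.Affine.Point.some _ _ h)

/-- TWO: a pole of `xr (l • id)`, `l` odd, is no zero of `x^3 + a x + b` -/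
def T_TWO : Prop := ∀ (k : Type) [Field k] [IsAlgClosed k] (a b : k), Hyp a b → ∀ l : ℕ, Odd l →
  (l : k) ≠ 0 → ∀ x₀ : k, (xr (l • idM a b)).denom.eval x₀ = 0 → x₀ ^ 3 + a * x₀ + b ≠ 0

/-- INF: `n • id` fixes infinity; degree of the denominator -/
def T_INF : Prop := ∀ (k : Type) [Field k] [IsAlgClosed k] (a b : k), Hyp a b → ∀ n : ℕ,
  (n : k) ≠ 0 → (xr (n • idM a b)).num.natDegree = n ^ 2 ∧
    (xr (n • idM a b)).denom.natDegree = n ^ 2 - 1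

/-- NRD: reduction at torsion points -/
def T_NRD : Prop := ∀ (p : ℕ) [Fact p.Prime] (P : Plc p), 5 ≤ p → ∀ (a b : PadicAlgCl p),
  ‖a‖ ≤ 1 → ‖b‖ ≤ 1 → 4 * P.red a ^ 3 + 27 * P.red b ^ 2 ≠ 0 → ∀ l : ℕ, l.Prime → l ≠ 2 → l ≠ p →
  ∀ x₀ : PadicAlgCl p, (xr (l • idM a b)).denom.eval x₀ = 0 →
  ‖x₀‖ ≤ 1 ∧ (xr (l • idM (P.red a) (P.red b))).denom.eval (P.red x₀) = 0 ∧
  ∀ n : ℕ, 0 < n → n < l → (xr (n • idM (P.red a) (P.red b))).denom.eval (P.red x₀) ≠ 0 ∧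
    P.red (evk (xr (n • idM a b)) x₀) = evk (xr (n • idM (P.red a) (P.red b))) (P.red x₀)

/-- INX: the inert case with torsion data -/
def T_INX : Prop := ∀ (p : ℕ) [Fact p.Prime] (P : Plc p) (D : ℕ), 5 ≤ p → 2 ≤ D →
  (∀ x : ZMod p, x ^ 2 ≠ -(D : ZMod p)) →
  ∀ (Q : ℤ[X]) (r s : ℤ), Q.Monic → ¬ (p : ℤ) ∣ s → ¬ (p : ℤ) ∣ r → ¬ (p : ℤ) ∣ r - 1728 * s →
  hv Q r s ≠ 0 → Odd (padicValInt p (hv Q r s)) →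
  (∀ j₁ : PadicAlgCl p, aeval j₁ Q = 0 → CMX (PadicAlgCl p) j₁ D) →
  ∃ (c : P.k) (σ : P.k ≃+* P.k), c ≠ 0 ∧ c ^ 2 = -(D : P.k) ∧ σ c = -c ∧
    ∀ l : ℕ, l.Prime → l ≠ 2 → l ∣ D → ¬ l ^ 2 ∣ D → ∃ (x₀ : P.k) (n : ℕ),
      (xr (l • idM (zc p P.k (aj ((r : ZMod p) / s))) (zc p P.k (bj ((r : ZMod p) / s))))).denom.eval
        x₀ = 0 ∧
      (xr (n • idM (zc p P.k (aj ((r : ZMod p) / s))) (zc p P.k (bj ((r : ZMod p) / s))))).denom.eval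
        x₀ ≠ 0 ∧
      0 < n ∧ n < l ∧ σ x₀ =
        evk (xr (n • idM (zc p P.k (aj ((r : ZMod p) / s))) (zc p P.k (bj ((r : ZMod p) / s))))) x₀

/-- LEG: the Legendre symbol, characteristic `p` -/
def T_LEG : Prop := ∀ (p : ℕ) [Fact p.Prime] (k : Type) [Field k] [CharP k p] [IsAlgClosed k],
  5 ≤ p → ∀ a b : ZMod p, Hyp (zc p k a) (zc p k b) → Naff p a b = p →
  ∀ (c : k) (σ : k ≃+* k), c ≠ 0 → c ^ p = -c → σ c = -c → ∀ l : ℕ, l.Prime → l ≠ 2 → l ≠ p →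
  ∀ (x₀ : k) (n : ℕ), (xr (l • idM (zc p k a) (zc p k b))).denom.eval x₀ = 0 →
  (xr (n • idM (zc p k a) (zc p k b))).denom.eval x₀ ≠ 0 → 0 < n → n < l →
  σ x₀ = evk (xr (n • idM (zc p k a) (zc p k b))) x₀ → ∃ x : ZMod l, x ^ 2 = -(p : ZMod l)

/-- KIX: the arithmetic input in final form, inert primes -/
def T_KIX : Prop := ∀ (p : ℕ) [Fact p.Prime] (D : ℕ), 5 ≤ p → 2 ≤ D → Squarefree D →
  (∀ x : ZMod p, x ^ 2 ≠ -(D : ZMod p)) →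
  ∀ (Q : ℤ[X]) (r s : ℤ), Q.Monic → ¬ (p : ℤ) ∣ s → ¬ (p : ℤ) ∣ r → ¬ (p : ℤ) ∣ r - 1728 * s →
  hv Q r s ≠ 0 → Odd (padicValInt p (hv Q r s)) →
  (∀ z : ℂ, aeval z Q = 0 → CMX ℂ z D) →
  ∀ l : ℕ, l.Prime → l ≠ 2 → l ∣ D → ∃ x : ZMod l, x ^ 2 = -(p : ZMod l)

/-! ## Assembly -/

/-- the supersingular primes with `Sq L` -/
def SL (A B : ℤ) (L : Finset ℕ) : Set ℕ := {p | p ∈ SSF.SS A B ∧ Sq L p}

/-- DATL: the hypotheses of the counting part hold -/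
def T_DATL : Prop := ∀ A B : ℤ, A ≠ 0 → B ≠ 0 → 4 * A ^ 3 + 27 * B ^ 2 ≠ 0 → ∀ L : Finset ℕ,
  (∀ l ∈ L, l.Prime ∧ 5 ≤ l ∧ ¬ (l : ℤ) ∣ A * B ∧ l ∉ SSF.SS A B) →
  ∃ (P : Finset ℕ) (ρ₁ ρ₂ : ℝ), DatL (SL A B L) (SSF.KK A B) L P ρ₁ ρ₂

end

end SSL
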