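import Mathlib
import Pool.Agent.SSL.Targets

/-!
LIN: the common kernel of `c` and `l` is cyclic
-/

set_option autoImplicit false

namespace SSL

namespace LIN_

/-- integer coordinates -/
theorem ind (L : PeriodPair) {m n m' n' : ℤ}
    (h : (m : ℂ) * L.ω₁ + n * L.ω₂ = m' * L.ω₁ + n' * L.ω₂) : m = m' ∧ n = n' := by
  have := LinearIndependent.pair_iff.mp L.indep ((m : ℝ) - m') ((n : ℝ) - n')
    (by simp; linear_combination h)
  simp only [sub_eq_zero] at this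
  exact_mod_cast this

/-- lattice points divided by `l` -/
theorem mem_div (L : PeriodPair) {l : ℕ} (hl : 0 < l) (a b : ℤ) :
    ((a : ℂ) * L.ω₁ + b * L.ω₂) / l ∈ L.lattice ↔ (l : ℤ) ∣ a ∧ (l : ℤ) ∣ b := by
  have hl' : (l : ℂ) ≠ 0 := by exact_mod_cast hl.ne'
  constructor
  · intro h
    obtain ⟨m, n, e⟩ := PeriodPair.mem_lattice.mp h
    have h1 : (a : ℂ) * L.ω₁ + b * L.ω₂ =
        (((l : ℤ) * m : ℤ) : ℂ) * L.ω₁ + (((l : ℤ) * n : ℤ) : ℂ) * L.ω₂ := by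
      rw [eq_div_iff hl'] at e
      push_cast
      linear_combination -e
    obtain ⟨h2, h3⟩ := ind L h1
    exact ⟨⟨m, h2⟩, ⟨n, h3⟩⟩
  · rintro ⟨⟨m, rfl⟩, ⟨n, rfl⟩⟩
    refine PeriodPair.mem_lattice.mpr ⟨m, n, ?_⟩
    push_cast
    field_simp

/-- the linear algebra modulo `l` -/
theorem gen {l : ℕ} (hl : l.Prime) {p q r : ℤ} {D : ℕ} (hD : p ^ 2 + q * r = -(D : ℤ))
    (hlD : l ∣ D) (hl2 : ¬ l ^ 2 ∣ D) :
    ∃ m₀ n₀ : ℤ, ¬ ((l : ℤ) ∣ m₀ ∧ (l : ℤ) ∣ n₀) ∧ (l : ℤ) ∣ m₀ * p + n₀ * r ∧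
      (l : ℤ) ∣ m₀ * q - n₀ * p ∧
      ∀ m n : ℤ, (l : ℤ) ∣ m * p + n * r → (l : ℤ) ∣ m * q - n * p →
        ∃ t : ℤ, (l : ℤ) ∣ m - t * m₀ ∧ (l : ℤ) ∣ n - t * n₀ := by
  have hlp : Prime (l : ℤ) := Nat.prime_iff_prime_int.mp hl
  have hlD' : (l : ℤ) ∣ (D : ℤ) := by exact_mod_cast hlD
  have hcop : ∀ x : ℤ, ¬ (l : ℤ) ∣ x → ∃ u v : ℤ, u * x + v * l = 1 := by
    intro x hx
    have := (Prime.coprime_iff_not_dvd hlp).mpr hx
    obtain ⟨u, v, h⟩ := this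
    exact ⟨v, u, by linarith⟩
  by_cases h1 : (l : ℤ) ∣ p ∧ (l : ℤ) ∣ q
  · obtain ⟨hp, hq⟩ := h1
    have hr : ¬ (l : ℤ) ∣ r := by
      intro hr
      apply hl2
      have h2 : ((l : ℤ) ^ 2) ∣ (D : ℤ) := by
        have h3 : (D : ℤ) = -(p ^ 2 + q * r) := by linarith
        rw [h3, dvd_neg]
        refine dvd_add (pow_dvd_pow_of_dvd hp 2) ?_
        rw [sq]
        exact mul_dvd_mul hq hr
      exact_mod_cast h2
    refine ⟨1, 0, ?_, by simpa using hp, by simpa using hq, fun m n hm hn => ⟨m, by simp, ?_⟩⟩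
    · rintro ⟨h, -⟩
      exact hlp.not_isUnit (isUnit_of_dvd_one h)
    · have h2 : (l : ℤ) ∣ n * r := by
        have := (Int.dvd_add_right (Dvd.dvd.mul_left hp m)).mp hm
        exact this
      rcases hlp.dvd_or_dvd h2 with h3 | h3
      · simpa using h3
      · exact absurd h3 hr
  · refine ⟨p, q, h1, ?_, by simp [mul_comm], fun m n _ hn => ?_⟩
    · have : p * p + q * r = -(D : ℤ) := by rw [← hD]; ring
      rw [this, dvd_neg]
      exact hlD'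
    · obtain ⟨w, hw⟩ := hn
      by_cases hp : (l : ℤ) ∣ p
      · have hq : ¬ (l : ℤ) ∣ q := fun h => h1 ⟨hp, h⟩
        obtain ⟨u, v, huv⟩ := hcop q hq
        refine ⟨n * u, ⟨u * w + m * v, ?_⟩, ⟨n * v, ?_⟩⟩
        · linear_combination u * hw - m * huv
        · linear_combination -n * huv
      · obtain ⟨u, v, huv⟩ := hcop p hp
        refine ⟨m * u, ⟨m * v, ?_⟩, ⟨n * v - u * w, ?_⟩⟩
        · linear_combination -m * huv
        · linear_combination -u * hw - n * huv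

end LIN_

open LIN_ in
theorem p_LIN : T_LIN := by
  intro L c D l hc hL hl hlD hl2
  have hl0 : 0 < l := hl.pos
  have hlc : (l : ℂ) ≠ 0 := by exact_mod_cast hl0.ne'
  obtain ⟨p, q, h1⟩ := PeriodPair.mem_lattice.mp (hL _ L.ω₁_mem_lattice)
  obtain ⟨r, s, h2⟩ := PeriodPair.mem_lattice.mp (hL _ L.ω₂_mem_lattice)
  have hDpos : 0 < D := by
    rcases Nat.eq_zero_or_pos D with h | h
    · exact absurd (h ▸ dvd_zero _) hl2
    · exact h
  -- the square of the matrix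
  have e1 : ((p ^ 2 + q * r : ℤ) : ℂ) * L.ω₁ + ((q * (p + s) : ℤ) : ℂ) * L.ω₂ =
      ((-(D : ℤ) : ℤ) : ℂ) * L.ω₁ + ((0 : ℤ) : ℂ) * L.ω₂ := by
    push_cast
    linear_combination (p + c) * h1 + q * h2 + L.ω₁ * hc
  have e2 : ((r * (p + s) : ℤ) : ℂ) * L.ω₁ + ((q * r + s ^ 2 : ℤ) : ℂ) * L.ω₂ =
      ((0 : ℤ) : ℂ) * L.ω₁ + ((-(D : ℤ) : ℤ) : ℂ) * L.ω₂ := by
    push_cast
    linear_combination r * h1 + (s + c) * h2 + L.ω₂ * hc
  obtain ⟨e3, e4⟩ := ind L e1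
  have hs : s = -p := by
    rcases mul_eq_zero.mp e4 with h | h
    · exfalso
      rw [h] at e3
      have : (0 : ℤ) < D := by exact_mod_cast hDpos
      nlinarith [sq_nonneg p]
    · linarith
  subst hs
  -- multiplication by `c` in coordinates
  have hcw : ∀ m n : ℤ, c * ((m : ℂ) * L.ω₁ + n * L.ω₂) =
      ((m * p + n * r : ℤ) : ℂ) * L.ω₁ + ((m * q - n * p : ℤ) : ℂ) * L.ω₂ := by
    intro m n
    push_cast
    push_cast at h2
    linear_combination -(m : ℂ) * h1 - (n : ℂ) * h2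
  obtain ⟨m₀, n₀, g1, g2, g3, g4⟩ := gen hl e3 hlD hl2
  refine ⟨((m₀ : ℂ) * L.ω₁ + n₀ * L.ω₂) / l, ?_, ?_, ?_, ?_⟩
  · rw [mem_div L hl0]
    exact g1
  · rw [← mul_div_assoc, hcw, mem_div L hl0]
    exact ⟨g2, g3⟩
  · rw [mul_div_cancel₀ _ hlc]
    exact PeriodPair.mem_lattice.mpr ⟨m₀, n₀, rfl⟩
  · intro z hz hcz hlz
    obtain ⟨m, n, hmn⟩ := PeriodPair.mem_lattice.mp hlz
    have hzeq : z = ((m : ℂ) * L.ω₁ + n * L.ω₂) / l := by
      rw [hmn, mul_div_cancel_left₀ _ hlc]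
    rw [hzeq, ← mul_div_assoc, hcw, mem_div L hl0] at hcz
    obtain ⟨t, ht1, ht2⟩ := g4 m n hcz.1 hcz.2
    have hlz0 : (l : ℤ) ≠ 0 := by exact_mod_cast hl0.ne'
    obtain ⟨N, hN⟩ := Int.eq_ofNat_of_zero_le (Int.emod_nonneg t hlz0)
    have hN1 : (N : ℤ) < l := by
      rw [← hN]
      exact Int.emod_lt_of_pos t (by exact_mod_cast hl0)
    have hNt : t = N + l * (t / l) := by
      rw [← hN]
      exact (Int.emod_add_mul_ediv t l).symm
    have hmem : z - N * (((m₀ : ℂ) * L.ω₁ + n₀ * L.ω₂) / l) ∈ L.lattice := by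
      have : z - N * (((m₀ : ℂ) * L.ω₁ + n₀ * L.ω₂) / l) =
          (((m - N * m₀ : ℤ) : ℂ) * L.ω₁ + ((n - N * n₀ : ℤ) : ℂ) * L.ω₂) / l := by
        rw [hzeq]
        push_cast
        ring
      rw [this, mem_div L hl0]
      constructor
      · have h3 : m - N * m₀ = (m - t * m₀) + l * ((t / l) * m₀) := by
          linear_combination m₀ * hNt
        rw [h3]
        exact dvd_add ht1 (dvd_mul_right _ _)
      · have h3 : n - N * n₀ = (n - t * n₀) + l * ((t / l) * n₀) := by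
          linear_combination n₀ * hNt
        rw [h3]
        exact dvd_add ht2 (dvd_mul_right _ _)
    refine ⟨N, ?_, by exact_mod_cast hN1, ?_, hmem⟩
    · rcases Nat.eq_zero_or_pos N with h | h
      · exfalso
        rw [h] at hmem
        simp only [Nat.cast_zero, zero_mul, sub_zero] at hmem
        exact hz hmem
      · exact h
    · intro h
      apply hz
      have := add_mem hmem h
      rwa [sub_add_cancel] at this

end SSL
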