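import Pool.Agent.SSL.Targets
import Pool.Agent.SSA.API
import Pool.Agent.SSP.RNI
import Pool.Agent.SSP.RDP

/-!
# NRD: reduction at torsion points
-/

set_option autoImplicit false

open Polynomial

namespace SSL

open SSA SSP

namespace NRD_

variable {p : ℕ} [Fact p.Prime] (P : Plc p)

theorem red_pow {x : PadicAlgCl p} (hx : ‖x‖ ≤ 1) (m : ℕ) : P.red (x ^ m) = P.red x ^ m := by
  induction m with
  | zero => rw [pow_zero, pow_zero, P.red_one]
  | succ m ih =>
    rw [pow_succ, pow_succ, P.red_mul _ _ (by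
      rw [norm_pow]; exact pow_le_one₀ (norm_nonneg _) hx) hx, ih]

/-- values of integral polynomials -/
theorem eval_red (h0 : P.red 0 = 0) {A : (PadicAlgCl p)[X]} (hA : IntP A) {x : PadicAlgCl p}
    (hx : ‖x‖ ≤ 1) : ‖A.eval x‖ ≤ 1 ∧ (redP P A).eval (P.red x) = P.red (A.eval x) := by
  have hpow : ∀ m : ℕ, ‖x ^ m‖ ≤ 1 := fun m => by
    rw [norm_pow]
    exact pow_le_one₀ (norm_nonneg _) hx
  have hterm : ∀ i ∈ Finset.range (A.natDegree + 1), ‖A.coeff i * x ^ i‖ ≤ 1 := fun i _ =>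
    RDP_.norm_mul_le_one (hA i) (hpow i)
  rw [Polynomial.eval_eq_sum_range]
  refine ⟨RDP_.norm_sum_le_one _ _ hterm, ?_⟩
  rw [RDP_.red_sum P h0 _ _ hterm]
  unfold redP
  rw [Polynomial.eval_finsetSum]
  refine Finset.sum_congr rfl fun i _ => ?_
  rw [Polynomial.eval_monomial, P.red_mul _ _ (hA i) (hpow i), red_pow P hx]

/-- the coefficients of a multiple -/
theorem intP_C_mul {c : PadicAlgCl p} (hc : ‖c‖ ≤ 1) {A : (PadicAlgCl p)[X]} (hA : IntP A) :
    IntP (C c * A) := fun n => by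
  rw [coeff_C_mul]
  exact RDP_.norm_mul_le_one hc (hA n)

/-- a multiple by an element of the maximal ideal reduces to `0` -/
theorem red_small (h2 : SSP.T_RDP) {c : PadicAlgCl p} (hc : ‖c‖ < 1) {A : (PadicAlgCl p)[X]}
    (hA : IntP A) : redP P (C c * A) = 0 := by
  obtain ⟨-, -, -, hmul, -, hC, -, -, -⟩ := h2 p P
  rw [(hmul _ _ (hC c hc.le).1 hA).2, (hC c hc.le).2, (P.red_zero c hc.le).2 hc, C_0, zero_mul]

theorem gauss (h1 : SSP.T_RIN) (h2 : SSP.T_RDP) {A B N D : (PadicAlgCl p)[X]} (hA : IntP A)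
    (hB : IntP B) (hB0 : redP P B ≠ 0) (hD : D ≠ 0) (hco : IsCoprime N D) (he : N * B = A * D) :
    ∃ d : PadicAlgCl p, d ≠ 0 ∧ IntP (C d * N) ∧ IntP (C d * D) ∧ redP P (C d * D) ≠ 0 ∧
      redP P (C d * N) * redP P B = redP P A * redP P (C d * D) := by
  obtain ⟨hred0, -⟩ := h1 p P
  obtain ⟨-, -, -, hmul, -, hC, -, hscale, -⟩ := h2 p P
  have hBne : B ≠ 0 := by
    rintro rfl
    apply hB0
    unfold redP
    simp [hred0]
  obtain ⟨G, hG⟩ : D ∣ B := hco.symm.dvd_of_dvd_mul_left ⟨A, by rw [he, mul_comm]⟩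
  have hG0 : G ≠ 0 := by
    rintro rfl
    exact hBne (by rw [hG, mul_zero])
  have hAG : A = N * G := by
    apply mul_right_cancel₀ hD
    rw [← he, hG]
    ring
  obtain ⟨c, hc0, hcG, hcG0⟩ := hscale G hG0
  obtain ⟨d, hd0, hdD, hdD0⟩ := hscale D hD
  have hprod : C c * G * (C d * D) = C (c * d) * B := by
    rw [hG, C_mul]
    ring
  have hcd : ‖c * d‖ ≤ 1 := by
    by_contra hlt
    push Not at hlt
    have hinv : ‖(c * d)⁻¹‖ < 1 := by
      rw [norm_inv]
      exact inv_lt_one_of_one_lt₀ hlt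
    have e1 : B = C (c * d)⁻¹ * (C c * G * (C d * D)) := by
      rw [hprod, ← mul_assoc, ← C_mul, inv_mul_cancel₀ (mul_ne_zero hc0 hd0), C_1, one_mul]
    apply hB0
    rw [e1]
    exact red_small P h2 hinv (hmul _ _ hcG hdD).1
  have hN : IntP (C d * N) := by
    by_cases hN0 : N = 0
    · intro n
      rw [hN0, mul_zero, coeff_zero, norm_zero]
      exact zero_le_one
    obtain ⟨e, he0, heN, heN0⟩ := hscale N hN0
    by_cases hle : ‖d / e‖ ≤ 1
    · have e1 : C d * N = C (d / e) * (C e * N) := by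
        rw [← mul_assoc, ← C_mul, div_mul_cancel₀ _ he0]
      rw [e1]
      exact intP_C_mul hle heN
    · exfalso
      push Not at hle
      have hinv : ‖e / d‖ < 1 := by
        rw [← inv_div, norm_inv]
        exact inv_lt_one_of_one_lt₀ hle
      have e1 : C e * N * (C c * G) = C (e / d) * (C (c * d) * A) := by
        have e2 : e * c = e / d * (c * d) := by
          field_simp
        rw [← mul_assoc (C (e / d)), ← C_mul, ← e2, C_mul, hAG]
        ring
      have e3 : redP P (C e * N * (C c * G)) = 0 := by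
        rw [e1]
        exact red_small P h2 hinv (intP_C_mul hcd hA)
      rw [(hmul _ _ heN hcG).2] at e3
      exact (mul_ne_zero heN0 hcG0) e3
  refine ⟨d, hd0, hN, hdD, hdD0, ?_⟩
  rw [← (hmul _ _ hN hB).2, ← (hmul _ _ hA hdD).2]
  congr 1
  rw [mul_assoc, he]
  ring

/-- reduction of numerator and denominator -/
theorem num_denom (h1 : SSP.T_RIN) (h2 : SSP.T_RDP) {R : RatFunc (PadicAlgCl p)} {r : RatFunc P.k}
    (hR : RedQ P R r) (hdeg : rdeg r = rdeg R) :
    ∃ (d : PadicAlgCl p) (h : P.k), d ≠ 0 ∧ h ≠ 0 ∧ IntP (C d * R.num) ∧ IntP (C d * R.denom) ∧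
      redP P (C d * R.num) = C h * r.num ∧ redP P (C d * R.denom) = C h * r.denom := by
  obtain ⟨A, B, hA, hB, hB0, hRAB, hrAB⟩ := hR
  have hred0 := (h1 p P).1
  have hdegle : ∀ A : (PadicAlgCl p)[X], IntP A → (redP P A).natDegree ≤ A.natDegree :=
    (h2 p P).2.2.2.2.2.2.2.2
  have hBne : B ≠ 0 := by
    rintro rfl
    apply hB0
    unfold redP
    simp [hred0]
  have he : R.num * B = A * R.denom := (RatFunc.num_mul_eq_mul_denom_iff hBne).2 hRAB
  obtain ⟨d, hd0, hdN, hdD, hdD0, hrel⟩ := gauss P h1 h2 hA hB hB0 R.denom_ne_zero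
    R.isCoprime_num_denom he
  have hr : r = algebraMap P.k[X] (RatFunc P.k) (redP P (C d * R.num)) /
      algebraMap P.k[X] (RatFunc P.k) (redP P (C d * R.denom)) := by
    rw [hrAB, div_eq_div_iff (RatFunc.algebraMap_ne_zero hB0) (RatFunc.algebraMap_ne_zero hdD0),
      ← map_mul, ← map_mul, hrel]
  have he2 : r.num * redP P (C d * R.denom) = redP P (C d * R.num) * r.denom :=
    (RatFunc.num_mul_eq_mul_denom_iff hdD0).2 hr
  obtain ⟨H, hH⟩ : r.denom ∣ redP P (C d * R.denom) :=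
    r.isCoprime_num_denom.symm.dvd_of_dvd_mul_left ⟨redP P (C d * R.num), by rw [he2, mul_comm]⟩
  have hHn : redP P (C d * R.num) = r.num * H := by
    apply mul_right_cancel₀ r.denom_ne_zero
    rw [← he2, hH]
    ring
  have hH0 : H ≠ 0 := by
    rintro rfl
    exact hdD0 (by rw [hH, mul_zero])
  have hb1 : r.denom.natDegree + H.natDegree ≤ rdeg R := by
    rw [← natDegree_mul r.denom_ne_zero hH0, ← hH]
    refine (hdegle _ hdD).trans ?_
    rw [natDegree_C_mul hd0]
    exact le_max_right _ _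
  have hb2 : r.num ≠ 0 → r.num.natDegree + H.natDegree ≤ rdeg R := by
    intro hn
    rw [← natDegree_mul hn hH0, ← hHn]
    refine (hdegle _ hdN).trans ?_
    rw [natDegree_C_mul hd0]
    exact le_max_left _ _
  have hHdeg : H.natDegree = 0 := by
    rw [← hdeg] at hb1 hb2
    unfold rdeg at hb1 hb2
    rcases le_or_gt r.num.natDegree r.denom.natDegree with hle | hlt
    · rw [max_eq_right hle] at hb1
      omega
    · rw [max_eq_left hlt.le] at hb2
      have hn : r.num ≠ 0 := by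
        intro h
        rw [h, natDegree_zero] at hlt
        omega
      have := hb2 hn
      omega
  obtain ⟨h, rfl⟩ := natDegree_eq_zero.1 hHdeg
  refine ⟨d, h, hd0, ?_, hdN, hdD, by rw [hHn, mul_comm], by rw [hH, mul_comm]⟩
  rintro rfl
  exact hH0 C_0

/-- roots of monic integral polynomials -/
theorem root_le {D : (PadicAlgCl p)[X]} (hD : D.Monic) (hi : IntP D) {x : PadicAlgCl p}
    (hx : D.eval x = 0) : ‖x‖ ≤ 1 := by
  by_contra hlt
  push Not at hlt
  have hx0 : x ≠ 0 := by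
    rintro rfl
    rw [norm_zero] at hlt
    linarith
  set m := D.natDegree with hm
  rw [Polynomial.eval_eq_sum_range, Finset.sum_range_succ, ← hm, hm, hD.coeff_natDegree, ← hm,
    one_mul] at hx
  have hxm : x ^ m = -∑ i ∈ Finset.range m, D.coeff i * x ^ i := by
    linear_combination hx
  have hm0 : m ≠ 0 := by
    intro h
    rw [h, Finset.sum_range_zero, pow_zero, zero_add] at hx
    exact one_ne_zero hx
  have hbound : ‖∑ i ∈ Finset.range m, D.coeff i * x ^ i‖ ≤ ‖x‖ ^ (m - 1) := by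
    apply IsUltrametricDist.norm_sum_le_of_forall_le_of_nonneg (by positivity)
    intro i hi'
    rw [Finset.mem_range] at hi'
    rw [norm_mul, norm_pow]
    calc ‖D.coeff i‖ * ‖x‖ ^ i ≤ 1 * ‖x‖ ^ (m - 1) := by
          apply mul_le_mul (hi i) _ (by positivity) zero_le_one
          exact pow_le_pow_right₀ hlt.le (by omega)
      _ = _ := one_mul _
  rw [← norm_neg, ← hxm, norm_pow] at hbound
  have hstrict : ‖x‖ ^ (m - 1) < ‖x‖ ^ m := pow_lt_pow_right₀ hlt (by omega)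
  linarith

end NRD_

open NRD_ in
theorem p_NRD (h1 : SSP.T_RIN) (h2 : SSP.T_RDP) (_h3 : SSP.T_RQA) (h4 : SSP.T_RNI)
    (h5 : SSP.T_DGN) (h6 : T_INF) (h7 : T_TWO) (h8 : T_SPH) : T_NRD := by
  classical
  intro p _ P hp a b ha hb hdisc l hl hl2 hlp x₀ hx₀
  obtain ⟨r0, -, r1, -, r5, -⟩ := h1 p P
  have hcoef : ∀ (A : (PadicAlgCl p)[X]) (n : ℕ), IntP A →
      (redP P A).coeff n = P.red (A.coeff n) := (h2 p P).1
  have hcast : ∀ m : ℕ, 0 < m → m < p → (m : P.k) ≠ 0 := by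
    intro m hm0 hm h
    have := (CharP.cast_eq_zero_iff P.k p m).1 h
    exact absurd (Nat.le_of_dvd hm0 this) (not_le.2 hm)
  have hH' : Hyp (P.red a) (P.red b) := by
    refine ⟨?_, ?_, hdisc⟩
    · exact_mod_cast hcast 2 (by norm_num) (by omega)
    · exact_mod_cast hcast 3 (by norm_num) (by omega)
  have hH : Hyp a b := by
    refine ⟨two_ne_zero, three_ne_zero, ?_⟩
    intro h
    apply hdisc
    have n4 := r1 4
    have n27 := r1 27
    push_cast at n4 n27
    have ha3 : ‖a ^ 3‖ ≤ 1 := by rw [norm_pow]; exact pow_le_one₀ (norm_nonneg _) ha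
    have hb2 : ‖b ^ 2‖ ≤ 1 := by rw [norm_pow]; exact pow_le_one₀ (norm_nonneg _) hb
    have e1 : ‖(4 : PadicAlgCl p) * a ^ 3‖ ≤ 1 := by
      rw [norm_mul]
      exact mul_le_one₀ n4.1 (norm_nonneg _) ha3
    have e2 : ‖(27 : PadicAlgCl p) * b ^ 2‖ ≤ 1 := by
      rw [norm_mul]
      exact mul_le_one₀ n27.1 (norm_nonneg _) hb2
    have h5 := P.red_add _ _ e1 e2
    rw [h, r0, P.red_mul _ _ n4.1 ha3, P.red_mul _ _ n27.1 hb2, n4.2, n27.2, red_pow P ha 3,
      red_pow P hb 2] at h5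
    exact h5.symm
  have hlF : (l : PadicAlgCl p) ≠ 0 := Nat.cast_ne_zero.2 hl.ne_zero
  have hlk : (l : P.k) ≠ 0 := by
    intro h
    have h' := (CharP.cast_eq_zero_iff P.k p l).1 h
    exact hlp ((Nat.prime_dvd_prime_iff_eq (Fact.out : p.Prime) hl).1 h').symm
  have hlodd : Odd l := hl.odd_of_ne_two hl2
  have key : ∀ n : ℕ, 0 < n → ∃ (d : PadicAlgCl p) (h : P.k), d ≠ 0 ∧ h ≠ 0 ∧
      IntP (C d * (xr (n • idM a b)).num) ∧ IntP (C d * (xr (n • idM a b)).denom) ∧
      redP P (C d * (xr (n • idM a b)).num) =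
        C h * (xr (n • idM (P.red a) (P.red b))).num ∧
      redP P (C d * (xr (n • idM a b)).denom) =
        C h * (xr (n • idM (P.red a) (P.red b))).denom := by
    intro n hn
    refine num_denom P h1 h2 (h4 p P hp a b ha hb hdisc n hn).1 ?_
    have e1 := (h5 _ a b hH).1 n
    have e2 := (h5 _ _ _ hH').1 n
    unfold dd at e1 e2
    rw [e1, e2]
  -- the root is integral
  have hint : ‖x₀‖ ≤ 1 ∧
      (xr (l • idM (P.red a) (P.red b))).denom.eval (P.red x₀) = 0 := by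
    obtain ⟨d, h, hd0, hh0, hN, hD, hrN, hrD⟩ := key l hl.pos
    have i1 := (h6 _ a b hH l hlF).2
    have i2 := (h6 _ _ _ hH' l hlk).2
    have m1 : (xr (l • idM a b)).denom.Monic := RatFunc.monic_denom _
    have m2 : (xr (l • idM (P.red a) (P.red b))).denom.Monic := RatFunc.monic_denom _
    have c1 : (C d * (xr (l • idM a b)).denom).coeff (l ^ 2 - 1) = d := by
      rw [coeff_C_mul, ← i1, m1.coeff_natDegree, mul_one]
    have c2 : (C h * (xr (l • idM (P.red a) (P.red b))).denom).coeff (l ^ 2 - 1) = h := by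
      rw [coeff_C_mul, ← i2, m2.coeff_natDegree, mul_one]
    have hdle : ‖d‖ ≤ 1 := by
      have := hD (l ^ 2 - 1)
      rwa [c1] at this
    have hredd : P.red d = h := by
      rw [← c2, ← hrD, hcoef _ _ hD, c1]
    have hd1 : ‖d‖ = 1 := by
      refine le_antisymm hdle (not_lt.1 fun hlt => ?_)
      exact hh0 (by rw [← hredd]; exact (P.red_zero d hdle).2 hlt)
    have hDint : IntP (xr (l • idM a b)).denom := by
      intro n
      have := hD n
      rwa [coeff_C_mul, norm_mul, hd1, one_mul] at this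
    have hx1 : ‖x₀‖ ≤ 1 := root_le m1 hDint hx₀
    refine ⟨hx1, ?_⟩
    have e1 := (eval_red P r0 hD hx1).2
    rw [hrD, eval_mul, eval_C, eval_mul, eval_C, hx₀, mul_zero, r0] at e1
    exact (mul_eq_zero.1 e1).resolve_left hh0
  obtain ⟨hx1, hxl⟩ := hint
  refine ⟨hx1, hxl, ?_⟩
  -- the point of order `l`
  have hf0 := h7 P.k _ _ hH' l hlodd hlk _ hxl
  obtain ⟨y₀, hy₀⟩ := IsAlgClosed.exists_pow_nat_eq
    (P.red x₀ ^ 3 + P.red a * P.red x₀ + P.red b) (n := 2) (by norm_num)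
  have hy0 : y₀ ≠ 0 := by
    rintro rfl
    apply hf0
    rw [← hy₀]
    ring
  obtain ⟨ψ, hψ⟩ := h8 P.k _ _ (P.red x₀) y₀ hH' hy₀ hy0
  obtain ⟨j1, j2, j3⟩ := RNI_.idM_api SSA.p_API hH'
  have hnz : ∀ n : ℕ, 0 < n → n • idM (P.red a) (P.red b) ≠ 0 := (h5 _ _ _ hH').2.1
  have hid : ψ (idM (P.red a) (P.red b)) ≠ 0 := by
    obtain ⟨-, h, he⟩ := (hψ _ j1).2 (by rw [j2, RatFunc.denom_X, eval_one]; exact one_ne_zero)
    rw [he]
    exact WeierstrassCurve.Affine.Point.some_ne_zero _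
  have hlz : l • ψ (idM (P.red a) (P.red b)) = 0 := by
    rw [← map_nsmul]
    exact (hψ _ (hnz l hl.pos)).1 hxl
  have : Fact l.Prime := ⟨hl⟩
  have hord : addOrderOf (ψ (idM (P.red a) (P.red b))) = l := addOrderOf_eq_prime hlz hid
  intro n hn0 hnl
  have hden : (xr (n • idM (P.red a) (P.red b))).denom.eval (P.red x₀) ≠ 0 := by
    intro h0
    have h9 := (hψ _ (hnz n hn0)).1 h0
    rw [map_nsmul] at h9
    have h10 := addOrderOf_dvd_of_nsmul_eq_zero h9
    rw [hord] at h10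
    exact absurd (Nat.le_of_dvd hn0 h10) (not_le.2 hnl)
  refine ⟨hden, ?_⟩
  obtain ⟨d, h, hd0, hh0, hN, hD, hrN, hrD⟩ := key n hn0
  obtain ⟨u1, u2⟩ := eval_red P r0 hN hx1
  obtain ⟨v1, v2⟩ := eval_red P r0 hD hx1
  have hv0 : P.red ((C d * (xr (n • idM a b)).denom).eval x₀) ≠ 0 := by
    rw [← v2, hrD, eval_mul, eval_C]
    exact mul_ne_zero hh0 hden
  have hv1 : ‖(C d * (xr (n • idM a b)).denom).eval x₀‖ = 1 := by
    refine le_antisymm v1 (not_lt.1 fun hlt => ?_)
    exact hv0 ((P.red_zero _ v1).2 hlt)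
  have he : evk (xr (n • idM a b)) x₀ = (C d * (xr (n • idM a b)).num).eval x₀ *
      ((C d * (xr (n • idM a b)).denom).eval x₀)⁻¹ := by
    unfold evk
    rw [eval_mul, eval_C, eval_mul, eval_C, ← div_eq_mul_inv, mul_div_mul_left _ _ hd0]
  rw [he, P.red_mul _ _ u1 (by rw [norm_inv, hv1, inv_one]), (r5 _ hv1).2, ← u2, ← v2, hrN, hrD,
    eval_mul, eval_C, eval_mul, eval_C, ← div_eq_mul_inv, mul_div_mul_left _ _ hh0]
  rfl

end SSL
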