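import Pool.Agent.SSL.Targets
import Pool.Agent.SSM.PSG
import Pool.Agent.SSM.OUT

/-!
# MP_d74fca_nt, project SSL, part S (helper58): `D = pr L * a * c`
-/

set_option autoImplicit false

open Polynomial

namespace SSL

namespace OUTL_

open SSM

/-- local uniformity of the intermediate value theorem, with `η₂ ≤ 2 η₁` -/
theorem ivt2 (g : ℝ → ℝ) (c x : ℝ) (hm : StrictMonoOn g (Set.Ici 1))
    (hc : ContinuousOn g (Set.Ici 1)) (h1 : g 1 = c)
    (ht : Filter.Tendsto g Filter.atTop Filter.atTop) (hx : c < x) :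
    ∃ δ η₁ η₂ : ℝ, 0 < δ ∧ 1 < η₁ ∧ η₁ ≤ η₂ ∧ η₂ ≤ 2 * η₁ ∧
      ∀ x' : ℝ, |x' - x| < δ → ∃ η : ℝ, η₁ ≤ η ∧ η ≤ η₂ ∧ g η = x' := by
  obtain ⟨b, hb1, hbx⟩ : ∃ b : ℝ, 1 ≤ b ∧ x < g b :=
    ((Filter.eventually_ge_atTop (1 : ℝ)).and (ht.eventually_gt_atTop x)).exists
  have hsub : ∀ {u v : ℝ}, 1 ≤ u → Set.Icc u v ⊆ Set.Ici (1 : ℝ) :=
    fun hu y hy => hu.trans hy.1
  obtain ⟨e, ⟨he1, heb⟩, hex⟩ := intermediate_value_Icc hb1 (hc.mono (hsub le_rfl))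
    (show x ∈ Set.Icc (g 1) (g b) from ⟨by rw [h1]; exact hx.le, hbx.le⟩)
  have he : 1 < e := by
    rcases he1.lt_or_eq with h | h
    · exact h
    · rw [← h, h1] at hex
      exact absurd hex hx.ne
  have hn1 : (1 : ℝ) < (1 + e) / 2 := by linarith
  have hne : (1 + e) / 2 < e := by linarith
  have hg1 : g ((1 + e) / 2) < x := by
    rw [← hex]
    exact hm hn1.le he1 hne
  have hg2 : x < g (1 + e) := by
    rw [← hex]
    exact hm he1 (show (1 : ℝ) ≤ 1 + e by linarith) (by linarith)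
  refine ⟨min (x - g ((1 + e) / 2)) (g (1 + e) - x), (1 + e) / 2, 1 + e,
    lt_min (by linarith) (by linarith), hn1, by linarith, by linarith, ?_⟩
  intro x' hx'
  have ha := (abs_lt.1 (lt_of_lt_of_le hx' (min_le_left _ _))).1
  have hb := (abs_lt.1 (lt_of_lt_of_le hx' (min_le_right _ _))).2
  obtain ⟨η, ⟨hη1, hη2⟩, hη⟩ := intermediate_value_Icc (show (1 + e) / 2 ≤ 1 + e by linarith)
    (hc.mono (hsub hn1.le)) (show x' ∈ Set.Icc (g ((1 + e) / 2)) (g (1 + e)) from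
      ⟨by linarith, by linarith⟩)
  exact ⟨η, hη1, hη2, hη⟩

/-- SGN with `η₂ ≤ 2 η₁` -/
theorem sgn2 (hRE1 : T_RE1) (hRE2 : T_RE2) (hSG1 : T_SG1) (hSG2 : T_SG2) (x : ℝ)
    (hx : x ≠ 1728) : ∃ δ η₁ η₂ : ℝ, 0 < δ ∧ 1 < η₁ ∧ η₁ ≤ η₂ ∧ η₂ ≤ 2 * η₁ ∧
    ∀ x' : ℝ, |x' - x| < δ → ∃ η : ℝ, η₁ ≤ η ∧ η ≤ η₂ ∧
    ∀ (D : ℕ) (F : ℤ[X][X]), Odd D → ¬ IsSquare D → IsMP D F →
      0 ≤ (-1) ^ near D η * aeval x' (diag F) := by
  rcases lt_or_gt_of_ne hx with h | h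
  · obtain ⟨f, hf, hm, hc, h1, ht⟩ := hRE2
    obtain ⟨δ, η₁, η₂, hδ, hη1, hη2, hη3, H⟩ := ivt2 (fun y => -f y) (-1728) (-x)
      (fun a ha b hb hab => neg_lt_neg (hm ha hb hab)) hc.neg (by simp only [h1])
      (Filter.tendsto_neg_atBot_atTop.comp ht) (neg_lt_neg h)
    refine ⟨δ, η₁, η₂, hδ, hη1, hη2, hη3, fun x' hx' => ?_⟩
    obtain ⟨η, e1, e2, e3⟩ := H (-x') (by rwa [neg_sub_neg, abs_sub_comm])
    refine ⟨η, e1, e2, fun D F hD hsq hF => ?_⟩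
    have hη : 1 < η := hη1.trans_le e1
    refine hSG2 D F η x' hD hsq hF hη ?_
    rw [(hf η (by linarith)).1]
    exact congrArg _ (neg_injective e3)
  · obtain ⟨f, hf, hm, hc, h1, ht⟩ := hRE1
    obtain ⟨δ, η₁, η₂, hδ, hη1, hη2, hη3, H⟩ := ivt2 f 1728 x hm hc h1 ht h
    refine ⟨δ, η₁, η₂, hδ, hη1, hη2, hη3, fun x' hx' => ?_⟩
    obtain ⟨η, e1, e2, e3⟩ := H x' hx'
    refine ⟨η, e1, e2, fun D F hD hsq hF => ?_⟩
    have hη : 1 < η := hη1.trans_le e1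
    refine hSG1 D F η x' hD hsq hF hη ?_
    rw [(hf η (by linarith)).1, e3]

/-- divisors of `m * a * c`, `a`, `c` primes -/
theorem dvd_cases {m a c e : ℕ} (ha : a.Prime) (hc : c.Prime) (h : e ∣ m * a * c) :
    ∃ f, f ∣ m ∧ (e = f ∨ e = f * a ∨ e = f * c ∨ e = f * a * c) := by
  obtain ⟨e1, e2, h1, h2, rfl⟩ := exists_dvd_and_dvd_of_dvd_mul h
  obtain ⟨f, e3, h3, h4, rfl⟩ := exists_dvd_and_dvd_of_dvd_mul h1
  refine ⟨f, h3, ?_⟩
  rcases (Nat.dvd_prime ha).1 h4 with h5 | h5 <;> rcases (Nat.dvd_prime hc).1 h2 with h6 | h6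
  · left; rw [h5, h6, mul_one, mul_one]
  · right; right; left; rw [h5, h6, mul_one]
  · right; left; rw [h5, h6, mul_one]
  · right; right; right; rw [h5, h6]

/-- exactly one divisor in the window -/
theorem near_one {m a c : ℕ} (ha : a.Prime) (hc : c.Prime) (hm : 0 < m)
    (hm5 : ∀ f : ℕ, f ∣ m → f ≠ 1 → 5 ≤ f) {η₁ η₂ η : ℝ} (h1 : 1 < η₁) (h12 : η₁ ≤ η)
    (h22 : η ≤ η₂) (hρ1 : (m : ℝ) * max 1 (η₂ ^ 2 / 25) * a < c)
    (hρ2 : (c : ℝ) < m * η₁ ^ 2 * a) (hbig : (m : ℝ) * η₂ ^ 2 ≤ a) :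
    near (m * a * c) η = 1 := by
  have haR : (1 : ℝ) < a := by exact_mod_cast ha.one_lt
  have hcR : (0 : ℝ) < c := by exact_mod_cast hc.pos
  have hmR : (1 : ℝ) ≤ m := by exact_mod_cast hm
  have hη1 : 1 < η := h1.trans_le h12
  have hηη : η ^ 2 ≤ η₂ ^ 2 := by nlinarith
  have hηη1 : η₁ ^ 2 ≤ η ^ 2 := by nlinarith
  have h0 : (0 : ℝ) < m * a := by positivity
  have hmac : (m : ℝ) * a < c := by
    refine lt_of_le_of_lt ?_ hρ1
    have h2 : (1 : ℝ) ≤ max 1 (η₂ ^ 2 / 25) := le_max_left _ _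
    calc (m : ℝ) * a = m * 1 * a := by ring
      _ ≤ m * max 1 (η₂ ^ 2 / 25) * a := by gcongr
  have hm25 : (m : ℝ) * (η ^ 2 / 25) * a < c := by
    refine lt_of_le_of_lt ?_ hρ1
    have h3 : η ^ 2 / 25 ≤ max 1 (η₂ ^ 2 / 25) := le_trans (by linarith) (le_max_right _ _)
    gcongr
  have hD0 : m * a * c ≠ 0 := by
    have := ha.pos
    have := hc.pos
    positivity
  have hDR : (0 : ℝ) < m * a * c := by positivity
  unfold near
  rw [Finset.card_eq_one]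
  refine ⟨c, ?_⟩
  ext e
  rw [Finset.mem_filter, Nat.mem_divisors, Finset.mem_singleton]
  constructor
  · rintro ⟨⟨hd, _⟩, h2, h3⟩
    have h2R : ((m : ℝ) * a * c) < (e : ℝ) ^ 2 := by exact_mod_cast h2
    push_cast at h3
    obtain ⟨f, hf, he⟩ := dvd_cases ha hc hd
    have hf0 : 0 < f := Nat.pos_of_dvd_of_pos hf hm
    have hfm : f ≤ m := Nat.le_of_dvd hm hf
    have hf0R : (1 : ℝ) ≤ f := by exact_mod_cast hf0
    have hfmR : (f : ℝ) ≤ m := by exact_mod_cast hfm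
    have hff : (f : ℝ) ^ 2 ≤ m ^ 2 := by nlinarith
    rcases he with he | he | he | he
    · exfalso
      have heR : (e : ℝ) = f := by exact_mod_cast he
      rw [heR] at h2R
      have h4 : (m : ℝ) ^ 2 ≤ m * a * c := by
        have : (m : ℝ) ≤ a * c := by nlinarith
        nlinarith
      linarith
    · exfalso
      have heR : (e : ℝ) = f * a := by exact_mod_cast he
      rw [heR] at h2R
      have h4 : ((f : ℝ) * a) ^ 2 ≤ (m * a) ^ 2 := by gcongr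
      have h5 : ((m : ℝ) * a) ^ 2 ≤ m * a * c := by
        rw [sq]
        exact mul_le_mul_of_nonneg_left hmac.le h0.le
      linarith
    · by_cases hf1 : f = 1
      · rw [he, hf1, one_mul]
      · exfalso
        have hf5 : 5 ≤ f := hm5 f hf hf1
        have hf5R : (5 : ℝ) ≤ f := by exact_mod_cast hf5
        have heR : (e : ℝ) = f * c := by exact_mod_cast he
        rw [heR] at h3
        have h4 : (25 : ℝ) * c ^ 2 ≤ (f * c) ^ 2 := by
          rw [mul_pow]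
          have : (25 : ℝ) ≤ (f : ℝ) ^ 2 := by nlinarith
          gcongr
        have h5 : η ^ 2 * (m * a * c) ≤ 25 * (c : ℝ) ^ 2 := by
          have h6 : η ^ 2 * (m * a) ≤ 25 * c := by nlinarith
          calc η ^ 2 * ((m : ℝ) * a * c) = η ^ 2 * ((m : ℝ) * a) * c := by ring
            _ ≤ 25 * (c : ℝ) * c := by gcongr
            _ = 25 * (c : ℝ) ^ 2 := by ring
        linarith
    · exfalso
      have heR : (e : ℝ) = f * a * c := by exact_mod_cast he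
      rw [heR] at h3
      have h4 : ((a : ℝ) * c) ^ 2 ≤ (f * a * c) ^ 2 := by
        have : (a : ℝ) * c ≤ f * a * c := by
          have : (0 : ℝ) < a * c := by positivity
          nlinarith
        gcongr
      have h5 : η ^ 2 * (m * a * c) ≤ ((a : ℝ) * c) ^ 2 := by
        have h6 : η ^ 2 * m ≤ a * c := by
          have h7 : η ^ 2 * m ≤ m * η₂ ^ 2 := by nlinarith
          have h8 : (a : ℝ) ≤ a * c := by
            have h9 : (1 : ℝ) ≤ c := by nlinarith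
            nlinarith
          linarith
        calc η ^ 2 * ((m : ℝ) * a * c) = η ^ 2 * m * ((a : ℝ) * c) := by ring
          _ ≤ (a : ℝ) * c * ((a : ℝ) * c) := by gcongr
          _ = ((a : ℝ) * c) ^ 2 := by ring
      linarith
  · rintro rfl
    refine ⟨⟨Dvd.intro_left (m * a) rfl, hD0⟩, ?_, ?_⟩
    · have : (m : ℝ) * a * e < (e : ℝ) ^ 2 := by
        rw [sq]
        exact mul_lt_mul_of_pos_right hmac hcR
      exact_mod_cast this
    · push_cast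
      calc (e : ℝ) ^ 2 = e * e := sq _
        _ < (m * η₁ ^ 2 * a) * e := mul_lt_mul_of_pos_right hρ2 hcR
        _ ≤ (m * η ^ 2 * a) * e := by gcongr
        _ = η ^ 2 * (m * a * e) := by ring

/-- the sign of `P_D(x)` -/
theorem psg (hRE1 : T_RE1) (hRE2 : T_RE2) (hSG1 : T_SG1) (hSG2 : T_SG2) (x : ℝ)
    (hx : x ≠ 1728) (m : ℕ) (hm : 0 < m) (hm5 : ∀ f : ℕ, f ∣ m → f ≠ 1 → 5 ≤ f) :
    ∃ (ρ₁ ρ₂ : ℝ) (A : ℕ), 1 ≤ ρ₁ ∧ ρ₁ < ρ₂ ∧ ∀ (a c D : ℕ) (P : ℤ[X]), a.Prime → c.Prime →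
      A ≤ a → ρ₁ * a < c → (c : ℝ) < ρ₂ * a → D = m * a * c → Squarefree D → Odd D → IsPD D P →
      aeval x P ≤ 0 := by
  obtain ⟨δ, η₁, η₂, hδ, hη1, hη2, hη3, H⟩ := sgn2 hRE1 hRE2 hSG1 hSG2 x hx
  have hmR : (1 : ℝ) ≤ m := by exact_mod_cast hm
  obtain ⟨A, hA⟩ := exists_nat_ge ((m : ℝ) * η₂ ^ 2)
  refine ⟨m * max 1 (η₂ ^ 2 / 25), m * η₁ ^ 2, A, ?_, ?_, ?_⟩
  · have : (1 : ℝ) ≤ max 1 (η₂ ^ 2 / 25) := le_max_left _ _
    nlinarith
  · have h1 : max 1 (η₂ ^ 2 / 25) < η₁ ^ 2 := by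
      rw [max_lt_iff]
      constructor <;> nlinarith
    exact mul_lt_mul_of_pos_left h1 (by linarith)
  intro a c D P ha hc hAa hρ1 hρ2 hD hs hDo hP
  have hAR : (A : ℝ) ≤ a := by exact_mod_cast hAa
  have ha1 := ha.one_lt
  have hc1 := hc.one_lt
  have hmac1 : 1 < m * a * c := by
    calc 1 = 1 * 1 * 1 := rfl
      _ < 1 * a * c := by nlinarith
      _ ≤ m * a * c := Nat.mul_le_mul_right c (Nat.mul_le_mul_right a hm)
  have hDsq : ¬ IsSquare D := PSG_.not_sq hs (by rw [hD]; exact hmac1)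
  obtain ⟨F, R, hF, hR, hFPR⟩ := hP.sgn
  -- the sign at points near `x` where `R` does not vanish
  have key : ∀ x' : ℝ, |x' - x| < δ → aeval x' R ≠ 0 → aeval x' P ≤ 0 := by
    intro x' hx' hR0
    obtain ⟨η, e1, e2, e3⟩ := H x' hx'
    have h1 := e3 D F hDo hDsq hF
    rw [hFPR] at h1
    simp only [map_mul, map_pow, map_neg, map_one] at h1
    have hR2 : 0 < (aeval x' R) ^ 2 := by positivity
    have hsign : ((-1 : ℝ)) ^ near D η * (-1) ^ kk D = -1 := by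
      have hD' : D = a * (m * c) := by rw [hD]; ring
      have hk : Even (kk D) := by
        rw [hD']
        refine PSG_.kk_mul ha ?_ (hD' ▸ hs)
        nlinarith
      have hn : near D η = 1 := by
        rw [hD]
        exact near_one ha hc hm hm5 hη1 e1 e2 hρ1 hρ2 (hA.trans hAR)
      rw [hn, hk.neg_one_pow]
      norm_num
    have h2 : 0 ≤ ((-1 : ℝ) ^ near D η * (-1) ^ kk D) * (aeval x' P * (aeval x' R) ^ 2) := by
      refine h1.trans (le_of_eq ?_)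
      ring
    rw [hsign] at h2
    by_contra hc
    push Not at hc
    have := mul_pos hc hR2
    linarith
  by_contra hc
  push Not at hc
  have hcont : Continuous (fun y : ℝ => aeval y P) := Polynomial.continuous_aeval P
  have hev : ∀ᶠ y in nhds x, 0 < aeval y P :=
    (hcont.tendsto x).eventually_const_lt hc
  obtain ⟨r, hr, hball⟩ := Metric.eventually_nhds_iff_ball.1 hev
  have hfin : {y : ℝ | aeval y R = 0}.Finite := by
    have hR0 : R.map (algebraMap ℤ ℝ) ≠ 0 := (hR.map _).ne_zero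
    refine ((R.map (algebraMap ℤ ℝ)).roots.toFinset.finite_toSet).subset ?_
    intro y hy
    rw [Finset.mem_coe, Multiset.mem_toFinset, mem_roots hR0, IsRoot.def, eval_map_algebraMap]
    exact hy
  have hinf : (Set.Ioo x (x + min r δ)).Infinite := Set.Ioo_infinite (by
    have := lt_min hr hδ
    linarith)
  obtain ⟨y, hy, hyR⟩ := (hinf.sdiff hfin).nonempty
  have hd : |y - x| < min r δ := by
    rw [abs_of_pos (by linarith [hy.1])]
    linarith [hy.2]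
  have h1 := key y (hd.trans_le (min_le_right _ _)) hyR
  have h2 := hball y (by
    rw [Metric.mem_ball, Real.dist_eq]
    exact hd.trans_le (min_le_left _ _))
  linarith

/-- divisors of a product of primes `≥ 5` -/
theorem pr5 (L : Finset ℕ) (hL : ∀ l ∈ L, l.Prime ∧ 5 ≤ l) (f : ℕ) (hf : f ∣ pr L) (h1 : f ≠ 1) :
    5 ≤ f := by
  obtain ⟨p, hp, hpf⟩ := Nat.exists_prime_and_dvd h1
  have h2 : p ∣ ∏ l ∈ L, l := hpf.trans hf
  obtain ⟨l, hl, hpl⟩ := (hp.prime.dvd_finsetProd_iff _).1 h2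
  have h3 : p = l := (Nat.prime_dvd_prime_iff_eq hp (hL l hl).1).1 hpl
  have h4 : 0 < f := Nat.pos_of_dvd_of_pos hf (Finset.prod_pos fun l hl => (hL l hl).1.pos)
  have h5 := Nat.le_of_dvd h4 hpf
  have h6 := (hL l hl).2
  omega

theorem pr_pos (L : Finset ℕ) (hL : ∀ l ∈ L, l.Prime ∧ 5 ≤ l) : 0 < pr L :=
  Finset.prod_pos fun l hl => (hL l hl).1.pos

theorem pr_sqf (L : Finset ℕ) (hL : ∀ l ∈ L, l.Prime ∧ 5 ≤ l) : Squarefree (pr L) := by
  classical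
  induction L using Finset.induction_on with
  | empty => simp [pr]
  | insert q L hq ih =>
    have hL' : ∀ l ∈ L, l.Prime ∧ 5 ≤ l := fun l hl => hL l (Finset.mem_insert_of_mem hl)
    have h1 : pr (insert q L) = q * pr L := Finset.prod_insert hq
    have hqp := (hL q (Finset.mem_insert_self q L)).1
    rw [h1, Nat.squarefree_mul_iff]
    refine ⟨?_, hqp.prime.squarefree, ih hL'⟩
    rw [hqp.coprime_iff_not_dvd]
    intro h
    obtain ⟨l, hl, hpl⟩ := (hqp.prime.dvd_finsetProd_iff _).1 h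
    have h3 : q = l := (Nat.prime_dvd_prime_iff_eq hqp (hL' l hl).1).1 hpl
    exact hq (h3 ▸ hl)

end OUTL_

open SSM OUTL_ in
/-- OUTL from the modular part -/
theorem p_OUTL (hRE1 : SSM.T_RE1) (hRE2 : SSM.T_RE2) (hSG1 : SSM.T_SG1) (hSG2 : SSM.T_SG2)
    (h_CMP : SSM.T_CMP) (h_NVN : SSM.T_NVN) (h_SIZ : SSM.T_SIZ) (h_JAC : SSM.T_JAC) : T_OUTL := by
  intro r s hs hrs L hL
  have hs' : (s : ℝ) ≠ 0 := by exact_mod_cast hs
  have hx : (r : ℝ) / s ≠ 1728 := by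
    intro h
    rw [div_eq_iff hs'] at h
    exact hrs (by exact_mod_cast h)
  obtain ⟨ρ₁, ρ₂, A, hρ1, hρ12, hP⟩ := psg hRE1 hRE2 hSG1 hSG2 ((r : ℝ) / s) hx (pr L)
    (pr_pos L hL) (pr5 L hL)
  refine ⟨ρ₁, ρ₂, hρ1, hρ12, ?_⟩
  intro ε hε
  obtain ⟨D₁, hD₁⟩ := h_SIZ ((r : ℝ) / s) (ε / 2) (by linarith)
  -- the exceptional discriminant
  obtain ⟨D₂, hD₂⟩ : ∃ D₂ : ℕ, ∀ (D : ℕ) (P : ℤ[X]), D₂ ≤ D → Squarefree D → IsPD D P →
      aeval (((r : ℝ) / s : ℝ) : ℂ) P ≠ 0 := by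
    by_cases hex : ∃ (D : ℕ) (P : ℤ[X]), Squarefree D ∧ IsPD D P ∧
        aeval (((r : ℝ) / s : ℝ) : ℂ) P = 0
    · obtain ⟨D, P, h1, h2, h3⟩ := hex
      refine ⟨D + 1, ?_⟩
      intro D' P' hD' h1' h2' h3'
      have := h_NVN _ D D' P P' h1 h1' h2 h2' h3 h3'
      omega
    · refine ⟨0, ?_⟩
      intro D P _ h1 h2 h3
      exact hex ⟨D, P, h1, h2, h3⟩
  -- the size
  obtain ⟨D₃, hD₃⟩ : ∃ D₃ : ℕ, ∀ D : ℕ, D₃ ≤ D →
      (D : ℝ) ^ (1 / 2 + ε / 2) * (1 + Real.log |(s : ℝ)|) ≤ (D : ℝ) ^ (1 / 2 + ε) := by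
    have h1 : Filter.Tendsto (fun D : ℕ => (D : ℝ) ^ (ε / 2)) Filter.atTop Filter.atTop :=
      (tendsto_rpow_atTop (by linarith)).comp tendsto_natCast_atTop_atTop
    obtain ⟨D₃, h3⟩ := Filter.eventually_atTop.mp
      (h1.eventually_ge_atTop (1 + Real.log |(s : ℝ)|))
    refine ⟨D₃ + 1, ?_⟩
    intro D hD
    have hDpos : (0 : ℝ) < D := by
      have : 0 < D := by omega
      exact_mod_cast this
    have h4 := h3 D (by omega)
    have h5 : (D : ℝ) ^ (1 / 2 + ε) = (D : ℝ) ^ (1 / 2 + ε / 2) * (D : ℝ) ^ (ε / 2) := by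
      rw [← Real.rpow_add hDpos]
      congr 1
      ring
    rw [h5]
    exact mul_le_mul_of_nonneg_left h4 (Real.rpow_nonneg hDpos.le _)
  refine ⟨max (max D₁ (max D₂ D₃)) (max A (pr L + 1)), ?_⟩
  intro a c D ha hc hDa hρa hρc hD h24
  have hcR : (0 : ℝ) < c := by exact_mod_cast hc.pos
  have haR : (0 : ℝ) < a := by exact_mod_cast ha.pos
  have hacR : (a : ℝ) < c := by nlinarith
  have hac : a < c := by exact_mod_cast hacR
  have haD : a ≤ D := by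
    rw [hD]
    have h1 := pr_pos L hL
    calc a = 1 * a * 1 := by ring
      _ ≤ pr L * a * c := Nat.mul_le_mul (Nat.mul_le_mul_right a h1) hc.pos
  have hDD₁ : D₁ ≤ D := (le_trans (le_trans (le_max_left _ _) (le_max_left _ _)) hDa).trans haD
  have hDD₂ : D₂ ≤ D := (le_trans (le_trans (le_trans (le_max_left _ _) (le_max_right _ _))
    (le_max_left _ _)) hDa).trans haD
  have hDD₃ : D₃ ≤ D := (le_trans (le_trans (le_trans (le_max_right _ _) (le_max_right _ _))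
    (le_max_left _ _)) hDa).trans haD
  have hAa : A ≤ a := le_trans (le_trans (le_max_left _ _) (le_max_right _ _)) hDa
  have hLa : pr L < a := lt_of_lt_of_le (Nat.lt_succ_self _)
    (le_trans (le_trans (le_max_right _ _) (le_max_right _ _)) hDa)
  have hsq : Squarefree D := by
    rw [hD, Nat.squarefree_mul_iff, Nat.squarefree_mul_iff]
    refine ⟨?_, ⟨?_, pr_sqf L hL, ha.prime.squarefree⟩, hc.prime.squarefree⟩
    · rw [Nat.coprime_comm, hc.coprime_iff_not_dvd, hc.dvd_mul]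
      rintro (h | h)
      · have := Nat.le_of_dvd (pr_pos L hL) h
        omega
      · have := Nat.le_of_dvd ha.pos h
        omega
    · rw [Nat.coprime_comm, ha.coprime_iff_not_dvd]
      intro h
      have := Nat.le_of_dvd (pr_pos L hL) h
      omega
  have hDo : Odd D := Nat.odd_iff.2 (by omega)
  obtain ⟨Q, hQ⟩ := h_CMP D hsq h24
  have hroot : aeval (((r : ℝ) / s : ℝ) : ℂ) Q ≠ 0 := hD₂ D Q hDD₂ hsq hQ
  have hrootR : aeval ((r : ℝ) / s) Q ≠ 0 := by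
    intro h
    apply hroot
    have h2 : aeval (((r : ℝ) / s : ℝ) : ℂ) Q = ((aeval ((r : ℝ) / s) Q : ℝ) : ℂ) := by
      rw [← Complex.coe_algebraMap, aeval_algebraMap_apply]
    rw [h2, h]
    simp
  have hneg : aeval ((r : ℝ) / s) Q < 0 :=
    lt_of_le_of_ne (hP a c D Q ha hc hAa hρa hρc hD hsq hDo hQ) hrootR
  have hspos : 0 < (s : ℝ) ^ Q.natDegree := hQ.even.pow_pos hs'
  have hvR := OUT_hvR Q r s hs
  have hvneg : SSP.hv Q r s < 0 := by
    have : ((SSP.hv Q r s : ℤ) : ℝ) < 0 := by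
      rw [hvR]
      exact mul_neg_of_pos_of_neg hspos hneg
    exact_mod_cast this
  refine ⟨Q, hQ.monic, hQ.pos, ?_, ne_of_lt hvneg, ?_, ?_⟩
  · intro x hx
    obtain ⟨h1, h2⟩ := hQ.nz x hx
    exact ⟨h1, h2, (hQ.roots x).mp hx⟩
  · obtain ⟨hs1, hs2⟩ := hD₁ D Q hDD₁ hQ
    rw [hvR, abs_mul, abs_pow]
    have habs : 1 ≤ |(s : ℝ)| := by
      have : (1 : ℤ) ≤ |s| := Int.one_le_abs hs
      exact_mod_cast this
    have hlog : 0 ≤ Real.log |(s : ℝ)| := Real.log_nonneg habs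
    have h1 : |(s : ℝ)| ^ Q.natDegree = Real.exp (Q.natDegree * Real.log |(s : ℝ)|) := by
      rw [Real.exp_nat_mul, Real.exp_log (by linarith)]
    rw [h1]
    calc Real.exp (Q.natDegree * Real.log |(s : ℝ)|) * |aeval ((r : ℝ) / s) Q|
        ≤ Real.exp ((D : ℝ) ^ (1 / 2 + ε / 2) * Real.log |(s : ℝ)|) *
            Real.exp ((D : ℝ) ^ (1 / 2 + ε / 2)) := by
          refine mul_le_mul (Real.exp_le_exp.mpr (mul_le_mul_of_nonneg_right hs2 hlog)) hs1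
            (abs_nonneg _) (Real.exp_pos _).le
      _ = Real.exp ((D : ℝ) ^ (1 / 2 + ε / 2) * (1 + Real.log |(s : ℝ)|)) := by
          rw [← Real.exp_add]
          congr 1
          ring
      _ ≤ Real.exp ((D : ℝ) ^ (1 / 2 + ε)) := Real.exp_le_exp.mpr (hD₃ D hDD₃)
  · by_cases hex : ∃ ℓ : ℕ, ℓ.Prime ∧ ℓ ∣ D ∧ (ℓ : ℤ) ∣ SSP.hv Q r s
    · exact Or.inl hex
    · right
      refine h_JAC D (SSP.hv Q r s) hsq (by omega) hvneg ?_
      intro ℓ hℓ hℓD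
      refine ⟨fun h => hex ⟨ℓ, hℓ, hℓD, h⟩, ?_⟩
      obtain ⟨S, hS⟩ := hQ.sq ℓ hℓ hℓD
      exact OUT_hvZ Q hQ.monic r s ℓ hℓ S hS

end SSL
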