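import Pool.Agent.SSM.ALL
import Pool.Agent.SSL.OUTL

/-!
# MP_d74fca_nt, project SSL, part S: unconditional form (helper58)
-/

set_option autoImplicit false

namespace SSL

open SSM in
/-- OUTL, unconditionally -/
theorem outl : T_OUTL :=
  have hLAT := p_LAT
  have hINJ := p_INJ p_EIS hLAT
  have hINV := p_INV
  have hFUN := p_FUN
  have hHNF := p_HNF
  have hJEX := p_JEX
  have hJBD := p_JBD hJEX
  have hRNG := p_RNG
  have hUNX := p_UNX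
  have hPER := p_PER hUNX
  have hPRM := p_PRM hHNF hINV
  have hPOL := p_POL hJEX hINV hUNX
  have hMPI := p_MPI (p_ESM hJEX hRNG hPER hPRM) (p_PSM hJEX hRNG) hPOL hJBD hPRM
  have hKRO := p_KRO hJEX hRNG p_KR0 (p_KR1 hJEX) (p_KR2 hJEX) (p_KR3 hJEX hUNX) hINV
  have hSYM := p_SYM hHNF hINV hJBD
  have hSPE := p_SPE
  have hRE1 := p_RE1 hINV hINJ hSPE hJBD
  have hRE2 := p_RE2 hINV hINJ hSPE hJBD
  have hCMP := p_CMP hINV (p_SUR hINV hFUN) hHNF hMPI (p_LDC hJBD) p_DEC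
    (p_SQD hMPI hSYM hKRO) p_SQM (p_ELL hINJ hSPE) (p_MUL hINV hINJ p_DER)
    (p_PAR hINV hSPE hINJ hHNF)
  p_OUTL hRE1 hRE2 (p_SG1 hINV hRE1) (p_SG2 hINV hRE2) hCMP (p_NVN hINJ)
    (p_SIZ (p_RDS hINV hFUN) hJBD p_TAU) p_JAC

end SSL
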