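import Pool.Agent.SSL.Targets
import Pool.Agent.SSW.SCL

/-!
# MP_d74fca_nt (supersingular primes): SCX, scaling of the model with torsion data
-/

set_option autoImplicit false

open Polynomial

namespace SSL

open SSA SSP

namespace SCX_

open SSW.SCL_

variable {k : Type} [Field k]

/-- values of numerator and denominator of the scaled function -/
theorem eval_scale {v : k} (hv : v ≠ 0) (g : RatFunc k) (x : k) : ∃ w : k, w ≠ 0 ∧
    v * g.num.eval x = (RatFunc.C v * psi hv g).num.eval (v * x) * w ∧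
    g.denom.eval x = (RatFunc.C v * psi hv g).denom.eval (v * x) * w := by
  obtain ⟨f1, f2, f3, -, -⟩ := frac hv g
  obtain ⟨w, hw, h1, h2⟩ := numden f1 f2 f3
  have hx : v⁻¹ * (v * x) = x := by rw [← mul_assoc, inv_mul_cancel₀ hv, one_mul]
  refine ⟨w, hw, ?_, ?_⟩
  · have e := congrArg (eval (v * x)) h1
    rw [eval_mul, eval_C, eval_comp, eval_mul, eval_C, eval_X, hx, eval_mul, eval_C] at e
    exact e
  · have e := congrArg (eval (v * x)) h2
    rw [eval_comp, eval_mul, eval_C, eval_X, hx, eval_mul, eval_C] at e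
    exact e

/-- poles of the scaled function -/
theorem pole_scale {v : k} (hv : v ≠ 0) (g : RatFunc k) (x : k) :
    (RatFunc.C v * psi hv g).denom.eval (v * x) = 0 ↔ g.denom.eval x = 0 := by
  obtain ⟨w, hw, -, h2⟩ := eval_scale hv g x
  rw [h2]
  constructor
  · intro h
    rw [h, zero_mul]
  · intro h
    exact (mul_eq_zero.1 h).resolve_right hw

/-- values of the scaled function -/
theorem evk_scale {v : k} (hv : v ≠ 0) (g : RatFunc k) (x : k) :
    evk (RatFunc.C v * psi hv g) (v * x) = v * evk g x := by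
  obtain ⟨w, hw, h1, h2⟩ := eval_scale hv g x
  rw [evk, evk, ← mul_div_assoc, h1, h2, mul_div_mul_right _ _ hw]

end SCX_

open SCX_ SSW.SCL_ in
/-- SCX: scaling of the model, with torsion data -/
theorem p_SCX (h1 : SSA.T_API) (h2 : SSA.T_RFC) (h3 : SSA.T_RFD) : T_SCX := by
  intro k _ a b v h hv c D α hD hdeg hcomp htor
  have hv' : RatFunc.C v ≠ (0 : RatFunc k) := (_root_.map_ne_zero _).2 hv
  obtain ⟨txy, tadd, t0, tneg, tid⟩ := Psi_spec h1 h hv
  have tsub : ∀ P Q : MM a b, Psi hv (P - Q) = Psi hv P - Psi hv Q := by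
    intro P Q
    rw [sub_eq_add_neg, tadd, tneg, sub_eq_add_neg]
  have tsmul : ∀ (n : ℕ) (P : MM a b), Psi hv (n • P) = n • Psi hv P := by
    intro n P
    induction n with
    | zero => rw [zero_nsmul, zero_nsmul, t0]
    | succ n ih => rw [succ_nsmul, succ_nsmul, tadd, ih]
  have xid : ∀ n : ℕ, xr (n • idM (v ^ 2 * a) (v ^ 3 * b)) =
      RatFunc.C v * psi hv (xr (n • idM a b)) := by
    intro n
    rw [← tid, ← tsmul, (txy _).1]
  refine ⟨Psi hv α, ?_, ?_, ?_, ?_⟩
  · obtain ⟨-, -, dmul, -, -, -, -, dC, dX⟩ := h3 k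
    obtain ⟨-, -, -, -, -, -, -, -, -, -, -, hch, -⟩ := h2 k (uu v) (uu_ne hv)
    have e1 : ∀ g, rder (psi hv g) = psi hv (rder g) * RatFunc.C v⁻¹ := by
      intro g
      have e2 : psi hv g = rcomp g (uu v) := RFC_.Phi_eq _ _ _
      have e3 : psi hv (rder g) = rcomp (rder g) (uu v) := RFC_.Phi_eq _ _ _
      rw [e2, e3, hch, uu, dmul, dC, dX, zero_mul, zero_add, mul_one]
    have e4 : DD (Psi hv α) = psi hv (DD α) := by
      rw [DD, DD, (txy α).1, (txy α).2, dmul, dC, zero_mul, zero_add, e1, map_div₀, map_inv₀]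
      field_simp
    rw [e4, hD, psi_C]
  · obtain ⟨f1, f2, f3, f4, f5⟩ := frac hv (xr α)
    obtain ⟨n1, n2⟩ := natDegree_mk f1 f2 f3
    rw [(txy α).1, n1, n2, f4, f5]
    exact hdeg
  · intro x
    rw [← tid, ← tsmul, ← tadd, ← tsub, ← tsmul, (txy _).1, (txy _).1, (txy _).1, rcomp_scale,
      hcomp]
  · intro l hl hl2 hlD hlD2
    obtain ⟨x₀, p1, p2, p3⟩ := htor l hl hl2 hlD hlD2
    refine ⟨v * x₀, ?_, ?_, ?_⟩
    · rw [(txy α).1, pole_scale]
      exact p1
    · rw [xid, pole_scale]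
      exact p2
    · intro y' q1 q2
      have hy : y' = v * (v⁻¹ * y') := by rw [← mul_assoc, mul_inv_cancel₀ hv, one_mul]
      rw [(txy α).1, hy, pole_scale] at q1
      rw [xid, hy, pole_scale] at q2
      obtain ⟨n, n0, nl, n1, n2⟩ := p3 _ q1 q2
      refine ⟨n, n0, nl, ?_, ?_⟩
      · rw [xid, Ne, pole_scale]
        exact n1
      · rw [xid, evk_scale, ← n2]
        exact hy

end SSL
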