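import Pool.Agent.SSL.Targets

/-!
# SPH: specialization of points is a homomorphism (helper62)

Three nonzero points with sum zero lie on a line `y = l x + m`; this gives three symmetric
identities, which specialize.
-/

set_option autoImplicit false
set_option maxHeartbeats 4000000
set_option linter.unusedSectionVars false

open Polynomial

namespace SSL

open SSA SSP

namespace SPH_

variable {k : Type} [Field k]

/-- `R` is regular at `x` with value `v` -/
def V (x : k) (R : RatFunc k) (v : k) : Prop := R.denom.eval x ≠ 0 ∧ evk R x = v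

lemma core (A B : k[X]) (x : k) (hB : B.eval x ≠ 0) :
    V x (algebraMap k[X] (RatFunc k) A / algebraMap k[X] (RatFunc k) B) (A.eval x / B.eval x) := by
  have hB0 : B ≠ 0 := by
    rintro rfl
    simp at hB
  have hd : (algebraMap k[X] (RatFunc k) A / algebraMap k[X] (RatFunc k) B).denom.eval x ≠ 0 := by
    intro h
    obtain ⟨E, hE⟩ := RatFunc.denom_div_dvd A B
    apply hB
    rw [hE, eval_mul, h, zero_mul]
  refine ⟨hd, ?_⟩
  set R := algebraMap k[X] (RatFunc k) A / algebraMap k[X] (RatFunc k) B with hR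
  have hcross : R.num * B = A * R.denom := by
    have h1 : algebraMap k[X] (RatFunc k) R.num / algebraMap k[X] (RatFunc k) R.denom
        = algebraMap k[X] (RatFunc k) A / algebraMap k[X] (RatFunc k) B := by
      rw [RatFunc.num_div_denom]
    rw [div_eq_div_iff (RatFunc.algebraMap_ne_zero R.denom_ne_zero)
      (RatFunc.algebraMap_ne_zero hB0), ← map_mul, ← map_mul] at h1
    exact RatFunc.algebraMap_injective k h1
  have h2 := congrArg (fun P : k[X] => P.eval x) hcross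
  simp only [eval_mul] at h2
  unfold evk
  rw [div_eq_div_iff hd hB]
  exact h2

lemma of_eq {T : RatFunc k} {A B : k[X]} {x : k} (hB : B.eval x ≠ 0)
    (h : T = algebraMap k[X] (RatFunc k) A / algebraMap k[X] (RatFunc k) B) :
    V x T (A.eval x / B.eval x) := by
  rw [h]; exact core A B x hB

lemma rep (R : RatFunc k) :
    R = algebraMap k[X] (RatFunc k) R.num / algebraMap k[X] (RatFunc k) R.denom :=
  (RatFunc.num_div_denom R).symm

lemma dnz (R : RatFunc k) : algebraMap k[X] (RatFunc k) R.denom ≠ 0 :=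
  RatFunc.algebraMap_ne_zero R.denom_ne_zero

variable {x : k} {R S : RatFunc k} {v w : k}

lemma V_unique (h1 : V x R v) (h2 : V x R w) : v = w := h1.2.symm.trans h2.2

lemma V_self (h : R.denom.eval x ≠ 0) : V x R (evk R x) := ⟨h, rfl⟩

lemma V_congr {T : RatFunc k} (h : V x R v) (e : R = T) : V x T v := e ▸ h

lemma V_val (h : V x R v) (e : v = w) : V x R w := e ▸ h

lemma V_add (h1 : V x R v) (h2 : V x S w) : V x (R + S) (v + w) := by
  have h : R + S = algebraMap k[X] (RatFunc k) (R.num * S.denom + R.denom * S.num) /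
      algebraMap k[X] (RatFunc k) (R.denom * S.denom) := by
    conv_lhs => rw [rep R, rep S]
    rw [div_add_div _ _ (dnz R) (dnz S)]
    simp only [map_mul, map_add]
  refine V_val (of_eq (x := x) (by rw [eval_mul]; exact mul_ne_zero h1.1 h2.1) h) ?_
  rw [← h1.2, ← h2.2]
  unfold evk
  rw [div_add_div _ _ h1.1 h2.1]
  simp only [eval_mul, eval_add]

lemma V_mul (h1 : V x R v) (h2 : V x S w) : V x (R * S) (v * w) := by
  have h : R * S = algebraMap k[X] (RatFunc k) (R.num * S.num) /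
      algebraMap k[X] (RatFunc k) (R.denom * S.denom) := by
    conv_lhs => rw [rep R, rep S]
    rw [div_mul_div_comm]
    simp only [map_mul]
  refine V_val (of_eq (x := x) (by rw [eval_mul]; exact mul_ne_zero h1.1 h2.1) h) ?_
  rw [← h1.2, ← h2.2]
  unfold evk
  rw [div_mul_div_comm]
  simp only [eval_mul]

lemma V_C (c : k) : V x (RatFunc.C c) c := by
  have h1 := of_eq (T := RatFunc.C c) (A := C c) (B := 1) (x := x) (by simp)
    (by rw [map_one, div_one, RatFunc.algebraMap_C])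
  exact V_val h1 (by simp)

lemma V_X : V x RatFunc.X x := by
  have h1 := of_eq (T := RatFunc.X) (A := X) (B := 1) (x := x) (by simp)
    (by rw [map_one, div_one, RatFunc.algebraMap_X])
  exact V_val h1 (by simp)

lemma V_one : V x 1 1 := by
  have h1 := V_C (x := x) (1 : k)
  rw [map_one] at h1
  exact h1

lemma V_num (n : ℕ) [n.AtLeastTwo] : V x (OfNat.ofNat n : RatFunc k) (OfNat.ofNat n : k) := by
  have h1 := V_C (x := x) (OfNat.ofNat n : k)
  rw [map_ofNat] at h1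
  exact h1

lemma V_neg (h1 : V x R v) : V x (-R) (-v) := by
  have h2 := V_mul (V_C (x := x) (-1)) h1
  refine V_val (V_congr h2 ?_) (by ring)
  rw [map_neg, map_one]
  ring

lemma V_sub (h1 : V x R v) (h2 : V x S w) : V x (R - S) (v - w) := by
  rw [sub_eq_add_neg, sub_eq_add_neg]
  exact V_add h1 (V_neg h2)

lemma V_sq (h1 : V x R v) : V x (R ^ 2) (v ^ 2) := by
  rw [pow_two, pow_two]
  exact V_mul h1 h1

lemma V_pow3 (h1 : V x R v) : V x (R ^ 3) (v ^ 3) := by
  rw [pow_succ, pow_succ v]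
  exact V_mul (V_sq h1) h1

lemma V_inv (h1 : V x R v) (hv : v ≠ 0) : V x R⁻¹ v⁻¹ := by
  have hn : R.num.eval x ≠ 0 := by
    intro h0
    apply hv
    rw [← h1.2]
    unfold evk
    rw [h0, zero_div]
  have h : R⁻¹ = algebraMap k[X] (RatFunc k) R.denom / algebraMap k[X] (RatFunc k) R.num := by
    conv_lhs => rw [rep R]
    rw [inv_div]
  refine V_val (of_eq (x := x) hn h) ?_
  rw [← h1.2]
  unfold evk
  rw [inv_div]

lemma V_div (h1 : V x R v) (h2 : V x S w) (hw : w ≠ 0) : V x (R / S) (v / w) := by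
  rw [div_eq_mul_inv, div_eq_mul_inv]
  exact V_mul h1 (V_inv h2 hw)

/-- a pole -/
lemma V_pole (h : ¬ R.denom.eval x ≠ 0) : V x R⁻¹ 0 := by
  rw [not_not] at h
  have hn : R.num.eval x ≠ 0 := by
    intro h0
    obtain ⟨u, v, huv⟩ := RatFunc.isCoprime_num_denom R
    have h1 := congrArg (fun P : k[X] => P.eval x) huv
    simp only [eval_add, eval_mul, eval_one, h0, h, mul_zero, add_zero] at h1
    exact zero_ne_one h1
  have h2 : R⁻¹ = algebraMap k[X] (RatFunc k) R.denom / algebraMap k[X] (RatFunc k) R.num := by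
    conv_lhs => rw [rep R]
    rw [inv_div]
  refine V_val (of_eq (x := x) hn h2) ?_
  rw [h, zero_div]

lemma V_zero : V x 0 0 := by
  have h1 := V_C (x := x) (0 : k)
  rw [map_zero] at h1
  exact h1

lemma ne_zero_of_pole (h : ¬ R.denom.eval x ≠ 0) : R ≠ 0 := by
  rintro rfl
  exact h V_zero.1

/-- a function with regular square is regular -/
lemma reg_of_sq (h : V x (R ^ 2) v) : R.denom.eval x ≠ 0 := by
  by_contra hc'
  have hc : ¬ R.denom.eval x ≠ 0 := not_not.2 hc'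
  have h0 := ne_zero_of_pole hc
  have h1 := V_mul h (V_sq (V_pole hc))
  have h2 : R ^ 2 * R⁻¹ ^ 2 = 1 := by
    rw [← mul_pow, mul_inv_cancel₀ h0, one_pow]
  have h3 := V_unique (V_congr h1 h2) V_one
  simp at h3

section curve

variable {a b x₀ y₀ : k}

lemma V_ff : V x (ff a b) (x ^ 3 + a * x + b) := by
  unfold ff
  exact V_add (V_add (V_pow3 V_X) (V_mul (V_C a) V_X)) (V_C b)

lemma V_ev (h : V x R v) : V x (ev a b R) (v ^ 3 + a * v + b) := by
  unfold ev
  exact V_add (V_add (V_pow3 h) (V_mul (V_C a) h)) (V_C b)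

/-- three points on a line -/
def Line (a b : k) (P Q R : MM a b) : Prop := ∃ l m : RatFunc k,
  yr P = l * xr P + m ∧ yr Q = l * xr Q + m ∧ yr R = l * xr R + m ∧
  xr P + xr Q + xr R = ff a b * l ^ 2 ∧
  xr P * xr Q + xr P * xr R + xr Q * xr R = RatFunc.C a - 2 * ff a b * l * m ∧
  xr P * xr Q * xr R = ff a b * m ^ 2 - RatFunc.C b

lemma Line.rot {P Q R : MM a b} (h : Line a b P Q R) : Line a b Q R P := by
  obtain ⟨l, m, h1, h2, h3, h4, h5, h6⟩ := h
  exact ⟨l, m, h2, h3, h1, by linear_combination h4, by linear_combination h5,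
    by linear_combination h6⟩

lemma two_ne (h : Hyp a b) : (2 : RatFunc k) ≠ 0 := by
  have := (map_ne_zero (RatFunc.C : k →+* RatFunc k)).2 h.two
  rwa [map_ofNat] at this

lemma line (h1 : T_API) (hyp : Hyp a b) {P Q R : MM a b} (hP : P ≠ 0) (hQ : Q ≠ 0) (hR : R ≠ 0)
    (hs : P + Q + R = 0) : Line a b P Q R := by
  obtain ⟨a0, -, -, a3, a4, a5, a6, a7, a8⟩ := h1 k a b hyp
  have hR' : R = -(P + Q) := by
    rw [eq_neg_iff_add_eq_zero, add_comm]
    exact hs
  have hPQ : P + Q ≠ 0 := by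
    intro h
    apply hR
    rw [hR', h, neg_zero]
  have hxR : xr R = xr (P + Q) := by rw [hR', (a4 _).1]
  have hyR : yr R = -yr (P + Q) := by rw [hR', (a4 _).2]
  have eP := (a3 P hP).1
  have eQ := (a3 Q hQ).1
  have h2 := two_ne hyp
  by_cases hx : xr P = xr Q
  · have hPQ' : P = Q := by
      rcases a5 P Q hP hQ hx with h | h
      · exact h
      · exact absurd (by rw [h, neg_add_cancel]) hPQ
    subst hPQ'
    have hy : yr P ≠ 0 := fun h => hPQ (a8 P h)
    obtain ⟨-, b1, b2⟩ := a7 P hP hy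
    rw [b1] at hxR
    rw [b2, b1, neg_neg] at hyR
    unfold ev at eP
    set f := ff a b
    set u := xr P
    set y := yr P
    obtain ⟨l, hl⟩ : ∃ l, l = (3 * u ^ 2 + RatFunc.C a) / (2 * f * y) := ⟨_, rfl⟩
    rw [← hl] at hxR hyR
    have hl' : 2 * f * y * l = 3 * u ^ 2 + RatFunc.C a := by
      rw [hl]
      field_simp
    refine ⟨l, y - l * u, by ring, by ring, ?_, ?_, ?_, ?_⟩
    · rw [hyR, hxR]
      ring
    · rw [hxR]
      ring
    · rw [hxR]
      linear_combination hl'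
    · rw [hxR]
      linear_combination (-1 : RatFunc k) * eP + u * hl'
  · obtain ⟨-, b1, b2⟩ := a6 P Q hP hQ hx
    rw [b1] at hxR
    rw [b2, b1, neg_neg] at hyR
    unfold ev at eP eQ
    have hd : xr P - xr Q ≠ 0 := sub_ne_zero.2 hx
    set f := ff a b
    set u := xr P
    set w := xr Q
    set y := yr P
    set z := yr Q
    obtain ⟨l, hl⟩ : ∃ l, l = (y - z) / (u - w) := ⟨_, rfl⟩
    rw [← hl] at hxR hyR
    have hl' : l * (u - w) = y - z := by
      rw [hl]
      field_simp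
    have hk : f * l * (y + z) = u ^ 2 + u * w + w ^ 2 + RatFunc.C a := by
      apply mul_left_cancel₀ hd
      linear_combination f * (y + z) * hl' + eP - eQ
    refine ⟨l, y - l * u, by ring, ?_, ?_, ?_, ?_, ?_⟩
    · linear_combination hl'
    · rw [hyR, hxR]
      ring
    · rw [hxR]
      ring
    · rw [hxR]
      linear_combination hk - f * l * hl'
    · rw [hxR]
      linear_combination (-1 : RatFunc k) * eP + u * hk - u * f * l * hl'

/-- nonsingular points of the curve -/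
lemma ns_iff (hyp : Hyp a b) (u v : k) : (Ek a b).toAffine.Nonsingular u v ↔
    v ^ 2 = u ^ 3 + a * u + b := by
  have hD : (Ek a b).Δ ≠ 0 := by
    have h1 : (Ek a b).Δ = -16 * (4 * a ^ 3 + 27 * b ^ 2) := by
      simp only [WeierstrassCurve.Δ, WeierstrassCurve.b₂, WeierstrassCurve.b₄, WeierstrassCurve.b₆,
        WeierstrassCurve.b₈, Ek]
      ring
    rw [h1]
    have h3 : (16 : k) ≠ 0 := by
      have : (16 : k) = 2 ^ 4 := by norm_num
      rw [this]
      exact pow_ne_zero _ hyp.two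
    exact mul_ne_zero (neg_ne_zero.2 h3) hyp.disc
  rw [← WeierstrassCurve.Affine.equation_iff_nonsingular_of_Δ_ne_zero hD,
    WeierstrassCurve.Affine.equation_iff]
  simp [Ek]

lemma negY_eq (u v : k) : (Ek a b).toAffine.negY u v = -v := by
  simp [WeierstrassCurve.Affine.negY, Ek]

lemma some_congr {u v u' v' : k} (h : (Ek a b).toAffine.Nonsingular u v)
    (h' : (Ek a b).toAffine.Nonsingular u' v') (hu : u = u') (hv : v = v') :
    WeierstrassCurve.Affine.Point.some u v h = .some u' v' h' := by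
  subst hu
  subst hv
  rfl

variable [DecidableEq k]

/-- points on a line have sum zero -/
lemma sum_zero (hyp : Hyp a b) {l m u₁ u₂ u₃ v₁ v₂ v₃ : k}
    (n₁ : (Ek a b).toAffine.Nonsingular u₁ v₁) (n₂ : (Ek a b).toAffine.Nonsingular u₂ v₂)
    (n₃ : (Ek a b).toAffine.Nonsingular u₃ v₃) (e₁ : v₁ = l * u₁ + m) (e₂ : v₂ = l * u₂ + m)
    (e₃ : v₃ = l * u₃ + m) (s₁ : u₁ + u₂ + u₃ = l ^ 2)
    (s₂ : u₁ * u₂ + u₁ * u₃ + u₂ * u₃ = a - 2 * l * m) (s₃ : u₁ * u₂ * u₃ = m ^ 2 - b) :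
    WeierstrassCurve.Affine.Point.some u₁ v₁ n₁ + .some u₂ v₂ n₂ + .some u₃ v₃ n₃ = 0 := by
  have key : ∀ (hs : (Ek a b).toAffine.slope u₁ u₂ v₁ v₂ = l)
      (hne : ¬ (u₁ = u₂ ∧ v₁ = (Ek a b).toAffine.negY u₂ v₂)),
      WeierstrassCurve.Affine.Point.some u₁ v₁ n₁ + .some u₂ v₂ n₂ + .some u₃ v₃ n₃ = 0 := by
    intro hs hne
    rw [← eq_neg_iff_add_eq_zero, WeierstrassCurve.Affine.Point.neg_some,
      WeierstrassCurve.Affine.Point.add_some hne]
    have hX : (Ek a b).toAffine.addX u₁ u₂ ((Ek a b).toAffine.slope u₁ u₂ v₁ v₂) = u₃ := by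
      rw [hs]
      simp only [WeierstrassCurve.Affine.addX, Ek]
      linear_combination (-1 : k) * s₁
    apply some_congr
    · exact hX
    · simp only [WeierstrassCurve.Affine.addY, WeierstrassCurve.Affine.negAddY, negY_eq, hX]
      rw [hs, e₃, e₁]
      ring
  by_cases hu : u₁ = u₂
  · subst hu
    have hv : v₁ = v₂ := e₁.trans e₂.symm
    subst hv
    have hl : 2 * v₁ * l = 3 * u₁ ^ 2 + a := by
      rw [e₁]
      linear_combination s₂ - (2 * u₁) * s₁
    have hv0 : v₁ ≠ 0 := by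
      intro h0
      have c1 := (ns_iff hyp _ _).1 n₁
      rw [h0] at c1 hl
      have ha : a = -3 * u₁ ^ 2 := by linear_combination (-1 : k) * hl
      have hb : b = 2 * u₁ ^ 3 := by
        rw [ha] at c1
        linear_combination (-1 : k) * c1
      apply hyp.disc
      rw [ha, hb]
      ring
    have hne : v₁ ≠ (Ek a b).toAffine.negY u₁ v₁ := by
      rw [negY_eq]
      intro h0
      apply hv0
      have h1 : 2 * v₁ = 0 := by linear_combination h0
      exact (mul_eq_zero.1 h1).resolve_left hyp.two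
    apply key
    · rw [WeierstrassCurve.Affine.slope_of_Y_ne rfl hne, negY_eq]
      simp only [Ek]
      have h3 : v₁ - -v₁ ≠ 0 := by
        rw [sub_neg_eq_add, ← two_mul]
        exact mul_ne_zero hyp.two hv0
      rw [div_eq_iff h3]
      linear_combination (-1 : k) * hl
    · intro h
      exact hne h.2
  · apply key
    · rw [WeierstrassCurve.Affine.slope_of_X_ne hu, div_eq_iff (sub_ne_zero.2 hu), e₁, e₂]
      ring
    · intro h
      exact hu h.1

open Classical in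
/-- the specialization -/
noncomputable def psi (a b x₀ y₀ : k) (P : MM a b) : (Ek a b).toAffine.Point :=
  if h : P ≠ 0 ∧ (xr P).denom.eval x₀ ≠ 0 ∧
    (Ek a b).toAffine.Nonsingular (evk (xr P) x₀) (y₀ * evk (yr P) x₀) then
    .some _ _ h.2.2 else 0

/-- the hypotheses -/
structure Dt (a b x₀ y₀ : k) : Prop where
  api : T_API
  hyp : Hyp a b
  eq : y₀ ^ 2 = x₀ ^ 3 + a * x₀ + b
  ne : y₀ ≠ 0

lemma Dt.f0 (D : Dt a b x₀ y₀) : x₀ ^ 3 + a * x₀ + b ≠ 0 := by
  rw [← D.eq]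
  exact pow_ne_zero 2 D.ne

lemma Dt.V_ff (D : Dt a b x₀ y₀) : V x₀ (ff a b) (y₀ ^ 2) := by
  rw [D.eq]
  exact SPH_.V_ff

lemma reg_y (D : Dt a b x₀ y₀) {P : MM a b} (hP : P ≠ 0) (hx : (xr P).denom.eval x₀ ≠ 0) :
    (yr P).denom.eval x₀ ≠ 0 := by
  obtain ⟨a0, -, -, a3, -⟩ := D.api k a b D.hyp
  have eP := (a3 P hP).1
  have h1 := V_div (V_ev (a := a) (b := b) (V_self hx)) D.V_ff (pow_ne_zero 2 D.ne)
  apply reg_of_sq (v := _) (V_congr h1 _)
  rw [← eP]
  field_simp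

lemma ns (D : Dt a b x₀ y₀) {P : MM a b} (hP : P ≠ 0) (hx : (xr P).denom.eval x₀ ≠ 0) :
    (Ek a b).toAffine.Nonsingular (evk (xr P) x₀) (y₀ * evk (yr P) x₀) := by
  obtain ⟨a0, -, -, a3, -⟩ := D.api k a b D.hyp
  have eP := (a3 P hP).1
  rw [ns_iff D.hyp]
  have h1 := V_mul D.V_ff (V_sq (V_self (reg_y D hP hx)))
  have h2 := V_unique (V_congr h1 eP) (V_ev (a := a) (b := b) (V_self hx))
  rw [mul_pow]
  exact h2

lemma psi_reg (D : Dt a b x₀ y₀) {P : MM a b} (hP : P ≠ 0) (hx : (xr P).denom.eval x₀ ≠ 0) :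
    psi a b x₀ y₀ P = .some _ _ (ns D hP hx) := by
  unfold psi
  rw [dif_pos ⟨hP, hx, ns D hP hx⟩]

lemma psi_pole {P : MM a b} (hx : ¬ (xr P).denom.eval x₀ ≠ 0) : psi a b x₀ y₀ P = 0 := by
  unfold psi
  rw [dif_neg fun h => hx h.2.1]

lemma psi_zero : psi a b x₀ y₀ 0 = 0 := by
  unfold psi
  rw [dif_neg fun h => h.1 rfl]

lemma psi_neg (D : Dt a b x₀ y₀) (P : MM a b) : psi a b x₀ y₀ (-P) = - psi a b x₀ y₀ P := by
  obtain ⟨a0, -, -, a3, a4, -⟩ := D.api k a b D.hyp
  by_cases hP : P = 0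
  · rw [hP, neg_zero, psi_zero, neg_zero]
  by_cases hx : (xr P).denom.eval x₀ ≠ 0
  · have hP' : -P ≠ 0 := neg_ne_zero.2 hP
    have hx' : (xr (-P)).denom.eval x₀ ≠ 0 := by rw [(a4 P).1]; exact hx
    rw [psi_reg D hP hx, psi_reg D hP' hx', WeierstrassCurve.Affine.Point.neg_some]
    apply some_congr
    · rw [(a4 P).1]
    · rw [negY_eq, (a4 P).2, ← mul_neg]
      congr 1
      exact (V_neg (V_self (reg_y D hP hx))).2
  · rw [psi_pole hx, psi_pole (by rw [(a4 P).1]; exact hx), neg_zero]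

/-- all three regular -/
lemma B1 (D : Dt a b x₀ y₀) {P Q R : MM a b} (hP : P ≠ 0) (hQ : Q ≠ 0) (hR : R ≠ 0)
    (hL : Line a b P Q R) (rP : (xr P).denom.eval x₀ ≠ 0) (rQ : (xr Q).denom.eval x₀ ≠ 0)
    (rR : (xr R).denom.eval x₀ ≠ 0) :
    psi a b x₀ y₀ P + psi a b x₀ y₀ Q + psi a b x₀ y₀ R = 0 := by
  obtain ⟨a0, -⟩ := D.api k a b D.hyp
  obtain ⟨l, m, h1, h2, h3, h4, h5, h6⟩ := hL
  have vP := V_self rP
  have vQ := V_self rQ
  have vR := V_self rR
  have wP := V_self (reg_y D hP rP)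
  have wQ := V_self (reg_y D hQ rQ)
  have wR := V_self (reg_y D hR rR)
  have hl2 := V_div (V_add (V_add vP vQ) vR) D.V_ff (pow_ne_zero 2 D.ne)
  have rl : l.denom.eval x₀ ≠ 0 := by
    apply reg_of_sq (v := _) (V_congr hl2 _)
    rw [h4]
    field_simp
  have vl := V_self rl
  have hm : m = yr P - l * xr P := by rw [h1]; ring
  have vm : V x₀ m (evk (yr P) x₀ - evk l x₀ * evk (xr P) x₀) :=
    V_congr (V_sub wP (V_mul vl vP)) hm.symm
  have g2 : evk (yr Q) x₀ = evk l x₀ * evk (xr Q) x₀ +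
      (evk (yr P) x₀ - evk l x₀ * evk (xr P) x₀) :=
    V_unique wQ (V_congr (V_add (V_mul vl vQ) vm) h2.symm)
  have g3 : evk (yr R) x₀ = evk l x₀ * evk (xr R) x₀ +
      (evk (yr P) x₀ - evk l x₀ * evk (xr P) x₀) :=
    V_unique wR (V_congr (V_add (V_mul vl vR) vm) h3.symm)
  have g4 := V_unique (V_congr (V_add (V_add vP vQ) vR) h4) (V_mul D.V_ff (V_sq vl))
  have g5 := V_unique
    (V_congr (V_add (V_add (V_mul vP vQ) (V_mul vP vR)) (V_mul vQ vR)) h5)
    (V_sub (V_C a) (V_mul (V_mul (V_mul (V_num 2) D.V_ff) vl) vm))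
  have g6 := V_unique (V_congr (V_mul (V_mul vP vQ) vR) h6)
    (V_sub (V_mul D.V_ff (V_sq vm)) (V_C b))
  rw [psi_reg D hP rP, psi_reg D hQ rQ, psi_reg D hR rR]
  refine sum_zero D.hyp (l := y₀ * evk l x₀)
    (m := y₀ * (evk (yr P) x₀ - evk l x₀ * evk (xr P) x₀)) _ _ _ ?_ ?_ ?_ ?_ ?_ ?_
  · ring
  · rw [g2]
    ring
  · rw [g3]
    ring
  · linear_combination g4
  · linear_combination g5
  · linear_combination g6

/-- two regular, one pole -/
lemma B2 (D : Dt a b x₀ y₀) {P Q R : MM a b} (hP : P ≠ 0) (hQ : Q ≠ 0)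
    (hL : Line a b P Q R) (rP : (xr P).denom.eval x₀ ≠ 0) (rQ : (xr Q).denom.eval x₀ ≠ 0)
    (rR : ¬ (xr R).denom.eval x₀ ≠ 0) :
    psi a b x₀ y₀ P + psi a b x₀ y₀ Q = 0 := by
  obtain ⟨a0, -⟩ := D.api k a b D.hyp
  obtain ⟨l, m, h1, h2, h3, h4, h5, h6⟩ := hL
  have vP := V_self rP
  have vQ := V_self rQ
  have wP := V_self (reg_y D hP rP)
  have wQ := V_self (reg_y D hQ rQ)
  have rl : ¬ l.denom.eval x₀ ≠ 0 := by
    intro hl
    apply rR
    have h7 : xr R = ff a b * l ^ 2 - xr P - xr Q := by linear_combination h4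
    exact (V_congr (V_sub (V_sub (V_mul D.V_ff (V_sq (V_self hl))) vP) vQ) h7.symm).1
  have l0 := ne_zero_of_pole rl
  have vl := V_pole rl
  have e1 : l⁻¹ * (yr P - yr Q) = xr P - xr Q := by
    rw [h1, h2]
    field_simp
    ring
  have g1 := V_unique (V_congr (V_mul vl (V_sub wP wQ)) e1) (V_sub vP vQ)
  have hk : ff a b * l * (yr P + yr Q) =
      xr P ^ 2 + xr P * xr Q + xr Q ^ 2 + RatFunc.C a := by
    rw [h1, h2]
    linear_combination h5 - (xr P + xr Q) * h4
  have e2 : l⁻¹ * (xr P ^ 2 + xr P * xr Q + xr Q ^ 2 + RatFunc.C a) / ff a b =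
      yr P + yr Q := by
    rw [← hk]
    field_simp
  have g2 := V_unique (V_congr (V_div (V_mul vl (V_add (V_add (V_add (V_sq vP) (V_mul vP vQ))
    (V_sq vQ)) (V_C a))) D.V_ff (pow_ne_zero 2 D.ne)) e2) (V_add wP wQ)
  rw [zero_mul] at g1
  rw [zero_mul, zero_div] at g2
  rw [psi_reg D hP rP, psi_reg D hQ rQ, ← eq_neg_iff_add_eq_zero,
    WeierstrassCurve.Affine.Point.neg_some]
  apply some_congr
  · linear_combination (-1 : k) * g1
  · rw [negY_eq]
    linear_combination (-y₀) * g2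

/-- one regular, two poles -/
lemma B3 (_D : Dt a b x₀ y₀) {P Q R : MM a b}
    (hL : Line a b P Q R) (rP : (xr P).denom.eval x₀ ≠ 0) (rQ : ¬ (xr Q).denom.eval x₀ ≠ 0)
    (rR : ¬ (xr R).denom.eval x₀ ≠ 0) : False := by
  obtain ⟨l, m, h1, h2, h3, h4, h5, h6⟩ := hL
  have vP := V_self rP
  have q0 := ne_zero_of_pole rQ
  have r0 := ne_zero_of_pole rR
  have vQ := V_pole rQ
  have vR := V_pole rR
  have e : 4 * (xr P * ((xr Q)⁻¹ * (xr R)⁻¹) + (xr R)⁻¹ + (xr Q)⁻¹) *
      (xr P + RatFunc.C b * ((xr Q)⁻¹ * (xr R)⁻¹)) =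
      (xr P * ((xr R)⁻¹ + (xr Q)⁻¹) + 1 - RatFunc.C a * ((xr Q)⁻¹ * (xr R)⁻¹)) ^ 2 := by
    have e0 : 4 * (xr P + xr Q + xr R) * (xr P * xr Q * xr R + RatFunc.C b) =
        (xr P * xr Q + xr P * xr R + xr Q * xr R - RatFunc.C a) ^ 2 := by
      rw [h4, h5, h6]
      ring
    have e1 : xr P * ((xr Q)⁻¹ * (xr R)⁻¹) + (xr R)⁻¹ + (xr Q)⁻¹ =
        (xr P + xr Q + xr R) * ((xr Q)⁻¹ * (xr R)⁻¹) := by
      field_simp
    have e2 : xr P + RatFunc.C b * ((xr Q)⁻¹ * (xr R)⁻¹) =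
        (xr P * xr Q * xr R + RatFunc.C b) * ((xr Q)⁻¹ * (xr R)⁻¹) := by
      field_simp
    have e3 : xr P * ((xr R)⁻¹ + (xr Q)⁻¹) + 1 - RatFunc.C a * ((xr Q)⁻¹ * (xr R)⁻¹) =
        (xr P * xr Q + xr P * xr R + xr Q * xr R - RatFunc.C a) * ((xr Q)⁻¹ * (xr R)⁻¹) := by
      field_simp
    rw [e1, e2, e3, mul_pow, ← e0]
    ring
  have g := V_unique (V_congr (V_mul (V_mul (V_num 4) (V_add (V_add (V_mul vP (V_mul vQ vR)) vR) vQ))
    (V_add vP (V_mul (V_C b) (V_mul vQ vR)))) e)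
    (V_sq (V_sub (V_add (V_mul vP (V_add vR vQ)) V_one) (V_mul (V_C a) (V_mul vQ vR))))
  simp at g

lemma triple (D : Dt a b x₀ y₀) {P Q R : MM a b} (hP : P ≠ 0) (hQ : Q ≠ 0) (hR : R ≠ 0)
    (hL : Line a b P Q R) :
    psi a b x₀ y₀ P + psi a b x₀ y₀ Q + psi a b x₀ y₀ R = 0 := by
  by_cases rP : (xr P).denom.eval x₀ ≠ 0
  · by_cases rQ : (xr Q).denom.eval x₀ ≠ 0
    · by_cases rR : (xr R).denom.eval x₀ ≠ 0
      · exact B1 D hP hQ hR hL rP rQ rR
      · rw [psi_pole rR, add_zero]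
        exact B2 D hP hQ hL rP rQ rR
    · by_cases rR : (xr R).denom.eval x₀ ≠ 0
      · rw [psi_pole rQ, add_zero, add_comm]
        exact B2 D hR hP hL.rot.rot rR rP rQ
      · exact (B3 D hL rP rQ rR).elim
  · by_cases rQ : (xr Q).denom.eval x₀ ≠ 0
    · by_cases rR : (xr R).denom.eval x₀ ≠ 0
      · rw [psi_pole rP, zero_add]
        exact B2 D hQ hR hL.rot rQ rR rP
      · exact (B3 D hL.rot rQ rR rP).elim
    · by_cases rR : (xr R).denom.eval x₀ ≠ 0
      · exact (B3 D hL.rot.rot rR rP rQ).elim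
      · rw [psi_pole rP, psi_pole rQ, psi_pole rR, add_zero, add_zero]

lemma psi_add (D : Dt a b x₀ y₀) (P Q : MM a b) :
    psi a b x₀ y₀ (P + Q) = psi a b x₀ y₀ P + psi a b x₀ y₀ Q := by
  by_cases hP : P = 0
  · rw [hP, zero_add, psi_zero, zero_add]
  by_cases hQ : Q = 0
  · rw [hQ, add_zero, psi_zero, add_zero]
  by_cases hR : P + Q = 0
  · have h1 : Q = -P := by
      rw [eq_neg_iff_add_eq_zero, add_comm]
      exact hR
    rw [hR, h1, psi_neg D, psi_zero, add_neg_cancel]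
  · have hR' : -(P + Q) ≠ 0 := neg_ne_zero.2 hR
    have hL := line D.api D.hyp hP hQ hR' (add_neg_cancel _)
    have h := triple D hP hQ hR' hL
    rw [psi_neg D, ← sub_eq_add_neg, sub_eq_zero] at h
    exact h.symm

end curve

end SPH_

open SPH_ in
theorem p_SPH (h1 : SSA.T_API) (_h2 : SSA.T_XPM) : T_SPH := by
  intro k _ _ a b x₀ y₀ hyp heq hne
  have D : Dt a b x₀ y₀ := ⟨h1, hyp, heq, hne⟩
  refine ⟨AddMonoidHom.mk' (psi a b x₀ y₀) (psi_add D), ?_⟩
  intro P hP
  refine ⟨?_, ?_⟩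
  · intro h
    exact psi_pole (by rw [h]; simp)
  · intro h
    exact ⟨reg_y D hP h, ns D hP h, psi_reg D hP h⟩

end SSL
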