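import Pool.Agent.SSL.Targets

/-!
# SUJ: the Weierstrass function is surjective (helper91)
-/

open Polynomial
open scoped UpperHalfPlane Topology

namespace SSL

open SSA SSP

/-- `℘` is surjective -/
theorem p_SUJ (h1 : SSW.T_EVE) (h2 : SSW.T_CTB) : T_SUJ := by
  intro L y
  by_contra hcon
  push Not at hcon
  obtain ⟨P, hP⟩ := h1 L (fun z => (L.weierstrassP z - y)⁻¹)
    (fun z => ((L.meromorphic_weierstrassP z).sub (MeromorphicAt.const y z)).inv)
    (fun z hz => by
      have h3 : AnalyticAt ℂ (fun z => (L.weierstrassP z - y)⁻¹) z :=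
        ((L.analyticOnNhd_weierstrassP z hz).sub analyticAt_const).inv
          (sub_ne_zero.2 (hcon z hz))
      exact h3.meromorphicOrderAt_nonneg)
    (fun z l hl => by
      have h3 := L.weierstrassP_add_coe z ⟨l, hl⟩
      exact congrArg (fun t => (t - y)⁻¹) h3)
    (fun z => by rw [L.weierstrassP_neg])
  -- a point which is not in the lattice
  have hL : {z : ℂ | z ∈ L.lattice ∨ (1 : ℂ[X]).eval (L.weierstrassP z) = 0}.Countable :=
    (h2 L).1 1 one_ne_zero
  obtain ⟨z, hz⟩ : ∃ z : ℂ, z ∉ L.lattice := by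
    by_contra hc
    push Not at hc
    have h3 : {z : ℂ | z ∈ L.lattice ∨ (1 : ℂ[X]).eval (L.weierstrassP z) = 0} = Set.univ :=
      Set.eq_univ_of_forall fun z => Or.inl (hc z)
    rw [h3] at hL
    exact not_countable_complex hL
  -- the polynomial
  have hA : (X - C y) * P - 1 = 0 := by
    by_contra hne
    have h3 := (h2 L).1 _ hne
    have h4 : ∀ᶠ w in 𝓝[≠] z, w ∈ {z : ℂ | z ∈ L.lattice ∨
        ((X - C y) * P - 1).eval (L.weierstrassP z) = 0} := by
      have h5 : ∀ᶠ w in 𝓝[≠] z, w ∉ L.lattice := by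
        filter_upwards [mem_nhdsWithin_of_mem_nhds (L.compl_lattice_sdiff_singleton_mem_nhds z),
          self_mem_nhdsWithin] with w hw hw' hwL
        exact hw ⟨hwL, hw'⟩
      filter_upwards [hP z hz, h5] with w hw hwL
      right
      have h6 : L.weierstrassP w - y ≠ 0 := sub_ne_zero.2 (hcon w hwL)
      simp only [eval_sub, eval_mul, eval_X, eval_C, eval_one]
      rw [← hw, mul_inv_cancel₀ h6, sub_self]
    rw [eventually_nhdsWithin_iff, Metric.eventually_nhds_iff_ball] at h4
    obtain ⟨ε, hε, h5⟩ := h4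
    have h6 : (Metric.ball z ε).Countable := by
      refine (h3.union (Set.countable_singleton z)).mono fun w hw => ?_
      by_cases hwz : w = z
      · exact Or.inr hwz
      · exact Or.inl (h5 w hw hwz)
    exact (Metric.measure_ball_pos MeasureTheory.volume z hε).ne' (h6.measure_zero _)
  have h3 := congrArg (Polynomial.eval y) hA
  simp at h3

end SSL
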