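import Pool.Agent.SSL.Targets
import Pool.Agent.SSP.TRX

/-!
# MP_d74fca_nt, SSL, TRY: transport of `CMX` along an isomorphism of fields (helper75)
-/

set_option autoImplicit false

open Polynomial

namespace SSL

open SSA SSP

namespace TRY_

variable {k k' : Type} [Field k] [Field k']

theorem eval_map' (σ : k →+* k') (P : k[X]) (x : k) : (P.map σ).eval (σ x) = σ (P.eval x) := by
  rw [eval_map, eval₂_hom]

theorem denom_eval (σ : k →+* k') (R : RatFunc k) (x : k) :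
    (rmap σ R).denom.eval (σ x) = σ (R.denom.eval x) := by
  rw [RFM_.denom_rmap, eval_map']

theorem evk_map (σ : k →+* k') (R : RatFunc k) (x : k) : evk (rmap σ R) (σ x) = σ (evk R x) := by
  rw [evk, evk, denom_eval, RFM_.num_rmap, eval_map', map_div₀]

theorem tor_map (σ : k →+* k') (hσ : Function.Surjective σ) {a b : k} {a' b' : k'}
    (t : MM a b →+ MM a' b') (tx : ∀ P, xr (t P) = rmap σ (xr P))
    (tid : t (idM a b) = idM a' b') (α : MM a b) (l : ℕ) (h : Tor α l) : Tor (t α) l := by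
  obtain ⟨x₀, h1, h2, h3⟩ := h
  have hn : ∀ n : ℕ, xr (n • idM a' b') = rmap σ (xr (n • idM a b)) := by
    intro n
    rw [← tx, map_nsmul, tid]
  have hz : ∀ (R : RatFunc k) (x : k), (rmap σ R).denom.eval (σ x) = 0 ↔ R.denom.eval x = 0 := by
    intro R x
    rw [denom_eval]
    exact map_eq_zero σ
  refine ⟨σ x₀, ?_, ?_, ?_⟩
  · rw [tx, hz]
    exact h1
  · rw [hn, hz]
    exact h2
  · intro y hy1 hy2
    obtain ⟨x, rfl⟩ := hσ y
    rw [tx, hz] at hy1
    rw [hn, hz] at hy2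
    obtain ⟨n, n0, nl, hn1, hn2⟩ := h3 x hy1 hy2
    refine ⟨n, n0, nl, ?_, ?_⟩
    · rw [hn, Ne, hz]
      exact hn1
    · rw [hn, evk_map, ← hn2]

/-- transport along a surjective homomorphism of fields -/
theorem main (h1 : T_JHP) (h2 : T_API) (σ : k →+* k') (hσ : Function.Surjective σ)
    (h3 : T_RFM) (j : k) (D : ℕ) (k2 : (2 : k) ≠ 0) (k3 : (3 : k) ≠ 0) (hC : CMX k j D) :
    CMX k' (σ j) D := by
  obtain ⟨hj0, hj1, c, hc, α, hDD, hdeg, hcomp, htor⟩ := hC
  have k2' : (2 : k') ≠ 0 := by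
    intro h0
    apply k2
    apply σ.injective
    rw [map_ofNat, map_zero, h0]
  have k3' : (3 : k') ≠ 0 := by
    intro h0
    apply k3
    apply σ.injective
    rw [map_ofNat, map_zero, h0]
  have hj0' : σ j ≠ 0 := by
    intro h0
    exact hj0 (σ.injective (by rw [h0, map_zero]))
  have hj1' : σ j ≠ 1728 := by
    intro h0
    exact hj1 (σ.injective (by rw [h0, map_ofNat]))
  obtain ⟨hH, -, -⟩ := h1 k j k2 k3 hj0 hj1
  obtain ⟨hH', -, -⟩ := h1 k' (σ j) k2' k3' hj0' hj1'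
  obtain ⟨t, tx, ty, tid⟩ := TRX_.exists_hom h2 h3 σ (TRX_.aj_map σ j)
    (TRX_.bj_map σ j) hH hH'
  refine ⟨hj0', hj1', σ c, ?_, t α, ?_, ?_, ?_, ?_⟩
  · rw [← map_pow, hc, map_neg, map_natCast]
  · have e : DD (t α) = rmap σ (DD α) := by
      rw [DD, DD, tx, ty, RFM_.rmap_div, RFM_.rmap_rder]
    rw [e, hDD, RFM_.rmap_C]
  · rw [tx, RFM_.denom_rmap, RFM_.num_rmap, natDegree_map, natDegree_map]
    exact hdeg
  · intro x
    have e1 : x • idM (aj (σ j)) (bj (σ j)) + t α = t (x • idM (aj j) (bj j) + α) := by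
      rw [map_add, map_nsmul, tid]
    have e2 : x • idM (aj (σ j)) (bj (σ j)) - t α = t (x • idM (aj j) (bj j) - α) := by
      rw [map_sub, map_nsmul, tid]
    have e3 : (x ^ 2 + D) • idM (aj (σ j)) (bj (σ j)) = t ((x ^ 2 + D) • idM (aj j) (bj j)) := by
      rw [map_nsmul, tid]
    rw [e1, e2, e3, tx, tx, tx, ← RFM_.rmap_rcomp, hcomp x]
  · intro l hl hl2 hlD hlD2
    exact tor_map σ hσ t tx tid α l (htor l hl hl2 hlD hlD2)

end TRY_

/-- TRY: transport of `CMX` along an isomorphism of fields -/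
theorem p_TRY (h1 : SSP.T_JHP) (h2 : SSA.T_API) (h3 : SSA.T_RFM) : T_TRY := by
  intro k k' _ _ σ j D k2 k3 hC
  exact TRY_.main h1 h2 σ.toRingHom σ.surjective h3 j D k2 k3 hC

end SSL
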