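import Pool.Agent.SSL.Targets
import Pool.Agent.SSF.WEI

/-!
# MP_d74fca_nt, project SSL (helper22): transfer to integral Weierstrass equations
-/

set_option autoImplicit false

namespace SSL

/-- the number of primes `p ≤ x`, `p ∤ Δ(W)`, with `a_p = 0`, such that for every `l ∈ L` the number
`-p` is a square modulo `l` and, if `l ≡ 3 mod 4`, `-l` is no square modulo `p` (`p` is inert in
`ℚ(√-l)`) -/
noncomputable def cntL (W : WeierstrassCurve ℤ) (L : Finset ℕ) (x : ℝ) : ℕ :=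
  {p : ℕ | p.Prime ∧ (p : ℝ) ≤ x ∧ ¬ (p : ℤ) ∣ W.Δ ∧ SSF.ap W p = 0 ∧
    ∀ l ∈ L, (∃ y : ZMod l, y ^ 2 = -(p : ZMod l)) ∧
      (l % 4 = 3 → ∀ y : ZMod p, y ^ 2 ≠ -(l : ZMod p))}.ncard

namespace Transfer_

/-- reciprocity -/
lemma rec (p l : ℕ) (hp : p.Prime) (hp2 : p ≠ 2) (hl : l.Prime) (h3 : l % 4 = 3) (hne : p ≠ l)
    (h : ∃ y : ZMod l, y ^ 2 = -(p : ZMod l)) (y : ZMod p) : y ^ 2 ≠ -(l : ZMod p) := by
  have fp : Fact p.Prime := ⟨hp⟩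
  have fl : Fact l.Prime := ⟨hl⟩
  have hl2 : l ≠ 2 := by
    intro h'
    subst h'
    norm_num at h3
  intro hy
  obtain ⟨z, hz⟩ := h
  -- `-p` is a square modulo `l`
  have hp0 : ((p : ℤ) : ZMod l) ≠ 0 := by
    intro h0
    rw [ZMod.intCast_zmod_eq_zero_iff_dvd] at h0
    have := (Nat.prime_dvd_prime_iff_eq hl hp).mp (by exact_mod_cast h0)
    exact hne this.symm
  have hl0 : ((l : ℤ) : ZMod p) ≠ 0 := by
    intro h0
    rw [ZMod.intCast_zmod_eq_zero_iff_dvd] at h0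
    have := (Nat.prime_dvd_prime_iff_eq hp hl).mp (by exact_mod_cast h0)
    exact hne this
  have h1 : legendreSym l (-(p : ℤ)) = 1 := by
    rw [legendreSym.eq_one_iff l (by push_cast; exact neg_ne_zero.mpr (by exact_mod_cast hp0))]
    exact ⟨z, by push_cast; rw [← hz]; ring⟩
  have h2 : legendreSym p (-(l : ℤ)) = 1 := by
    rw [legendreSym.eq_one_iff p (by push_cast; exact neg_ne_zero.mpr (by exact_mod_cast hl0))]
    exact ⟨y, by push_cast; rw [← hy]; ring⟩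
  have e1 : legendreSym l (-(p : ℤ)) = legendreSym l (-1) * legendreSym l (p : ℤ) := by
    rw [← legendreSym.mul]
    congr 1
    ring
  have e2 : legendreSym p (-(l : ℤ)) = legendreSym p (-1) * legendreSym p (l : ℤ) := by
    rw [← legendreSym.mul]
    congr 1
    ring
  have h3' : legendreSym l (-1) = -1 := by
    rw [legendreSym.at_neg_one hl2, ZMod.χ₄_nat_three_mod_four h3]
  rw [e1, h3'] at h1
  have h4 : legendreSym l (p : ℤ) = -1 := by linarith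
  rw [e2] at h2
  rcases hp.eq_two_or_odd with hh | hodd
  · exact hp2 hh
  have hp4 : p % 4 = 1 ∨ p % 4 = 3 := by omega
  rcases hp4 with h5 | h5
  · have h6 : legendreSym p (-1) = 1 := by
      rw [legendreSym.at_neg_one hp2, ZMod.χ₄_nat_one_mod_four h5]
    have h7 := legendreSym.quadratic_reciprocity_one_mod_four h5 hl2
    rw [h6] at h2
    rw [h4] at h7
    linarith
  · have h6 : legendreSym p (-1) = -1 := by
      rw [legendreSym.at_neg_one hp2, ZMod.χ₄_nat_three_mod_four h5]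
    have h7 := legendreSym.quadratic_reciprocity_three_mod_four h5 h3
    rw [h6] at h2
    rw [h4] at h7
    linarith

end Transfer_

/-- transfer of lower bounds -/
theorem p_WEL (W : WeierstrassCurve ℤ) (L : Finset ℕ) (x : ℝ)
    (hL : ∀ l ∈ L, l.Prime ∧ SSF.ap W l ≠ 0) :
    SSC.NS (SL (-27 * W.c₄) (-54 * W.c₆) L) x ≤ (cntL W L x : ℝ) := by
  unfold SSC.NS cntL
  have hfin : {p : ℕ | p.Prime ∧ (p : ℝ) ≤ x ∧ ¬ (p : ℤ) ∣ W.Δ ∧ SSF.ap W p = 0 ∧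
    ∀ l ∈ L, (∃ y : ZMod l, y ^ 2 = -(p : ZMod l)) ∧
      (l % 4 = 3 → ∀ y : ZMod p, y ^ 2 ≠ -(l : ZMod p))}.Finite := by
    apply (Set.finite_Iic ⌊x⌋₊).subset
    rintro p ⟨-, hx, -⟩
    exact Nat.le_floor hx
  have := Set.ncard_le_ncard (s := {p : ℕ | p ∈ SL (-27 * W.c₄) (-54 * W.c₆) L ∧ (p : ℝ) ≤ x})
    (t := {p : ℕ | p.Prime ∧ (p : ℝ) ≤ x ∧ ¬ (p : ℤ) ∣ W.Δ ∧ SSF.ap W p = 0 ∧
    ∀ l ∈ L, (∃ y : ZMod l, y ^ 2 = -(p : ZMod l)) ∧
      (l % 4 = 3 → ∀ y : ZMod p, y ^ 2 ≠ -(l : ZMod p))}) (by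
      rintro p ⟨⟨h1, h1'⟩, h2⟩
      obtain ⟨h3, h4, h5⟩ := SSF.p_WEI W p h1
      refine ⟨h3, h2, h4, h5, fun l hl => ⟨h1' l hl, fun hl3 => ?_⟩⟩
      refine Transfer_.rec p l h3 ?_ (hL l hl).1 hl3 ?_ (h1' l hl)
      · rintro rfl
        exact h1.2.1 ⟨3 * (4 * (-27 * W.c₄) ^ 3 + 27 * (-54 * W.c₆) ^ 2), by push_cast; ring⟩
      · rintro rfl
        exact (hL _ hl).2 h5) hfin
  exact_mod_cast this

/-- the conclusion from the two final parts -/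
theorem p_FIN (hD : T_DATL) (hC : T_CNTL) (W : WeierstrassCurve ℤ) (hΔ : W.Δ ≠ 0) (h4 : W.c₄ ≠ 0)
    (h6 : W.c₆ ≠ 0) (L : Finset ℕ)
    (hL : ∀ l ∈ L, l.Prime ∧ 5 ≤ l ∧ ¬ (l : ℤ) ∣ W.c₄ * W.c₆ ∧ SSF.ap W l ≠ 0) (ε : ℝ) (hε : 0 < ε)
    (x₀ : ℝ) : ∃ x : ℝ, x₀ ≤ x ∧ (Real.log x) ^ (2 - ε) ≤ (cntL W L x : ℝ) := by
  obtain ⟨P, ρ₁, ρ₂, h⟩ := hD (-27 * W.c₄) (-54 * W.c₆) (mul_ne_zero (by norm_num) h4)
    (mul_ne_zero (by norm_num) h6) (SSF.p_WEK W hΔ) L (by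
      intro l hl
      obtain ⟨h1, h2, h3, h5⟩ := hL l hl
      refine ⟨h1, h2, ?_, fun h => h5 (SSF.p_WEI W l h).2.2⟩
      intro hd
      have e : (-27 * W.c₄) * (-54 * W.c₆) = 2 * 3 ^ 6 * (W.c₄ * W.c₆) := by ring
      rw [e] at hd
      have hp : Prime (l : ℤ) := Nat.prime_iff_prime_int.mp h1
      rcases hp.dvd_or_dvd hd with h7 | h7
      · rcases hp.dvd_or_dvd h7 with h8 | h8
        · have := Int.le_of_dvd (by norm_num) h8
          omega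
        · have h9 := hp.dvd_of_dvd_pow h8
          have := Int.le_of_dvd (by norm_num) h9
          omega
      · exact h3 h7)
  obtain ⟨x, hx, h1⟩ := hC _ _ L P ρ₁ ρ₂ h ε hε x₀
  exact ⟨x, hx, h1.trans (p_WEL W L x fun l hl => ⟨(hL l hl).1, (hL l hl).2.2.2⟩)⟩

end SSL
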