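import Pool.Agent.SSF.All
import Pool.Agent.SSL.CMW
import Pool.Agent.SSL.CMX
import Pool.Agent.SSL.DATL
import Pool.Agent.SSL.INF
import Pool.Agent.SSL.INX
import Pool.Agent.SSL.KER
import Pool.Agent.SSL.KIX
import Pool.Agent.SSL.LEG
import Pool.Agent.SSL.LIN
import Pool.Agent.SSL.NRD
import Pool.Agent.SSL.OUTA
import Pool.Agent.SSL.SCX
import Pool.Agent.SSL.SPH
import Pool.Agent.SSL.SUJ
import Pool.Agent.SSL.TRY
import Pool.Agent.SSL.TWO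
import Pool.Agent.SSL.Transfer

/-!
# MP_d74fca_nt, project SSL: the chain of the geometric part (helper22)
-/

set_option autoImplicit false

namespace SSL.All

theorem SUJ : T_SUJ := p_SUJ SSF.All.SSW_EVE SSF.All.SSW_CTB
theorem KER : T_KER := p_KER SSF.All.SSW_CTB SSF.All.SSW_SND SSF.All.SSW_RPB
theorem LIN : T_LIN := p_LIN
theorem CMW : T_CMW := p_CMW SSF.All.SSW_RPB SSF.All.SSW_RPA SSF.All.SSW_RPX SSF.All.SSW_RPE KER
  SUJ LIN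
theorem SCX : T_SCX := p_SCX SSF.All.SSA_API SSF.All.SSA_RFC SSF.All.SSA_RFD
theorem CMX : T_CMX := p_CMX CMW SCX SSF.All.SSW_NRM
theorem TRY : T_TRY := p_TRY SSF.All.SSP_JHP SSF.All.SSA_API SSF.All.SSA_RFM
theorem INF : T_INF := p_INF SSF.All.SSA_API SSF.All.SSA_XPM SSF.All.SSA_TRS SSF.All.SSP_DGN
  SSF.All.SSA_DDA
theorem TWO : T_TWO := p_TWO INF SSF.All.SSA_CMP SSF.All.SSA_TRS SSF.All.SSA_API SSF.All.SSA_RFC
  SSF.All.SSP_DGN
theorem SPH : T_SPH := p_SPH SSF.All.SSA_API SSF.All.SSA_XPM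
theorem NRD : T_NRD := p_NRD SSF.All.SSP_RIN SSF.All.SSP_RDP SSF.All.SSP_RQA SSF.All.SSP_RNI
  SSF.All.SSP_DGN INF TWO SPH
theorem INX : T_INX := p_INX SSF.All.SSP_AUT SSF.All.SSP_RIN SSF.All.SSP_PARL SSF.All.SSP_UNQ
  SSF.All.SSP_JHP SSF.All.SSA_API SSF.All.SSA_RFM SSF.All.SSA_TAU NRD
theorem LEG : T_LEG := p_LEG SPH TWO SSF.All.SSA_API SSF.All.SSA_HC SSF.All.SSA_FRB
  SSF.All.SSA_XPM SSF.All.SSP_DGN SSF.All.SSA_RFG
theorem KIX : T_KIX := p_KIX INX LEG TRY SSF.All.SSP_ISO SSF.All.SSP_KIN SSF.All.SSP_PLC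
  SSF.All.SSP_JHP
/-- the hypotheses of the counting part hold -/
theorem DATL : T_DATL := p_DATL outl CMX KIX SSF.All.SSP_KIN SSF.All.SSP_KRM SSF.All.SSP_TWI
  SSF.All.SSA_SPW SSF.All.SSP_JHP

end SSL.All
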