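import Pool.Agent.SSL.CTargets
import Pool.Agent.SSC.ASM

/-!
# MP_d74fca_nt, SSL-CNTL: the counting theorem for `D = pr L * a * c`
-/

set_option autoImplicit false

open scoped BigOperators Classical
open Finset

namespace SSLC

namespace CNTL_

open SSC SSC.ASM_ SSL Filter

/-! ## Membership -/

theorem mem_AS {L P : Finset ℕ} {Y : ℝ} (hY : 0 ≤ Y) {a : ℕ} (ha : a ∈ AS L P Y) :
    a.Prime ∧ Y / 2 < a ∧ (a : ℝ) ≤ Y ∧ pr L ∣ a + 1 ∧ pr L * a ≡ 1 [MOD SSN.MM P] := by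
  obtain ⟨h1, h2, h3, h4, h5⟩ := Finset.mem_filter.1 ha
  exact ⟨h2, h3, (Nat.le_floor_iff hY).1 (Finset.mem_Icc.1 h1).2, h4, h5⟩

theorem mem_CS {L P : Finset ℕ} {ρ₁ ρ₂ : ℝ} {a c : ℕ} (hc : c ∈ CS L P ρ₁ ρ₂ a) :
    c.Prime ∧ ρ₁ * a < c ∧ (c : ℝ) < ρ₂ * a ∧ mo L P ∣ c + 1 := (Finset.mem_filter.1 hc).2

theorem card_AS_le {L P : Finset ℕ} {Y : ℝ} (hY : 0 ≤ Y) : ((AS L P Y).card : ℝ) ≤ Y := by
  have h1 : (AS L P Y).card ≤ (Icc 1 ⌊Y⌋₊).card :=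
    Finset.card_le_card (Finset.filter_subset _ _)
  rw [Nat.card_Icc, Nat.add_sub_cancel] at h1
  exact le_trans (by exact_mod_cast h1) (Nat.floor_le hY)

theorem card_CS_le {L P : Finset ℕ} {ρ₁ ρ₂ Y : ℝ} {a : ℕ} (hρ : 0 ≤ ρ₂) (ha : (a : ℝ) ≤ Y) :
    ((CS L P ρ₁ ρ₂ a).card : ℝ) ≤ ρ₂ * Y := by
  have h1 : (CS L P ρ₁ ρ₂ a).card ≤ (Icc 1 ⌊ρ₂ * a⌋₊).card :=
    Finset.card_le_card (Finset.filter_subset _ _)
  rw [Nat.card_Icc, Nat.add_sub_cancel] at h1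
  refine le_trans (by exact_mod_cast h1) ((Nat.floor_le ?_).trans ?_)
  · exact mul_nonneg hρ (Nat.cast_nonneg a)
  · exact mul_le_mul_of_nonneg_left ha hρ

theorem pr_pos {L : Finset ℕ} (hL : SSN.OddPr L) : 0 < pr L :=
  Finset.prod_pos fun l hl => (hL l hl).1.pos

theorem pr_dvd_mo (L P : Finset ℕ) : pr L ∣ mo L P := by
  unfold pr mo SSN.MM
  exact (Finset.prod_dvd_prod_of_subset L (P ∪ L) _ Finset.subset_union_right).mul_left _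

theorem MM_dvd_mo (L P : Finset ℕ) : SSN.MM P ∣ mo L P := by
  unfold mo SSN.MM
  exact Nat.mul_dvd_mul_left _
    (Finset.prod_dvd_prod_of_subset P (P ∪ L) _ Finset.subset_union_left)

theorem MM_dvd_MM {P P' : Finset ℕ} (h : P ⊆ P') : SSN.MM P ∣ SSN.MM P' := by
  unfold SSN.MM
  exact Nat.mul_dvd_mul_left _ (Finset.prod_dvd_prod_of_subset P P' _ h)

theorem dvd_MM {P : Finset ℕ} {p : ℕ} (h : p ∈ P) : p ∣ SSN.MM P := by
  unfold SSN.MM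
  exact (Finset.dvd_prod_of_mem _ h).mul_left _

theorem squarefree_pr {L : Finset ℕ} (hL : SSN.OddPr L) : Squarefree (pr L) := by
  unfold pr
  refine Finset.squarefree_prod_of_pairwise_isCoprime (fun l hl l' hl' hne => ?_)
    fun l hl => (hL l hl).1.prime.squarefree
  simp only [← Nat.coprime_iff_isRelPrime]
  exact (Nat.coprime_primes (hL l hl).1 (hL l' hl').1).2 hne

theorem coprime_pr {L : Finset ℕ} (hL : SSN.OddPr L) {a : ℕ} (ha : a.Prime) (h : a ∉ L) :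
    Nat.Coprime (pr L) a := by
  unfold pr
  apply Nat.Coprime.prod_left
  intro l hl
  refine (Nat.coprime_primes (hL l hl).1 ha).2 ?_
  rintro rfl
  exact h hl

theorem not_mem_of_dvd {L : Finset ℕ} {a : ℕ} (ha : a.Prime) (h : pr L ∣ a + 1) : a ∉ L := by
  intro hL
  have h1 : a ∣ a + 1 := (Finset.dvd_prod_of_mem (fun l : ℕ => l) hL).trans h
  have h2 : a ∣ 1 := (Nat.dvd_add_right (dvd_refl a)).1 h1
  exact ha.one_lt.ne' (Nat.dvd_one.1 h2)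

/-- everything about a pair -/
theorem pair {L P : Finset ℕ} {ρ₁ ρ₂ Y : ℝ} {a c : ℕ} (hL : SSN.OddPr L) (hρ1 : 1 ≤ ρ₁)
    (hρ2 : 0 ≤ ρ₂) (hY : 0 ≤ Y) (ha : a ∈ AS L P Y) (hc : c ∈ CS L P ρ₁ ρ₂ a) :
    a < c ∧ a ∉ L ∧ c ∉ L ∧ Squarefree (pr L * a * c) ∧ pr L ∣ c + 1 ∧
      SSN.MM P ∣ pr L * a * c + 1 ∧ (c : ℝ) ≤ ρ₂ * Y ∧
      ((pr L * a * c : ℕ) : ℝ) ≤ pr L * ρ₂ * Y ^ 2 := by
  obtain ⟨a1, a2, a3, a4, a5⟩ := mem_AS hY ha
  obtain ⟨c1, c2, c3, c4⟩ := mem_CS hc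
  have h0 : (0 : ℝ) ≤ a := Nat.cast_nonneg a
  have hac : a < c := by
    have : (a : ℝ) < c := lt_of_le_of_lt (by nlinarith) c2
    exact_mod_cast this
  have hLc : pr L ∣ c + 1 := (pr_dvd_mo L P).trans c4
  have haL := not_mem_of_dvd a1 a4
  have hcL := not_mem_of_dvd c1 hLc
  have hcY : (c : ℝ) ≤ ρ₂ * Y := c3.le.trans (mul_le_mul_of_nonneg_left a3 hρ2)
  refine ⟨hac, haL, hcL, ?_, hLc, ?_, hcY, ?_⟩
  · have h1 : Nat.Coprime (pr L) a := coprime_pr hL a1 haL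
    have h2 : Nat.Coprime (pr L) c := coprime_pr hL c1 hcL
    have h3 : Nat.Coprime a c := (Nat.coprime_primes a1 c1).2 hac.ne
    rw [Nat.squarefree_mul (Nat.Coprime.mul_left h2 h3), Nat.squarefree_mul h1]
    exact ⟨⟨squarefree_pr hL, a1.prime.squarefree⟩, c1.prime.squarefree⟩
  · have h1 : SSN.MM P ∣ c + 1 := (MM_dvd_mo L P).trans c4
    have h2 : pr L * a * c + 1 ≡ 1 * c + 1 [MOD SSN.MM P] := (a5.mul_right c).add_right 1
    rw [one_mul] at h2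
    exact (Nat.modEq_zero_iff_dvd.1 (h2.trans (Nat.modEq_zero_iff_dvd.2 h1)))
  · push_cast
    have hL0 : (0 : ℝ) ≤ pr L := Nat.cast_nonneg _
    calc (pr L : ℝ) * a * c = pr L * (a * c) := by ring
      _ ≤ pr L * (Y * (ρ₂ * Y)) :=
          mul_le_mul_of_nonneg_left (mul_le_mul a3 hcY (Nat.cast_nonneg c) hY) hL0
      _ = pr L * ρ₂ * Y ^ 2 := by ring

theorem pair_inj {q a c a' c' : ℕ} (hq : 0 < q) (ha : a.Prime) (ha' : a'.Prime)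
    (hc' : c'.Prime) (h : a < c) (h' : a' < c') (e : q * a * c = q * a' * c') :
    a = a' ∧ c = c' := by
  rw [mul_assoc, mul_assoc] at e
  have e1 : a * c = a' * c' := Nat.eq_of_mul_eq_mul_left hq e
  have h1 : a ∣ a' * c' := ⟨c, e1.symm⟩
  rcases (ha.dvd_mul).1 h1 with h2 | h2
  · have h3 : a = a' := (Nat.prime_dvd_prime_iff_eq ha ha').1 h2
    subst h3
    exact ⟨rfl, Nat.eq_of_mul_eq_mul_left ha.pos e1⟩
  · have h3 : a = c' := (Nat.prime_dvd_prime_iff_eq ha hc').1 h2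
    subst h3
    have h4 : c = a' := by
      rw [mul_comm a' a] at e1
      exact Nat.eq_of_mul_eq_mul_left ha.pos e1
    omega

/-! ## The pairs -/

/-- the pairs -/
noncomputable def WW (L P : Finset ℕ) (ρ₁ ρ₂ Y : ℝ) : Finset (Σ _ : ℕ, ℕ) :=
  (AS L P Y).sigma fun a => CS L P ρ₁ ρ₂ a

theorem lower {L P : Finset ℕ} {ρ₁ ρ₂ κ₁ h Y : ℝ} {a₀ : ℕ} (hκ : 0 ≤ κ₁) (hh : 0 < h)
    (hY : 4 ≤ Y) (hYa : 2 * (a₀ : ℝ) ≤ Y)
    (ha₀ : ∀ a : ℕ, a₀ ≤ a → κ₁ * a / (h * Real.log a) ≤ ((CS L P ρ₁ ρ₂ a).card : ℝ)) :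
    ((AS L P Y).card : ℝ) * (κ₁ * Y / (2 * h * Real.log Y)) ≤ ((WW L P ρ₁ ρ₂ Y).card : ℝ) := by
  unfold WW
  rw [Finset.card_sigma]
  push_cast
  rw [← nsmul_eq_mul, ← Finset.sum_const]
  apply Finset.sum_le_sum
  intro a ha
  obtain ⟨a1, a2, a3, -, -⟩ := mem_AS (by linarith) ha
  have h1 : a₀ ≤ a := by
    have : (a₀ : ℝ) ≤ a := by linarith
    exact_mod_cast this
  refine le_trans ?_ (ha₀ a h1)
  have h2 : (1 : ℝ) < a := by linarith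
  have hla : 0 < Real.log a := Real.log_pos h2
  have hlY : Real.log a ≤ Real.log Y := Real.log_le_log (by linarith) a3
  calc κ₁ * Y / (2 * h * Real.log Y) = κ₁ * (Y / 2) / (h * Real.log Y) := by
        rw [show 2 * h * Real.log Y = 2 * (h * Real.log Y) by ring, div_mul_eq_div_div]
        ring
    _ ≤ κ₁ * a / (h * Real.log Y) := by
        apply div_le_div_of_nonneg_right _ (mul_pos hh (hla.trans_le hlY)).le
        exact mul_le_mul_of_nonneg_left a2.le hκ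
    _ ≤ κ₁ * a / (h * Real.log a) := by
        apply div_le_div_of_nonneg_left (mul_nonneg hκ (Nat.cast_nonneg a)) (mul_pos hh hla)
        exact mul_le_mul_of_nonneg_left hlY hh.le

theorem WA {L P : Finset ℕ} {ρ₁ ρ₂ Y : ℝ} {S : Set ℕ} (hρ : 0 ≤ ρ₂) (hY : 0 ≤ Y) :
    ((((WW L P ρ₁ ρ₂ Y).filter fun t => t.1 ∈ S).card : ℕ) : ℝ) ≤ NS S Y * (ρ₂ * Y) := by
  have h1 : ((WW L P ρ₁ ρ₂ Y).filter fun t => t.1 ∈ S).card ≤
      (((AS L P Y).filter fun a => a ∈ S).sigma fun a => CS L P ρ₁ ρ₂ a).card := by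
    apply Finset.card_le_card
    intro t ht
    obtain ⟨h2, h3⟩ := Finset.mem_filter.1 ht
    obtain ⟨h4, h5⟩ := Finset.mem_sigma.1 h2
    exact Finset.mem_sigma.2 ⟨Finset.mem_filter.2 ⟨h4, h3⟩, h5⟩
  rw [Finset.card_sigma] at h1
  have h2 : ((((WW L P ρ₁ ρ₂ Y).filter fun t => t.1 ∈ S).card : ℕ) : ℝ) ≤
      ∑ a ∈ (AS L P Y).filter (fun a => a ∈ S), ((CS L P ρ₁ ρ₂ a).card : ℝ) := by
    exact_mod_cast h1
  refine h2.trans ?_
  calc ∑ a ∈ (AS L P Y).filter (fun a => a ∈ S), ((CS L P ρ₁ ρ₂ a).card : ℝ)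
      ≤ ∑ _a ∈ (AS L P Y).filter (fun a => a ∈ S), ρ₂ * Y := by
        apply Finset.sum_le_sum
        intro a ha
        exact card_CS_le hρ (mem_AS hY (Finset.mem_filter.1 ha).1).2.2.1
    _ = (((AS L P Y).filter fun a => a ∈ S).card : ℝ) * (ρ₂ * Y) := by
        rw [Finset.sum_const, nsmul_eq_mul]
    _ ≤ NS S Y * (ρ₂ * Y) := by
        apply mul_le_mul_of_nonneg_right _ (mul_nonneg hρ hY)
        apply card_le_NS
        intro a ha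
        obtain ⟨ha1, ha2⟩ := Finset.mem_filter.1 ha
        exact ⟨ha2, (mem_AS hY ha1).2.2.1⟩

theorem WC {L P : Finset ℕ} {ρ₁ ρ₂ Y : ℝ} {S : Set ℕ} (hρ : 0 ≤ ρ₂) (hY : 0 ≤ Y) :
    ((((WW L P ρ₁ ρ₂ Y).filter fun t => t.2 ∈ S).card : ℕ) : ℝ) ≤ Y * NS S (ρ₂ * Y) := by
  have h1 : ((WW L P ρ₁ ρ₂ Y).filter fun t => t.2 ∈ S).card ≤
      ((AS L P Y).sigma fun a => (CS L P ρ₁ ρ₂ a).filter fun c => c ∈ S).card := by
    apply Finset.card_le_card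
    intro t ht
    obtain ⟨h2, h3⟩ := Finset.mem_filter.1 ht
    obtain ⟨h4, h5⟩ := Finset.mem_sigma.1 h2
    exact Finset.mem_sigma.2 ⟨h4, Finset.mem_filter.2 ⟨h5, h3⟩⟩
  rw [Finset.card_sigma] at h1
  have h2 : ((((WW L P ρ₁ ρ₂ Y).filter fun t => t.2 ∈ S).card : ℕ) : ℝ) ≤
      ∑ a ∈ AS L P Y, (((CS L P ρ₁ ρ₂ a).filter fun c => c ∈ S).card : ℝ) := by
    exact_mod_cast h1
  refine h2.trans ?_
  calc ∑ a ∈ AS L P Y, (((CS L P ρ₁ ρ₂ a).filter fun c => c ∈ S).card : ℝ)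
      ≤ ∑ _a ∈ AS L P Y, NS S (ρ₂ * Y) := by
        apply Finset.sum_le_sum
        intro a ha
        apply card_le_NS
        intro c hc
        obtain ⟨hc1, hc2⟩ := Finset.mem_filter.1 hc
        refine ⟨hc2, (mem_CS hc1).2.2.1.le.trans ?_⟩
        exact mul_le_mul_of_nonneg_left (mem_AS hY ha).2.2.1 hρ
    _ = ((AS L P Y).card : ℝ) * NS S (ρ₂ * Y) := by rw [Finset.sum_const, nsmul_eq_mul]
    _ ≤ Y * NS S (ρ₂ * Y) := mul_le_mul_of_nonneg_right (card_AS_le hY) (NS_nonneg _ _)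

/-! ## Killers -/

theorem inv_sqrt (q : ℕ) : 1 / Real.sqrt (q : ℝ) = (q : ℝ) ^ (-(1 / 2 : ℝ)) := by
  rw [Real.rpow_neg (Nat.cast_nonneg q), ← Real.sqrt_eq_rpow, one_div]

/-- abstract counting of killed objects -/
theorem upper {τ : Type*} {S : Set ℕ} {W : Finset τ} {pf : τ → ℕ} {P₁ : ℕ} {δ z w v α β γ : ℝ}
    (hT : ∀ G : Finset ℕ, (∀ p ∈ G, p ∈ S ∧ P₁ < p) → ∑ p ∈ G, (p : ℝ) ^ (-(1 / 4 : ℝ)) ≤ δ)
    (hα : 0 ≤ α) (hβ : 0 ≤ β) (hγ : 0 ≤ γ) (hz : 0 < z)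
    (hmem : ∀ t ∈ W, pf t ∈ S ∧ P₁ < pf t ∧ (pf t : ℝ) ≤ v)
    (A1 : ∀ p ∈ S, P₁ < p → ((W.filter fun t => pf t = p).card : ℝ) ≤
      α * (p : ℝ) ^ (-(1 / 4 : ℝ)) + β)
    (A2 : ∀ p ∈ S, ((W.filter fun t => pf t = p).card : ℝ) ≤ 1 + γ * (p : ℝ) ^ (-(1 / 2 : ℝ)))
    (A3 : ∀ p ∈ S, w < (p : ℝ) → ((W.filter fun t => pf t = p).card : ℝ) ≤ 1) :
    (W.card : ℝ) ≤ α * δ + NS S z * β + (NS S w + γ * (z ^ (-(1 / 4 : ℝ)) * δ)) + NS S v := by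
  have hmem' : ∀ p ∈ W.image pf, p ∈ S ∧ P₁ < p ∧ (p : ℝ) ≤ v := by
    intro p hp
    obtain ⟨t, ht, rfl⟩ := Finset.mem_image.1 hp
    exact hmem t ht
  have hNsum : (W.card : ℝ) = ∑ p ∈ W.image pf, ((W.filter fun t => pf t = p).card : ℝ) := by
    rw [Finset.card_eq_sum_card_image pf W]
    push_cast
    rfl
  rw [← Finset.sum_filter_add_sum_filter_not (W.image pf) (fun p : ℕ => (p : ℝ) ≤ z),
    ← Finset.sum_filter_add_sum_filter_not ((W.image pf).filter fun p : ℕ => ¬ (p : ℝ) ≤ z)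
      (fun p : ℕ => (p : ℝ) ≤ w)] at hNsum
  generalize W.image pf = I at hmem' hNsum
  have hr1 : ∑ p ∈ I.filter (fun p : ℕ => (p : ℝ) ≤ z), ((W.filter fun t => pf t = p).card : ℝ) ≤
      α * δ + NS S z * β := by
    have e1 : ∀ p ∈ I.filter (fun p : ℕ => (p : ℝ) ≤ z),
        ((W.filter fun t => pf t = p).card : ℝ) ≤ α * (p : ℝ) ^ (-(1 / 4 : ℝ)) + β := by
      intro p hp
      obtain ⟨hp1, hp2⟩ := Finset.mem_filter.1 hp
      exact A1 p (hmem' p hp1).1 (hmem' p hp1).2.1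
    refine (Finset.sum_le_sum e1).trans ?_
    rw [Finset.sum_add_distrib, ← Finset.mul_sum, Finset.sum_const, nsmul_eq_mul]
    apply add_le_add
    · apply mul_le_mul_of_nonneg_left _ hα
      apply hT
      intro p hp
      obtain ⟨hp1, -⟩ := Finset.mem_filter.1 hp
      exact ⟨(hmem' p hp1).1, (hmem' p hp1).2.1⟩
    · apply mul_le_mul_of_nonneg_right _ hβ
      apply card_le_NS
      intro p hp
      obtain ⟨hp1, hp2⟩ := Finset.mem_filter.1 hp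
      exact ⟨(hmem' p hp1).1, hp2⟩
  have hr2 : ∑ p ∈ (I.filter (fun p : ℕ => ¬ (p : ℝ) ≤ z)).filter (fun p : ℕ => (p : ℝ) ≤ w),
      ((W.filter fun t => pf t = p).card : ℝ) ≤ NS S w + γ * (z ^ (-(1 / 4 : ℝ)) * δ) := by
    have e1 : ∀ p ∈ (I.filter (fun p : ℕ => ¬ (p : ℝ) ≤ z)).filter (fun p : ℕ => (p : ℝ) ≤ w),
        ((W.filter fun t => pf t = p).card : ℝ) ≤
          1 + γ * (z ^ (-(1 / 4 : ℝ)) * (p : ℝ) ^ (-(1 / 4 : ℝ))) := by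
      intro p hp
      obtain ⟨hp1, hp2⟩ := Finset.mem_filter.1 hp
      obtain ⟨hp3, hp4⟩ := Finset.mem_filter.1 hp1
      refine (A2 p (hmem' p hp3).1).trans ?_
      apply add_le_add_right
      apply mul_le_mul_of_nonneg_left _ hγ
      have hzp : z < (p : ℝ) := not_le.1 hp4
      have hp0 : (0 : ℝ) < p := hz.trans hzp
      have e : (p : ℝ) ^ (-(1 / 2 : ℝ)) = (p : ℝ) ^ (-(1 / 4 : ℝ)) * (p : ℝ) ^ (-(1 / 4 : ℝ)) := by
        rw [← Real.rpow_add hp0]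
        norm_num
      rw [e]
      apply mul_le_mul_of_nonneg_right _ (Real.rpow_nonneg hp0.le _)
      exact Real.rpow_le_rpow_of_nonpos hz hzp.le (by norm_num)
    refine (Finset.sum_le_sum e1).trans ?_
    rw [Finset.sum_add_distrib, ← Finset.mul_sum, ← Finset.mul_sum, Finset.sum_const,
      nsmul_eq_mul, mul_one]
    apply add_le_add
    · apply card_le_NS
      intro p hp
      obtain ⟨hp1, hp2⟩ := Finset.mem_filter.1 hp
      exact ⟨(hmem' p (Finset.mem_filter.1 hp1).1).1, hp2⟩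
    · apply mul_le_mul_of_nonneg_left _ hγ
      apply mul_le_mul_of_nonneg_left _ (Real.rpow_nonneg hz.le _)
      apply hT
      intro p hp
      obtain ⟨hp1, hp2⟩ := Finset.mem_filter.1 hp
      obtain ⟨hp3, hp4⟩ := Finset.mem_filter.1 hp1
      exact ⟨(hmem' p hp3).1, (hmem' p hp3).2.1⟩
  have hr3 : ∑ p ∈ (I.filter (fun p : ℕ => ¬ (p : ℝ) ≤ z)).filter (fun p : ℕ => ¬ (p : ℝ) ≤ w),
      ((W.filter fun t => pf t = p).card : ℝ) ≤ NS S v := by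
    have e1 : ∀ p ∈ (I.filter (fun p : ℕ => ¬ (p : ℝ) ≤ z)).filter (fun p : ℕ => ¬ (p : ℝ) ≤ w),
        ((W.filter fun t => pf t = p).card : ℝ) ≤ 1 := by
      intro p hp
      obtain ⟨hp1, hp2⟩ := Finset.mem_filter.1 hp
      exact A3 p (hmem' p (Finset.mem_filter.1 hp1).1).1 (not_le.1 hp2)
    refine (Finset.sum_le_sum e1).trans ?_
    rw [Finset.sum_const, nsmul_eq_mul, mul_one]
    apply card_le_NS
    intro p hp
    obtain ⟨hp1, hp2⟩ := Finset.mem_filter.1 hp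
    have := hmem' p (Finset.mem_filter.1 hp1).1
    exact ⟨this.1, this.2.2⟩
  linarith

/-! ## The killers of the pairs -/

theorem injOn_D {L P : Finset ℕ} {ρ₁ ρ₂ Y : ℝ} (hL : SSN.OddPr L) (hρ1 : 1 ≤ ρ₁) (hρ2 : 0 ≤ ρ₂)
    (hY : 0 ≤ Y) :
    Set.InjOn (fun t : Σ _ : ℕ, ℕ => pr L * t.1 * t.2) (WW L P ρ₁ ρ₂ Y : Set (Σ _ : ℕ, ℕ)) := by
  rintro ⟨a, c⟩ ht ⟨a', c'⟩ ht' he
  obtain ⟨h1, h2⟩ := Finset.mem_sigma.1 (Finset.mem_coe.1 ht)
  obtain ⟨h1', h2'⟩ := Finset.mem_sigma.1 (Finset.mem_coe.1 ht')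
  simp only at h1 h2 h1' h2' he
  have p1 := pair hL hρ1 hρ2 hY h1 h2
  have p1' := pair hL hρ1 hρ2 hY h1' h2'
  obtain ⟨e1, e2⟩ := pair_inj (pr_pos hL) (mem_AS hY h1).1 (mem_AS hY h1').1 (mem_CS h2').1
    p1.1 p1'.1 he
  subst e1
  subst e2
  rfl

theorem fib_NS {L P : Finset ℕ} {ρ₁ ρ₂ Y : ℝ} {W : Finset (Σ _ : ℕ, ℕ)} {F : Set ℕ}
    (hL : SSN.OddPr L) (hρ1 : 1 ≤ ρ₁) (hρ2 : 0 ≤ ρ₂) (hY : 0 ≤ Y)
    (hW : ∀ t ∈ W, t ∈ WW L P ρ₁ ρ₂ Y ∧ pr L * t.1 * t.2 ∈ F) :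
    (W.card : ℝ) ≤ NS F (pr L * ρ₂ * Y ^ 2) := by
  have h1 : (W.image fun t : Σ _ : ℕ, ℕ => pr L * t.1 * t.2).card = W.card := by
    apply Finset.card_image_of_injOn
    exact (injOn_D hL hρ1 hρ2 hY).mono fun t ht =>
      Finset.mem_coe.2 (hW t (Finset.mem_coe.1 ht)).1
  rw [← h1]
  apply card_le_NS
  intro D hD
  obtain ⟨t, ht, rfl⟩ := Finset.mem_image.1 hD
  obtain ⟨h2, h3⟩ := hW t ht
  obtain ⟨h4, h5⟩ := Finset.mem_sigma.1 h2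
  exact ⟨h3, (pair hL hρ1 hρ2 hY h4 h5).2.2.2.2.2.2.2⟩

/-- one killer, all `a` -/
theorem one_p {L P : Finset ℕ} {ρ₁ ρ₂ R Y : ℝ} {n p : ℕ} {W : Finset (Σ _ : ℕ, ℕ)} {F : Set ℕ}
    (hL : SSN.OddPr L) (hρ1 : 1 ≤ ρ₁) (hρ2 : 0 ≤ ρ₂) (hY : 4 ≤ Y) (hn : n = ⌊ρ₂ * Y⌋₊)
    (hF : ∀ (a : ℕ) (A₀ B₀ C₀ w : ℤ), a.Prime → a ≠ 2 → a ≠ p → a ∉ L → Pf p A₀ B₀ C₀ w →
      ((((Icc 1 n).filter fun c : ℕ => c.Prime ∧ a < c ∧ mo L P ∣ c + 1 ∧
        SSN.Val A₀ B₀ C₀ ((pr L * a * c : ℕ) : ℤ)).card : ℕ) : ℝ) ≤ R)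
    (hW : ∀ t ∈ W, t ∈ WW L P ρ₁ ρ₂ Y ∧ t.1 ≠ p ∧ pr L * t.1 * t.2 ∈ F)
    (hB : Bin p F) (hR : 0 ≤ R) : (W.card : ℝ) ≤ 1 + ((AS L P Y).card : ℝ) * R := by
  have hY0 : 0 ≤ Y := by linarith
  have hs : 0 ≤ ((AS L P Y).card : ℝ) * R := mul_nonneg (Nat.cast_nonneg _) hR
  by_cases hc : W.card ≤ 1
  · have : (W.card : ℝ) ≤ 1 := by exact_mod_cast hc
    linarith
  · have h1 : (W.image fun t : Σ _ : ℕ, ℕ => pr L * t.1 * t.2).card = W.card := by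
      apply Finset.card_image_of_injOn
      exact (injOn_D hL hρ1 hρ2 hY0).mono fun t ht =>
        Finset.mem_coe.2 (hW t (Finset.mem_coe.1 ht)).1
    obtain ⟨A₀, B₀, C₀, w, q1, q2, q3, q4⟩ := hB
      (W.image fun t : Σ _ : ℕ, ℕ => pr L * t.1 * t.2) (by omega) (by
        intro D hD
        obtain ⟨t, ht, rfl⟩ := Finset.mem_image.1 hD
        exact (hW t ht).2.2)
    have h2 : W.card = ∑ a ∈ AS L P Y, (W.filter fun t => t.1 = a).card := by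
      apply Finset.card_eq_sum_card_fiberwise
      intro t ht
      exact Finset.mem_coe.2 (Finset.mem_sigma.1 (hW t (Finset.mem_coe.1 ht)).1).1
    have h3 : (W.card : ℝ) = ∑ a ∈ AS L P Y, ((W.filter fun t => t.1 = a).card : ℝ) := by
      rw [h2]
      push_cast
      rfl
    have h4 : ∀ a ∈ AS L P Y, ((W.filter fun t => t.1 = a).card : ℝ) ≤ R := by
      intro a ha
      obtain ⟨a1, a2, a3, a4, a5⟩ := mem_AS hY0 ha
      by_cases hne : (W.filter fun t => t.1 = a) = ∅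
      · rw [hne, Finset.card_empty, Nat.cast_zero]
        exact hR
      · obtain ⟨t₀, ht₀⟩ := Finset.nonempty_iff_ne_empty.2 hne
        obtain ⟨ht₁, ht₂⟩ := Finset.mem_filter.1 ht₀
        have hap : a ≠ p := by
          rw [← ht₂]
          exact (hW t₀ ht₁).2.1
        have ha2 : a ≠ 2 := by
          rintro rfl
          push_cast at a2
          linarith
        refine le_trans ?_ (hF a A₀ B₀ C₀ w a1 ha2 hap (not_mem_of_dvd a1 a4) ⟨q1, q2, q3⟩)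
        have h5 : (W.filter fun t => t.1 = a).card ≤
            ((Icc 1 n).filter fun c : ℕ => c.Prime ∧ a < c ∧ mo L P ∣ c + 1 ∧
              SSN.Val A₀ B₀ C₀ ((pr L * a * c : ℕ) : ℤ)).card := by
          apply Finset.card_le_card_of_injOn (fun t => t.2)
          · intro t ht
            obtain ⟨k1, k2⟩ := Finset.mem_filter.1 (Finset.mem_coe.1 ht)
            obtain ⟨k3, k4, k5⟩ := hW t k1
            obtain ⟨k6, k7⟩ := Finset.mem_sigma.1 k3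
            rw [k2] at k6 k7
            have hp' := pair hL hρ1 hρ2 hY0 k6 k7
            obtain ⟨c1, c2, c3, c4⟩ := mem_CS k7
            have hv := q4 (pr L * t.1 * t.2) (Finset.mem_image.2 ⟨t, k1, rfl⟩)
            rw [k2] at hv
            apply Finset.mem_coe.2
            refine Finset.mem_filter.2 ⟨Finset.mem_Icc.2 ⟨c1.one_lt.le, ?_⟩, c1, hp'.1, c4, hv⟩
            rw [hn]
            exact Nat.le_floor hp'.2.2.2.2.2.2.1
          · rintro ⟨b, c⟩ ht ⟨b', c'⟩ ht' he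
            have k1 := (Finset.mem_filter.1 (Finset.mem_coe.1 ht)).2
            have k2 := (Finset.mem_filter.1 (Finset.mem_coe.1 ht')).2
            simp only at k1 k2 he
            subst k1
            subst k2
            subst he
            rfl
        exact_mod_cast h5
    rw [h3]
    calc ∑ a ∈ AS L P Y, ((W.filter fun t => t.1 = a).card : ℝ)
        ≤ ∑ _a ∈ AS L P Y, R := Finset.sum_le_sum h4
      _ = ((AS L P Y).card : ℝ) * R := by rw [Finset.sum_const, nsmul_eq_mul]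
      _ ≤ 1 + ((AS L P Y).card : ℝ) * R := by linarith

/-! ## Inequalities for large `Y` -/

lemma ev_log2 {b : ℝ} (C : ℝ) (hb : 0 < b) :
    ∀ᶠ Y : ℝ in atTop, C * (Real.log Y) ^ 2 ≤ Y ^ b := by
  have h1 := (isLittleO_log_rpow_atTop (half_pos hb)).def (c := 1 / (|C| + 1)) (by positivity)
  filter_upwards [h1, eventually_ge_atTop (1 : ℝ)] with Y h2 h3
  have h0 : 0 < Y := by linarith
  have hl : 0 ≤ Real.log Y := Real.log_nonneg h3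
  rw [Real.norm_of_nonneg hl, Real.norm_of_nonneg (Real.rpow_nonneg h0.le _)] at h2
  have hC1 : (0 : ℝ) < |C| + 1 := by positivity
  have h4 : (|C| + 1) * Real.log Y ≤ Y ^ (b / 2) := by
    calc (|C| + 1) * Real.log Y ≤ (|C| + 1) * (1 / (|C| + 1) * Y ^ (b / 2)) :=
          mul_le_mul_of_nonneg_left h2 hC1.le
      _ = Y ^ (b / 2) := by field_simp
  have h5 : Y ^ (b / 2) * Y ^ (b / 2) = Y ^ b := by
    rw [← Real.rpow_add h0]
    congr 1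
    ring
  have h6 : C ≤ (|C| + 1) ^ 2 := by nlinarith [le_abs_self C, abs_nonneg C]
  calc C * (Real.log Y) ^ 2 ≤ (|C| + 1) ^ 2 * (Real.log Y) ^ 2 :=
        mul_le_mul_of_nonneg_right h6 (by positivity)
    _ = ((|C| + 1) * Real.log Y) * ((|C| + 1) * Real.log Y) := by ring
    _ ≤ Y ^ (b / 2) * Y ^ (b / 2) := mul_le_mul h4 h4 (by positivity)
        (Real.rpow_nonneg h0.le _)
    _ = Y ^ b := h5

/-- all inequalities that are needed for large `Y` -/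
structure Good (ρ₂ q A h κ₁ κ₃ b δ ε x Y : ℝ) : Prop where
  g1 : x ≤ Y
  g2 : x ≤ (Real.log Y) ^ 12
  g3 : Real.exp 1 ≤ Real.log Y
  g4 : q * ((12 * Real.log (Real.log Y)) ^ 2 *
    (A + 7 * (ρ₂ * Y) / (Real.log Y) ^ (3 / 2 : ℝ))) ≤ κ₁ * Y / (16 * h * Real.log Y)
  g5 : (ρ₂ + 1) * Y * Y ^ (1 / 2 : ℝ) + 2 * Y ^ (1 / 2 : ℝ) ≤ κ₃ / 8 * (Y ^ 2 / (Real.log Y) ^ 2)
  g6 : 7 * (b * ρ₂ * Y ^ 2) * (((Real.log Y) ^ 12) ^ (-(1 / 4 : ℝ)) * δ) ≤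
    κ₃ / 8 * (Y ^ 2 / (Real.log Y) ^ 2)
  g7 : Y ^ (2 - ε / 2) ≤ κ₃ / 8 * (Y ^ 2 / (Real.log Y) ^ 2)
  g8 : (Real.log (4 * (b * ρ₂ * Y ^ 2) ^ 2)) ^ 2 ≤ Y ^ (1 / 2 : ℝ)
  g9 : (Real.log Y) ^ 12 ≤ Y

lemma ev_good {ρ₂ q A h κ₁ κ₃ b δ ε : ℝ} (x : ℝ) (hρ : 1 ≤ ρ₂) (hq : 0 ≤ q) (hA : 0 ≤ A)
    (hh : 0 < h) (hκ₁ : 0 < κ₁) (hκ₃ : 0 < κ₃) (hb : 1 ≤ b) (hε : 0 < ε) :
    ∀ᶠ Y : ℝ in atTop, Good ρ₂ q A h κ₁ κ₃ b δ ε x Y := by
  have hlog := Real.tendsto_log_atTop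
  filter_upwards [eventually_ge_atTop x, eventually_ge_atTop (1 : ℝ),
    hlog.eventually ((tendsto_pow_atTop (show (12 : ℕ) ≠ 0 by norm_num)).eventually_ge_atTop x),
    hlog.eventually (eventually_ge_atTop (Real.exp 1)),
    hlog.eventually (ev_log2 (q * 144 * (7 * ρ₂) / (κ₁ / (32 * h)))
      (show (0 : ℝ) < 1 / 2 by norm_num)),
    hlog.eventually (ev_log2 1 (show (0 : ℝ) < 1 by norm_num)),
    ev_log2 (q * 144 * A / (κ₁ / (32 * h))) (show (0 : ℝ) < 1 by norm_num),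
    ev_log2 ((ρ₂ + 3) * (8 / κ₃)) (show (0 : ℝ) < 1 / 2 by norm_num),
    hlog.eventually (eventually_ge_atTop (7 * (b * ρ₂) * δ * (8 / κ₃))),
    ev_log2 (8 / κ₃) (half_pos hε),
    ev_log2 25 (show (0 : ℝ) < 1 / 2 by norm_num),
    eventually_ge_atTop (4 * (b * ρ₂) ^ 2),
    ev_log2 1 (show (0 : ℝ) < 1 / 6 by norm_num)]
    with Y a1 a2 a3 a4 a5 a6 a7 a8 a9 a10 a11 a12 a13
  have h0 : 0 < Y := by linarith
  have hl1 : 1 ≤ Real.log Y := le_trans (by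
    have := Real.add_one_le_exp (1 : ℝ)
    linarith) a4
  have hl : 0 < Real.log Y := by linarith
  have hX : 0 < Y ^ 2 / (Real.log Y) ^ 2 := by positivity
  refine ⟨a1, a3, a4, ?_, ?_, ?_, ?_, ?_, ?_⟩
  · generalize hlY : Real.log Y = l at *
    set c : ℝ := κ₁ / (32 * h) with hc
    have hc0 : 0 < c := by positivity
    have e0 : κ₁ * Y / (16 * h * l) = c * Y / l + c * Y / l := by
      rw [hc]
      field_simp
      ring
    have e1 : q * ((12 * Real.log l) ^ 2 * (A + 7 * (ρ₂ * Y) / l ^ (3 / 2 : ℝ))) =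
        q * 144 * A * (Real.log l) ^ 2 +
          q * 144 * (7 * ρ₂) * (Real.log l) ^ 2 * Y / l ^ (3 / 2 : ℝ) := by ring
    rw [e0, e1]
    rw [Real.rpow_one] at a6 a7
    apply add_le_add
    · rw [le_div_iff₀ hl]
      have h1 : q * 144 * A * (Real.log l) ^ 2 * l ≤ q * 144 * A * (l ^ 2) := by
        have : (Real.log l) ^ 2 * l ≤ l ^ 2 := by nlinarith
        calc q * 144 * A * (Real.log l) ^ 2 * l = q * 144 * A * ((Real.log l) ^ 2 * l) := by ring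
          _ ≤ q * 144 * A * (l ^ 2) := mul_le_mul_of_nonneg_left this (by positivity)
      refine h1.trans ?_
      calc q * 144 * A * (l ^ 2) = c * (q * 144 * A / c * l ^ 2) := by
            field_simp
        _ ≤ c * Y := mul_le_mul_of_nonneg_left a7 hc0.le
    · have e2 : l ^ (3 / 2 : ℝ) = l * l ^ (1 / 2 : ℝ) := by
        nth_rewrite 2 [← Real.rpow_one l]
        rw [← Real.rpow_add hl]
        norm_num
      have hs : 0 < l ^ (1 / 2 : ℝ) := Real.rpow_pos_of_pos hl _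
      rw [e2, div_le_div_iff₀ (mul_pos hl hs) hl]
      have h2 : q * 144 * (7 * ρ₂) * (Real.log l) ^ 2 ≤ c * l ^ (1 / 2 : ℝ) := by
        calc q * 144 * (7 * ρ₂) * (Real.log l) ^ 2 =
            c * (q * 144 * (7 * ρ₂) / c * (Real.log l) ^ 2) := by field_simp
          _ ≤ c * l ^ (1 / 2 : ℝ) := mul_le_mul_of_nonneg_left a5 hc0.le
      calc q * 144 * (7 * ρ₂) * (Real.log l) ^ 2 * Y * l =
          (q * 144 * (7 * ρ₂) * (Real.log l) ^ 2) * (Y * l) := by ring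
        _ ≤ (c * l ^ (1 / 2 : ℝ)) * (Y * l) := mul_le_mul_of_nonneg_right h2 (by positivity)
        _ = c * Y * (l * l ^ (1 / 2 : ℝ)) := by ring
  · rw [← mul_div_assoc, le_div_iff₀ (by positivity)]
    have hs0 : 0 < Y ^ (1 / 2 : ℝ) := Real.rpow_pos_of_pos h0 _
    have e2 : Y ^ (1 / 2 : ℝ) * Y ^ (1 / 2 : ℝ) = Y := by
      rw [← Real.rpow_add h0]; norm_num
    have h1 : (ρ₂ + 1) * Y * Y ^ (1 / 2 : ℝ) + 2 * Y ^ (1 / 2 : ℝ) ≤
        (ρ₂ + 3) * (Y * Y ^ (1 / 2 : ℝ)) := by nlinarith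
    have h2 : (ρ₂ + 3) * (Real.log Y) ^ 2 ≤ κ₃ / 8 * Y ^ (1 / 2 : ℝ) := by
      calc (ρ₂ + 3) * (Real.log Y) ^ 2 =
          κ₃ / 8 * ((ρ₂ + 3) * (8 / κ₃) * (Real.log Y) ^ 2) := by field_simp
        _ ≤ _ := mul_le_mul_of_nonneg_left a8 (by positivity)
    calc ((ρ₂ + 1) * Y * Y ^ (1 / 2 : ℝ) + 2 * Y ^ (1 / 2 : ℝ)) * (Real.log Y) ^ 2
        ≤ (ρ₂ + 3) * (Y * Y ^ (1 / 2 : ℝ)) * (Real.log Y) ^ 2 :=
          mul_le_mul_of_nonneg_right h1 (by positivity)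
      _ = (ρ₂ + 3) * (Real.log Y) ^ 2 * (Y * Y ^ (1 / 2 : ℝ)) := by ring
      _ ≤ κ₃ / 8 * Y ^ (1 / 2 : ℝ) * (Y * Y ^ (1 / 2 : ℝ)) :=
          mul_le_mul_of_nonneg_right h2 (by positivity)
      _ = κ₃ / 8 * Y * (Y ^ (1 / 2 : ℝ) * Y ^ (1 / 2 : ℝ)) := by ring
      _ = κ₃ / 8 * Y ^ 2 := by rw [e2]; ring
  · have e1 : ((Real.log Y) ^ 12) ^ (-(1 / 4 : ℝ)) = 1 / (Real.log Y) ^ 3 := by
      have e2 : ((Real.log Y) ^ 12) ^ (-(1 / 4 : ℝ)) = (Real.log Y) ^ (-((3 : ℕ) : ℝ)) := by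
        rw [← Real.rpow_natCast (Real.log Y) 12, ← Real.rpow_mul hl.le]
        congr 1
        push_cast
        norm_num
      rw [e2, Real.rpow_neg hl.le, Real.rpow_natCast, one_div]
    rw [e1]
    have h1 : 7 * (b * ρ₂) * δ ≤ κ₃ / 8 * Real.log Y := by
      calc 7 * (b * ρ₂) * δ = κ₃ / 8 * (7 * (b * ρ₂) * δ * (8 / κ₃)) := by field_simp
        _ ≤ _ := mul_le_mul_of_nonneg_left a9 (by positivity)
    calc 7 * (b * ρ₂ * Y ^ 2) * (1 / (Real.log Y) ^ 3 * δ) =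
        7 * (b * ρ₂) * δ * (Y ^ 2 / (Real.log Y) ^ 3) := by ring
      _ ≤ κ₃ / 8 * Real.log Y * (Y ^ 2 / (Real.log Y) ^ 3) :=
          mul_le_mul_of_nonneg_right h1 (by positivity)
      _ = κ₃ / 8 * (Y ^ 2 / (Real.log Y) ^ 2) := by
          field_simp
  · rw [← mul_div_assoc, le_div_iff₀ (by positivity)]
    have e1 : Y ^ (2 - ε / 2) * Y ^ (ε / 2) = Y ^ 2 := by
      rw [← Real.rpow_add h0, ← Real.rpow_natCast]
      congr 1
      push_cast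
      ring
    have h2 : (Real.log Y) ^ 2 ≤ κ₃ / 8 * Y ^ (ε / 2) := by
      calc (Real.log Y) ^ 2 = κ₃ / 8 * (8 / κ₃ * (Real.log Y) ^ 2) := by field_simp
        _ ≤ _ := mul_le_mul_of_nonneg_left a10 (by positivity)
    calc Y ^ (2 - ε / 2) * (Real.log Y) ^ 2 ≤ Y ^ (2 - ε / 2) * (κ₃ / 8 * Y ^ (ε / 2)) :=
          mul_le_mul_of_nonneg_left h2 (Real.rpow_nonneg h0.le _)
      _ = κ₃ / 8 * (Y ^ (2 - ε / 2) * Y ^ (ε / 2)) := by ring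
      _ = κ₃ / 8 * Y ^ 2 := by rw [e1]
  · have hbρ : 1 ≤ b * ρ₂ := by nlinarith
    have hc : 1 ≤ 4 * (b * ρ₂) ^ 2 := by nlinarith
    have e1 : 4 * (b * ρ₂ * Y ^ 2) ^ 2 = (4 * (b * ρ₂) ^ 2) * Y ^ 4 := by ring
    rw [e1, Real.log_mul (by positivity) (by positivity), Real.log_pow]
    have h1 : Real.log (4 * (b * ρ₂) ^ 2) ≤ Real.log Y := Real.log_le_log (by positivity) a12
    have h2 : 0 ≤ Real.log (4 * (b * ρ₂) ^ 2) := Real.log_nonneg hc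
    refine le_trans ?_ a11
    have h3 : Real.log (4 * (b * ρ₂) ^ 2) + ((4 : ℕ) : ℝ) * Real.log Y ≤ 5 * Real.log Y := by
      push_cast
      linarith
    have h4 : 0 ≤ Real.log (4 * (b * ρ₂) ^ 2) + ((4 : ℕ) : ℝ) * Real.log Y := by positivity
    calc (Real.log (4 * (b * ρ₂) ^ 2) + ((4 : ℕ) : ℝ) * Real.log Y) ^ 2 ≤
        (5 * Real.log Y) ^ 2 := pow_le_pow_left₀ h4 h3 2
      _ = 25 * (Real.log Y) ^ 2 := by ring
  · rw [one_mul] at a13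
    calc (Real.log Y) ^ 12 = ((Real.log Y) ^ 2) ^ 6 := by ring
      _ ≤ (Y ^ (1 / 6 : ℝ)) ^ 6 := pow_le_pow_left₀ (by positivity) a13 6
      _ = Y := by
          rw [← Real.rpow_natCast, ← Real.rpow_mul h0.le]
          norm_num

/-! ## The main inequality -/

theorem NS_mono {S : Set ℕ} {x y : ℝ} (h : x ≤ y) : NS S x ≤ NS S y := by
  unfold NS
  have : {p : ℕ | p ∈ S ∧ (p : ℝ) ≤ x}.ncard ≤ {p : ℕ | p ∈ S ∧ (p : ℝ) ≤ y}.ncard := by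
    apply Set.ncard_le_ncard _ (finite_le S y)
    rintro p ⟨h1, h2⟩
    exact ⟨h1, h2.trans h⟩
  exact_mod_cast this

/-- the final arithmetic -/
theorem final {N B X κ nY nρ nz nw nv a d1 e1 e2 sY ρ Y : ℝ} (hB : κ * X ≤ B)
    (hX : 0 < κ * X) (hlow : B ≤ N)
    (hup : N ≤ nY * (ρ * Y) + Y * nρ + (d1 + nz * (1 + a) + (nw + e1) + nv))
    (h1 : nY * (ρ * Y) ≤ sY * (ρ * Y)) (h2 : Y * nρ ≤ Y * sY) (h3 : nz ≤ sY) (h4 : nw ≤ sY)
    (h5 : d1 ≤ B / 8) (h6 : nz * a ≤ B / 8) (h7 : nv ≤ e2)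
    (g5 : (ρ + 1) * Y * sY + 2 * sY ≤ κ / 8 * X) (g6 : e1 ≤ κ / 8 * X)
    (g7 : e2 ≤ κ / 8 * X) : False := by
  have k1 : nz * (1 + a) = nz + nz * a := by ring
  have k2 : (ρ + 1) * Y * sY = sY * (ρ * Y) + Y * sY := by ring
  have k3 : κ / 8 * X = κ * X / 8 := by ring
  rw [k1] at hup
  rw [k2, k3] at g5
  rw [k3] at g6 g7
  linarith

theorem split_card {τ : Type*} (W : Finset τ) (A B : τ → Prop) :
    (W.card : ℝ) ≤ ((W.filter fun t => A t).card : ℝ) + ((W.filter fun t => B t).card : ℝ) +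
      ((W.filter fun t => ¬ A t ∧ ¬ B t).card : ℝ) := by
  have h : W.card ≤ (W.filter fun t => A t).card + (W.filter fun t => B t).card +
      (W.filter fun t => ¬ A t ∧ ¬ B t).card := by
    calc W.card ≤ ((W.filter fun t => A t) ∪ (W.filter fun t => B t) ∪
          (W.filter fun t => ¬ A t ∧ ¬ B t)).card := by
          apply Finset.card_le_card
          intro t ht
          simp only [Finset.mem_union, Finset.mem_filter]
          by_cases hA : A t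
          · exact Or.inl (Or.inl ⟨ht, hA⟩)
          · by_cases hB : B t
            · exact Or.inl (Or.inr ⟨ht, hB⟩)
            · exact Or.inr ⟨ht, hA, hB⟩
      _ ≤ _ := (Finset.card_union_le _ _).trans (Nat.add_le_add_right (Finset.card_union_le _ _) _)
  exact_mod_cast h

/-- the inequality for one `Y` -/
theorem core {S : Set ℕ} {K : ℕ → ℕ → Prop} {L P : Finset ℕ}
    {ρ₁ ρ₂ ε x₀ κ₁ κ₂ A C δ x h q Y : ℝ} {a₀ D₀ P₁ : ℕ}
    (hKIL : SSC.T_KIL) (hL : SSN.OddPr L) (hρ1 : 1 ≤ ρ₁) (hρ12 : ρ₁ < ρ₂)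
    (hS : ∀ p ∈ S, p.Prime ∧ p ≠ 2 ∧ p ∉ L)
    (hkill : ∀ a c : ℕ, a.Prime → c.Prime → D₀ ≤ a → ρ₁ * a < c →
      (c : ℝ) < ρ₂ * a → pr L ∣ a + 1 → pr L ∣ c + 1 → SSN.MM P ∣ pr L * a * c + 1 →
      a ∈ S ∨ c ∈ S ∨ ∃ p ∈ S, P₁ < p ∧ K (pr L * a * c) p ∧
        (p : ℝ) ≤ Real.exp ((a : ℝ) ^ (1 + ε / 4)))
    (hBin : ∀ p ∈ S, Bin p {D : ℕ | Squarefree D ∧ K D p})
    (hε : 0 < ε) (hns : ∀ x : ℝ, x₀ ≤ x → NS S x ≤ (Real.log x) ^ (2 - ε))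
    (hh : 0 < h) (hκ₁ : 0 < κ₁) (hκ₂ : 0 < κ₂) (hq : 0 < q) (hC : 0 < C) (hA : 0 ≤ A)
    (hδ : δ = κ₁ / (16 * q * C * ρ₂))
    (hCS : ∀ a : ℕ, a₀ ≤ a → κ₁ * a / (h * Real.log a) ≤ ((CS L P ρ₁ ρ₂ a).card : ℝ))
    (hAS : κ₂ * Y / Real.log Y ≤ ((AS L P Y).card : ℝ))
    (hF : ∀ (p a : ℕ) (A₀ B₀ C₀ w : ℤ), p.Prime → p ≠ 2 → p ∉ L → a.Prime → a ≠ 2 →
      a ≠ p → a ∉ L → Pf p A₀ B₀ C₀ w → ∀ n : ℕ, 3 ≤ n →
      ((((Icc 1 n).filter fun c : ℕ => c.Prime ∧ a < c ∧ mo L P ∣ c + 1 ∧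
        SSN.Val A₀ B₀ C₀ ((pr L * a * c : ℕ) : ℤ)).card : ℕ) : ℝ) ≤
      q * (A + 7 * n / (Real.log n) ^ (3 / 2 : ℝ) +
        C / (h * (p : ℝ) ^ (1 / 4 : ℝ)) * n / Real.log n))
    (hT : ∀ G : Finset ℕ, (∀ p ∈ G, p ∈ S ∧ P₁ < p) → ∑ p ∈ G, (p : ℝ) ^ (-(1 / 4 : ℝ)) ≤ δ)
    (hg : Good ρ₂ q A h κ₁ (κ₂ * κ₁ / (2 * h)) (pr L) δ ε x Y)
    (hx₀ : x₀ ≤ x) (hx4 : 4 ≤ x) (hxρ : 1 / (ρ₂ - 1) ≤ x) (hxa : 2 * (a₀ : ℝ) ≤ x)
    (hxD : 2 * (D₀ : ℝ) ≤ x) : False := by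
  obtain ⟨g1, g2, g3, g4, g5, g6, g7, g8, g9⟩ := hg
  have hY4 : 4 ≤ Y := hx4.trans g1
  have hY0 : 0 < Y := by linarith
  have hY1 : 1 ≤ Y := by linarith
  have hρ2 : 1 < ρ₂ := by linarith
  have hρ0 : 0 < ρ₂ := by linarith
  have hl1 : 1 ≤ Real.log Y := le_trans (by
    have := Real.add_one_le_exp (1 : ℝ)
    linarith) g3
  have hl : 0 < Real.log Y := by linarith
  have hL1 : (1 : ℝ) ≤ pr L := by exact_mod_cast pr_pos hL
  -- the number `n`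
  obtain ⟨n, hn⟩ : ∃ n : ℕ, n = ⌊ρ₂ * Y⌋₊ := ⟨_, rfl⟩
  have hnY : Y ≤ n := by
    have h1 : ρ₂ * Y < n + 1 := by rw [hn]; exact Nat.lt_floor_add_one _
    have h2 : 1 ≤ (ρ₂ - 1) * Y := by
      have h3 : 0 < ρ₂ - 1 := by linarith
      rw [div_le_iff₀ h3] at hxρ
      nlinarith
    linarith
  have hnρ : (n : ℝ) ≤ ρ₂ * Y := by rw [hn]; exact Nat.floor_le (by positivity)
  have hn3 : 3 ≤ n := by
    have : (3 : ℝ) ≤ n := by linarith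
    exact_mod_cast this
  have hn0 : (0 : ℝ) < n := by linarith
  have hlogn : Real.log Y ≤ Real.log n := Real.log_le_log hY0 hnY
  have hln : 0 < Real.log n := by linarith
  -- the numbers `T`, `z`
  obtain ⟨T, hTdef⟩ : ∃ T : ℝ, T = pr L * ρ₂ * Y ^ 2 := ⟨_, rfl⟩
  have hTY : Y ^ 2 ≤ T := by
    rw [hTdef]
    have : 1 ≤ (pr L : ℝ) * ρ₂ := by nlinarith
    nlinarith [sq_nonneg Y]
  have hT1 : 1 ≤ T := by nlinarith
  obtain ⟨z, hz⟩ : ∃ z : ℝ, z = (Real.log Y) ^ 12 := ⟨_, rfl⟩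
  have hz0 : 0 < z := by rw [hz]; positivity
  rw [← hTdef] at g6 g8
  rw [← hz] at g2 g6 g9
  -- bounds for `NS`
  have nsw : NS S (4 * T ^ 2) ≤ Y ^ (1 / 2 : ℝ) := by
    have h1 : Y ≤ 4 * T ^ 2 := by nlinarith
    have h2 : 1 ≤ Real.log (4 * T ^ 2) := hl1.trans (Real.log_le_log hY0 h1)
    refine ((hns _ ((hx₀.trans g1).trans h1)).trans ?_).trans g8
    rw [← Real.rpow_natCast (Real.log (4 * T ^ 2)) 2]
    exact Real.rpow_le_rpow_of_exponent_le h2 (by push_cast; linarith)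
  have nsY : NS S Y ≤ Y ^ (1 / 2 : ℝ) := (NS_mono (by nlinarith)).trans nsw
  have nsρ : NS S (ρ₂ * Y) ≤ Y ^ (1 / 2 : ℝ) := by
    refine (NS_mono ?_).trans nsw
    have h1 : ρ₂ * Y ≤ T := by
      rw [hTdef]
      calc ρ₂ * Y ≤ ρ₂ * Y ^ 2 := mul_le_mul_of_nonneg_left (by nlinarith) hρ0.le
        _ = 1 * (ρ₂ * Y ^ 2) := by ring
        _ ≤ pr L * (ρ₂ * Y ^ 2) := mul_le_mul_of_nonneg_right hL1 (by positivity)
        _ = pr L * ρ₂ * Y ^ 2 := by ring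
    nlinarith
  have hll : 1 ≤ Real.log (Real.log Y) := by
    rw [← Real.log_exp 1]
    exact Real.log_le_log (Real.exp_pos 1) g3
  have nsz' : NS S z ≤ (12 * Real.log (Real.log Y)) ^ 2 := by
    have h1 : Real.log z = 12 * Real.log (Real.log Y) := by
      rw [hz, Real.log_pow]
      push_cast
      ring
    refine (hns z (hx₀.trans g2)).trans ?_
    rw [h1, ← Real.rpow_natCast (12 * Real.log (Real.log Y)) 2]
    exact Real.rpow_le_rpow_of_exponent_le (by linarith) (by push_cast; linarith)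
  have nsz : NS S z ≤ Y ^ (1 / 2 : ℝ) := (NS_mono g9).trans nsY
  have nsv : NS S (Real.exp (Y ^ (1 + ε / 4))) ≤ Y ^ (2 - ε / 2) := by
    have h1 : Y ≤ Y ^ (1 + ε / 4) := by
      calc Y = Y ^ (1 : ℝ) := (Real.rpow_one Y).symm
        _ ≤ _ := Real.rpow_le_rpow_of_exponent_le hY1 (by linarith)
    have h2 : x₀ ≤ Real.exp (Y ^ (1 + ε / 4)) := by
      have := Real.add_one_le_exp (Y ^ (1 + ε / 4))
      linarith
    refine (hns _ h2).trans ?_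
    rw [Real.log_exp, ← Real.rpow_mul hY0.le]
    apply Real.rpow_le_rpow_of_exponent_le hY1
    nlinarith [sq_nonneg ε]
  -- the lower bound
  have hlow := lower (ρ₁ := ρ₁) (ρ₂ := ρ₂) hκ₁.le hh hY4 (hxa.trans g1) hCS
  obtain ⟨s, hs⟩ : ∃ s : ℝ, s = ((AS L P Y).card : ℝ) := ⟨_, rfl⟩
  have hs0 : 0 ≤ s := by rw [hs]; exact Nat.cast_nonneg _
  rw [← hs] at hlow hAS
  -- the killers
  obtain ⟨F, hF'⟩ : ∃ F : ℕ → Set ℕ, ∀ p, F p = {D : ℕ | Squarefree D ∧ K D p} := ⟨_, fun _ => rfl⟩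
  simp only [← hF'] at hBin
  have hFsq : ∀ p, ∀ D ∈ F p, 0 < D ∧ Squarefree D := by
    intro p D hD
    rw [hF'] at hD
    exact ⟨Nat.pos_of_ne_zero hD.1.ne_zero, hD.1⟩
  have hWW := split_card (WW L P ρ₁ ρ₂ Y) (fun t => t.1 ∈ S) (fun t => t.2 ∈ S)
  have hWA := WA (L := L) (P := P) (ρ₁ := ρ₁) (S := S) hρ0.le hY0.le
  have hWC := WC (L := L) (P := P) (ρ₁ := ρ₁) (S := S) hρ0.le hY0.le
  obtain ⟨W, hW⟩ : ∃ W, W = (WW L P ρ₁ ρ₂ Y).filter (fun t => ¬ t.1 ∈ S ∧ ¬ t.2 ∈ S) := ⟨_, rfl⟩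
  rw [← hW] at hWW
  have hWm : ∀ t ∈ W, t ∈ WW L P ρ₁ ρ₂ Y ∧ t.1 ∉ S ∧ t.2 ∉ S := by
    intro t ht
    rw [hW] at ht
    exact Finset.mem_filter.1 ht
  have hk : ∀ t ∈ W, ∃ p ∈ S, P₁ < p ∧ pr L * t.1 * t.2 ∈ F p ∧
      (p : ℝ) ≤ Real.exp (Y ^ (1 + ε / 4)) := by
    intro t ht
    obtain ⟨t1, t2, t3⟩ := hWm t ht
    obtain ⟨t4, t5⟩ := Finset.mem_sigma.1 t1
    obtain ⟨a1, a2, a3, a4, a5⟩ := mem_AS hY0.le t4
    obtain ⟨c1, c2, c3, c4⟩ := mem_CS t5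
    obtain ⟨p1, p2, p3, p4, p5, p6, p7, p8⟩ := pair hL hρ1 hρ0.le hY0.le t4 t5
    have hD : D₀ ≤ t.1 := by
      have : (D₀ : ℝ) ≤ (t.1 : ℕ) := by linarith
      exact_mod_cast this
    rcases hkill t.1 t.2 a1 c1 hD c2 c3 a4 p5 p6 with h1 | h1 | ⟨p, k1, k2, k3, k4⟩
    · exact absurd h1 t2
    · exact absurd h1 t3
    · refine ⟨p, k1, k2, ?_, k4.trans ?_⟩
      · rw [hF']
        exact ⟨p4, k3⟩
      · apply Real.exp_le_exp.2
        exact Real.rpow_le_rpow (Nat.cast_nonneg _) a3 (by linarith)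
  choose! pf hpf using hk
  have hfib : ∀ p : ℕ, ∀ t ∈ W.filter (fun t => pf t = p), t ∈ WW L P ρ₁ ρ₂ Y ∧
      pr L * t.1 * t.2 ∈ F p := by
    intro p t ht
    obtain ⟨h1, h2⟩ := Finset.mem_filter.1 ht
    refine ⟨(hWm t h1).1, ?_⟩
    have := (hpf t h1).2.2.1
    rwa [h2] at this
  have hns0 : ∀ p ∈ S, ((W.filter fun t => pf t = p).card : ℝ) ≤ NS (F p) T := by
    intro p hp
    rw [hTdef]
    exact fib_NS hL hρ1 hρ0.le hY0.le (hfib p)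
  have hkil := fun (p : ℕ) (hp : p ∈ S) => hKIL p (F p) (hS p hp).1 (hS p hp).2.1
    (hFsq p) (hBin p hp) T hT1
  obtain ⟨R, hR⟩ : ∃ R : ℝ, R = A + 7 * n / (Real.log n) ^ (3 / 2 : ℝ) := ⟨_, rfl⟩
  have hR0 : 0 ≤ R := by
    rw [hR]
    positivity
  have hu := upper (W := W) (pf := pf) (z := z) (w := 4 * T ^ 2)
    (v := Real.exp (Y ^ (1 + ε / 4))) (α := s * (q * (C / h * n / Real.log n)))
    (β := 1 + s * (q * R)) (γ := 7 * T) hT (by positivity) (by positivity) (by positivity) hz0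
    (fun t ht => ⟨(hpf t ht).1, (hpf t ht).2.1, (hpf t ht).2.2.2⟩)
    (fun p hp hpP => by
      have hp0 : (0 : ℝ) < p := by exact_mod_cast (hS p hp).1.pos
      have h1 := one_p (p := p) (W := W.filter fun t => pf t = p) (F := F p)
        (R := q * (A + 7 * n / (Real.log n) ^ (3 / 2 : ℝ) +
        C / (h * (p : ℝ) ^ (1 / 4 : ℝ)) * n / Real.log n)) hL hρ1 hρ0.le hY4 hn
        (fun a A₀ B₀ C₀ w b1 b2 b3 b4 b5 => hF p a A₀ B₀ C₀ w (hS p hp).1 (hS p hp).2.1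
          (hS p hp).2.2 b1 b2 b3 b4 b5 n hn3)
        (by
          intro t ht
          obtain ⟨h1, h2⟩ := hfib p t ht
          refine ⟨h1, ?_, h2⟩
          rintro rfl
          exact (hWm t (Finset.mem_filter.1 ht).1).2.1 hp)
        (hBin p hp) (by positivity)
      refine h1.trans (le_of_eq ?_)
      rw [← hs, ← hR, Real.rpow_neg hp0.le]
      have e1 : C / (h * (p : ℝ) ^ (1 / 4 : ℝ)) * n / Real.log n =
          C / h * n / Real.log n * ((p : ℝ) ^ (1 / 4 : ℝ))⁻¹ := by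
        rw [div_mul_eq_div_div]
        ring
      rw [e1]
      ring)
    (fun p hp => (hns0 p hp).trans ((hkil p hp).1.trans (le_of_eq (by
      rw [← inv_sqrt]; ring))))
    (fun p hp hwp => (hns0 p hp).trans ((hkil p hp).2.1 hwp))
  -- conclusion
  have hX0 : 0 < Y ^ 2 / (Real.log Y) ^ 2 := by positivity
  refine final (B := s * (κ₁ * Y / (2 * h * Real.log Y))) (X := Y ^ 2 / (Real.log Y) ^ 2)
    (a := s * (q * R)) ?_ (by positivity) hlow (hWW.trans (add_le_add (add_le_add hWA hWC) hu))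
    (mul_le_mul_of_nonneg_right nsY (by positivity)) (mul_le_mul_of_nonneg_left nsρ hY0.le)
    nsz nsw ?_ ?_ nsv g5 g6 g7
  · calc κ₂ * κ₁ / (2 * h) * (Y ^ 2 / (Real.log Y) ^ 2) =
        κ₂ * Y / Real.log Y * (κ₁ * Y / (2 * h * Real.log Y)) := by
          field_simp
      _ ≤ _ := mul_le_mul_of_nonneg_right hAS (by positivity)
  · have h1 : (n : ℝ) / Real.log n ≤ ρ₂ * Y / Real.log Y := by
      rw [div_le_div_iff₀ hln hl]
      exact mul_le_mul hnρ hlogn hl.le (by positivity)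
    rw [hδ]
    calc s * (q * (C / h * n / Real.log n)) * (κ₁ / (16 * q * C * ρ₂)) =
        s * (κ₁ / (16 * h * ρ₂)) * (n / Real.log n) := by
          field_simp
      _ ≤ s * (κ₁ / (16 * h * ρ₂)) * (ρ₂ * Y / Real.log Y) :=
          mul_le_mul_of_nonneg_left h1 (by positivity)
      _ = s * (κ₁ * Y / (2 * h * Real.log Y)) / 8 := by
          field_simp
          ring
  · have h1 : R ≤ A + 7 * (ρ₂ * Y) / (Real.log Y) ^ (3 / 2 : ℝ) := by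
      rw [hR]
      apply add_le_add_right
      have h2 : 0 < (Real.log Y) ^ (3 / 2 : ℝ) := Real.rpow_pos_of_pos hl _
      have h3 : (Real.log Y) ^ (3 / 2 : ℝ) ≤ (Real.log n) ^ (3 / 2 : ℝ) :=
        Real.rpow_le_rpow hl.le hlogn (by norm_num)
      exact div_le_div₀ (by positivity) (by linarith) h2 h3
    calc NS S z * (s * (q * R)) = s * (q * (NS S z * R)) := by ring
      _ ≤ s * (q * ((12 * Real.log (Real.log Y)) ^ 2 *
          (A + 7 * (ρ₂ * Y) / (Real.log Y) ^ (3 / 2 : ℝ)))) := by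
          apply mul_le_mul_of_nonneg_left _ hs0
          apply mul_le_mul_of_nonneg_left _ hq.le
          exact mul_le_mul nsz' h1 hR0 (by positivity)
      _ ≤ s * (κ₁ * Y / (16 * h * Real.log Y)) := mul_le_mul_of_nonneg_left g4 hs0
      _ = s * (κ₁ * Y / (2 * h * Real.log Y)) / 8 := by
          field_simp
          ring

theorem ph_pos {P : Finset ℕ} (hP : SSN.OddPr P) : 0 < SSN.ph P := by
  unfold SSN.ph
  apply Finset.prod_pos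
  intro p hp
  have : (1 : ℝ) < p := by exact_mod_cast (hP p hp).1.one_lt
  linarith

/-- the case `ε ≤ 1` -/
theorem main (h1 : T_FXA) (h2 : T_NPC) (h3 : T_TLS) (h4 : SSC.T_KIL) {S : Set ℕ}
    {K : ℕ → ℕ → Prop} {L P : Finset ℕ} {ρ₁ ρ₂ : ℝ} (hD : DatL S K L P ρ₁ ρ₂) {ε : ℝ}
    (hε : 0 < ε) (hε1 : ε ≤ 1) (x₀ : ℝ) : ∃ x : ℝ, x₀ ≤ x ∧ (Real.log x) ^ (2 - ε) ≤ NS S x := by
  by_contra hcon
  push Not at hcon
  have hns : ∀ x : ℝ, x₀ ≤ x → NS S x ≤ (Real.log x) ^ (2 - ε) := fun x hx => (hcon x hx).le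
  obtain ⟨hP, hL, hdisj, hρ1, hρ12, hS, H3, hKill, hBin⟩ := hD
  obtain ⟨C, hC, hFXA⟩ := h1
  obtain ⟨κ₁, hκ₁, hNPC⟩ := h2 ρ₁ ρ₂ hρ1 hρ12
  have hρ0 : 0 < ρ₂ := by linarith
  obtain ⟨q, hqdef⟩ : ∃ q : ℝ, q = 2 ^ (L.card + 1) := ⟨_, rfl⟩
  have hq : 0 < q := by rw [hqdef]; positivity
  obtain ⟨P₁, hP₁⟩ := h3 S (2 - ε) x₀ (by linarith) (fun p hp => (hS p hp).1.pos) hns
    (κ₁ / (16 * q * C * ρ₂)) (by positivity)
  obtain ⟨P', hP'⟩ : ∃ P' : Finset ℕ, P' = P ∪ (Icc 1 P₁).filter (fun p => p ∈ S) := ⟨_, rfl⟩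
  have hP'mem : ∀ p ∈ P', p ∈ P ∨ p ∈ S := by
    intro p hp
    rw [hP'] at hp
    rcases Finset.mem_union.1 hp with h | h
    · exact Or.inl h
    · exact Or.inr (Finset.mem_filter.1 h).2
  have hPP' : P ⊆ P' := by
    rw [hP']
    exact Finset.subset_union_left
  have hPO : SSN.OddPr P' := by
    intro p hp
    rcases hP'mem p hp with h | h
    · exact hP p h
    · exact ⟨(hS p h).1, (hS p h).2.1⟩
  have hdisj' : Disjoint P' L := by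
    rw [Finset.disjoint_left]
    intro p hp hpL
    rcases hP'mem p hp with h | h
    · exact Finset.disjoint_left.1 hdisj h hpL
    · exact (hS p h).2.2 hpL
  obtain ⟨⟨a₀, ha₀⟩, κ₂, Y₁, hκ₂, -, hAS⟩ := hNPC L P' hL hPO hdisj'
  obtain ⟨A, hA, hF⟩ := hFXA L P' hL hPO
  obtain ⟨D₀, hD₀⟩ := hKill (ε / 4) (by positivity)
  have hh : 0 < SSN.ph (P' ∪ L) := by
    apply ph_pos
    intro p hp
    rcases Finset.mem_union.1 hp with h | h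
    · exact hPO p h
    · exact hL p h
  have hL1 : (1 : ℝ) ≤ pr L := by exact_mod_cast pr_pos hL
  obtain ⟨Y, hY⟩ := (ev_good (ρ₂ := ρ₂) (q := q) (A := A) (h := SSN.ph (P' ∪ L)) (κ₁ := κ₁)
    (κ₃ := κ₂ * κ₁ / (2 * SSN.ph (P' ∪ L))) (b := pr L) (δ := κ₁ / (16 * q * C * ρ₂)) (ε := ε)
    (max (max x₀ 4) (max (max (1 / (ρ₂ - 1)) (2 * a₀)) (max (2 * D₀) Y₁))) (by linarith) hq.le hA
    hh hκ₁ (by positivity) hL1 hε).exists
  refine core (P := P') (x := max (max x₀ 4) (max (max (1 / (ρ₂ - 1)) (2 * a₀))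
    (max (2 * D₀) Y₁))) h4 hL hρ1 hρ12 hS ?_ hBin hε hns hh hκ₁ hκ₂ hq hC hA rfl ha₀
    (hAS Y ((le_max_right _ _).trans ((le_max_right _ _).trans ((le_max_right _ _).trans hY.g1))))
    ?_ hP₁ hY ((le_max_left _ _).trans (le_max_left _ _))
    ((le_max_right _ _).trans (le_max_left _ _))
    ((le_max_left _ _).trans ((le_max_left _ _).trans (le_max_right _ _)))
    ((le_max_right _ _).trans ((le_max_left _ _).trans (le_max_right _ _)))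
    ((le_max_left _ _).trans ((le_max_right _ _).trans (le_max_right _ _)))
  · intro a c ha hc hDa h5 h6 h7 h8 h9
    rcases hD₀ a c ha hc hDa h5 h6 h7 h8 ((MM_dvd_MM hPP').trans h9) with h | h | ⟨p, k1, k2, k3, k4⟩
    · exact Or.inl h
    · exact Or.inr (Or.inl h)
    · refine Or.inr (Or.inr ⟨p, k1, ?_, k3, k4⟩)
      by_contra hle
      apply H3 p k1 _ k3
      refine (dvd_MM ?_).trans h9
      rw [hP']
      exact Finset.mem_union_right _ (Finset.mem_filter.2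
        ⟨Finset.mem_Icc.2 ⟨(hS p k1).1.one_lt.le, not_lt.1 hle⟩, k1⟩)
  · intro p a A₀ B₀ C₀ w b1 b2 b3 b4 b5 b6 b7 b8 n hn
    rw [hqdef]
    exact hF p a A₀ B₀ C₀ w b1 b2 b3 b4 b5 b6 b7 b8 n hn

end CNTL_

open SSC in
/-- CNTL: the counting theorem -/
theorem p_CNTL (h1 : T_FXA) (h2 : T_NPC) (h3 : T_TLS) (h4 : SSC.T_KIL) : SSL.T_CNTL := by
  intro S K L P ρ₁ ρ₂ hD ε hε x₀
  by_cases hε1 : ε ≤ 1
  · exact CNTL_.main h1 h2 h3 h4 hD hε hε1 x₀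
  · obtain ⟨x, hx, h⟩ := CNTL_.main h1 h2 h3 h4 hD one_pos le_rfl (max x₀ (Real.exp 1))
    refine ⟨x, (le_max_left _ _).trans hx, le_trans ?_ h⟩
    have h5 : Real.exp 1 ≤ x := (le_max_right _ _).trans hx
    have h6 : 1 ≤ Real.log x := by
      rw [← Real.log_exp 1]
      exact Real.log_le_log (Real.exp_pos 1) h5
    exact Real.rpow_le_rpow_of_exponent_le h6 (by linarith)

end SSLC
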