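import Pool.Agent.SSL.CTargets

/-!
# MP_d74fca_nt, project SSL, part C: FXA
-/

set_option autoImplicit false

open scoped BigOperators Classical
open Finset

namespace SSLC

open SSL

namespace FXA_

theorem dvd_MM {Q : Finset ℕ} {l : ℕ} (hl : l ∈ Q) : l ∣ SSN.MM Q :=
  (Finset.dvd_prod_of_mem (fun p => p) hl).trans (Dvd.intro_left 8 rfl)

theorem ph_pos {Q : Finset ℕ} (hQ : SSN.OddPr Q) : 0 < SSN.ph Q := by
  refine Finset.prod_pos fun l hl => ?_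
  have h : (2 : ℝ) ≤ (l : ℝ) := by exact_mod_cast (hQ l hl).1.two_le
  linarith

theorem bound_nonneg {A C : ℝ} {Q : Finset ℕ} {p n : ℕ} (hA : 0 ≤ A) (hC : 0 < C)
    (hQ : SSN.OddPr Q) (hn : 3 ≤ n) :
    0 ≤ A + 7 * n / (Real.log n) ^ (3 / 2 : ℝ) +
      C / (SSN.ph Q * (p : ℝ) ^ (1 / 4 : ℝ)) * n / Real.log n := by
  have h1 : 0 ≤ Real.log (n : ℝ) := Real.log_nonneg (by
    have : (3 : ℝ) ≤ (n : ℝ) := by exact_mod_cast hn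
    linarith)
  have h2 : 0 ≤ (Real.log (n : ℝ)) ^ (3 / 2 : ℝ) := Real.rpow_nonneg h1 _
  have h3 := (ph_pos hQ).le
  have h4 : 0 ≤ (p : ℝ) ^ (1 / 4 : ℝ) := Real.rpow_nonneg (Nat.cast_nonneg p) _
  have h5 : (0 : ℝ) ≤ (n : ℝ) := Nat.cast_nonneg n
  have h6 : 0 ≤ 7 * (n : ℝ) / (Real.log n) ^ (3 / 2 : ℝ) := div_nonneg (by linarith) h2
  have h7 : 0 ≤ C / (SSN.ph Q * (p : ℝ) ^ (1 / 4 : ℝ)) := div_nonneg hC.le (mul_nonneg h3 h4)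
  have h8 : 0 ≤ C / (SSN.ph Q * (p : ℝ) ^ (1 / 4 : ℝ)) * n / Real.log n :=
    div_nonneg (mul_nonneg h7 h5) h1
  linarith

end FXA_

open FXA_ in
theorem p_FXA (h1 : T_SPX) (h2 : SSN.T_KIL) : T_FXA := by
  obtain ⟨C, hC, hK⟩ := h2
  refine ⟨C, hC, fun L P hL hP => ?_⟩
  have hPL : SSN.OddPr (P ∪ L) := fun l hl => (mem_union.1 hl).elim (hP l) (hL l)
  obtain ⟨A, hA, hK'⟩ := hK (P ∪ L) hPL
  refine ⟨A, hA, ?_⟩
  intro p a A₀ B₀ C₀ w hp hp2 hpL ha ha2 hap haL hPf n hn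
  obtain ⟨Fm, hcard, hFm, hsp⟩ := h1 p (insert a L) A₀ B₀ C₀ w hp (by
    intro l hl
    rcases mem_insert.1 hl with rfl | hl
    · exact ⟨ha, ha2, hap⟩
    · exact ⟨(hL l hl).1, (hL l hl).2, fun h => hpL (h ▸ hl)⟩) hPf
  rw [card_insert_of_notMem haL] at hcard
  have hX := bound_nonneg (A := A) (C := C) (Q := P ∪ L) (p := p) (n := n) hA hC hPL hn
  set X : ℝ := A + 7 * n / (Real.log n) ^ (3 / 2 : ℝ) +
      C / (SSN.ph (P ∪ L) * (p : ℝ) ^ (1 / 4 : ℝ)) * n / Real.log n with hXdef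
  have hf : ∀ f ∈ Fm, ((((Icc 1 n).filter fun c : ℕ => c.Prime ∧ SSN.MM (P ∪ L) ∣ c + 1 ∧
      SSN.Val f.1 f.2.1 f.2.2.1 (c : ℤ)).card : ℕ) : ℝ) ≤ X := by
    intro f hf
    have hPff := hFm f hf
    have key := (hK' p {c : ℕ | c.Prime ∧ SSN.MM (P ∪ L) ∣ c + 1 ∧
      SSN.Val f.1 f.2.1 f.2.2.1 (c : ℤ)} hp.pos (fun l hl => ⟨hl.1, hl.2.1⟩)
      (fun G _ hG => ⟨f.1, f.2.1, f.2.2.1, hPff.1, hPff.2.1, ⟨f.2.2.2 ^ 2, hPff.2.2⟩,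
        fun l hl => (hG l hl).2.2⟩) n hn).2
    refine le_trans ?_ key
    rw [← Set.ncard_coe_finset]
    refine Nat.cast_le.2 (Set.ncard_le_ncard ?_ ((Set.finite_Iic n).subset Set.inter_subset_right))
    intro c hc
    have hc' := mem_filter.1 (mem_coe.1 hc)
    exact ⟨hc'.2, (mem_Icc.1 hc'.1).2⟩
  have hsub : ((Icc 1 n).filter fun c : ℕ => c.Prime ∧ a < c ∧ mo L P ∣ c + 1 ∧
      SSN.Val A₀ B₀ C₀ ((pr L * a * c : ℕ) : ℤ)) ⊆ Fm.biUnion fun f =>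
      (Icc 1 n).filter fun c : ℕ => c.Prime ∧ SSN.MM (P ∪ L) ∣ c + 1 ∧
      SSN.Val f.1 f.2.1 f.2.2.1 (c : ℤ) := by
    intro c hc
    obtain ⟨hcI, hcp, hac, hcm, hv⟩ := mem_filter.1 hc
    have hnd : ∀ l ∈ insert a L, ¬ l ∣ c := by
      intro l hl hlc
      rcases mem_insert.1 hl with rfl | hl
      · exact absurd ((Nat.prime_dvd_prime_iff_eq ha hcp).1 hlc) hac.ne
      · have h3 : l ∣ c + 1 := (dvd_MM (mem_union_right P hl)).trans hcm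
        have h4 : l ∣ 1 := (Nat.dvd_add_right hlc).1 h3
        exact (hL l hl).1.one_lt.ne' (Nat.dvd_one.1 h4)
    have hv' : SSN.Val A₀ B₀ C₀ (((∏ l ∈ insert a L, l) * c : ℕ) : ℤ) := by
      rw [prod_insert haL]
      have e : a * ∏ l ∈ L, l = pr L * a := mul_comm _ _
      rw [e]
      exact hv
    obtain ⟨f, hf1, hf2⟩ := hsp c hnd hv'
    exact mem_biUnion.2 ⟨f, hf1, mem_filter.2 ⟨hcI, hcp, hcm, hf2⟩⟩
  calc ((((Icc 1 n).filter fun c : ℕ => c.Prime ∧ a < c ∧ mo L P ∣ c + 1 ∧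
      SSN.Val A₀ B₀ C₀ ((pr L * a * c : ℕ) : ℤ)).card : ℕ) : ℝ)
      ≤ ((∑ f ∈ Fm, ((Icc 1 n).filter fun c : ℕ => c.Prime ∧ SSN.MM (P ∪ L) ∣ c + 1 ∧
          SSN.Val f.1 f.2.1 f.2.2.1 (c : ℤ)).card : ℕ) : ℝ) :=
        Nat.cast_le.2 ((card_le_card hsub).trans card_biUnion_le)
    _ = ∑ f ∈ Fm, ((((Icc 1 n).filter fun c : ℕ => c.Prime ∧ SSN.MM (P ∪ L) ∣ c + 1 ∧
          SSN.Val f.1 f.2.1 f.2.2.1 (c : ℤ)).card : ℕ) : ℝ) := Nat.cast_sum _ _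
    _ ≤ ∑ _f ∈ Fm, X := sum_le_sum hf
    _ = Fm.card * X := by rw [sum_const, nsmul_eq_mul]
    _ ≤ 2 ^ (L.card + 1) * X := by
        refine mul_le_mul_of_nonneg_right ?_ hX
        exact_mod_cast hcard

end SSLC
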