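import Pool.Agent.SSL.CTargets
import Pool.Agent.SSN.DIR

/-!
# MP_d74fca_nt, project SSL, part C: target NPC
-/

set_option autoImplicit false

open scoped BigOperators Classical
open Finset

namespace SSLC

namespace NPC_

theorem MM_pos {P : Finset ℕ} (hP : SSN.OddPr P) : 0 < SSN.MM P := by
  unfold SSN.MM
  have : 0 < ∏ p ∈ P, p := Finset.prod_pos fun p hp => (hP p hp).1.pos
  omega

theorem ph_pos {P : Finset ℕ} (hP : SSN.OddPr P) : 0 < SSN.ph P := by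
  unfold SSN.ph
  refine Finset.prod_pos fun p hp => ?_
  have h1 := (hP p hp).1.one_lt
  have h2 : (1 : ℝ) < p := by exact_mod_cast h1
  linarith

theorem OddPr_union {P L : Finset ℕ} (hP : SSN.OddPr P) (hL : SSN.OddPr L) :
    SSN.OddPr (P ∪ L) := by
  intro p hp
  rcases Finset.mem_union.1 hp with h | h
  · exact hP p h
  · exact hL p h

theorem dvd_of_mod {m c : ℕ} (hm : 0 < m) (h : c ≡ m - 1 [MOD m]) : m ∣ c + 1 := by
  have h1 : c + 1 ≡ m - 1 + 1 [MOD m] := h.add_right 1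
  have h2 : m - 1 + 1 = m := by omega
  rw [h2] at h1
  exact (Nat.modEq_zero_iff_dvd).1 (h1.trans (by simp [Nat.ModEq]))

theorem coprime_pr_MM {L P : Finset ℕ} (hL : SSN.OddPr L) (hP : SSN.OddPr P)
    (hd : Disjoint P L) : (SSL.pr L).Coprime (SSN.MM P) := by
  unfold SSL.pr SSN.MM
  refine Nat.Coprime.prod_left fun l hl => ?_
  have hl1 := hL l hl
  refine Nat.Coprime.mul_right ?_ ?_
  · have h1 : l.Coprime 2 := (Nat.coprime_primes hl1.1 Nat.prime_two).2 hl1.2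
    have h2 : (8 : ℕ) = 2 ^ 3 := by norm_num
    rw [h2]
    exact h1.pow_right 3
  · refine Nat.Coprime.prod_right fun p hp => ?_
    refine (Nat.coprime_primes hl1.1 (hP p hp).1).2 ?_
    rintro rfl
    exact Finset.disjoint_left.1 hd hp hl

/-- the first part -/
theorem part1 {κ : ℝ} (hκ : 0 < κ)
    (h : ∀ m u : ℕ, 0 < m → u.Coprime m → ∀ r : ℝ, 1 < r →
      ∃ X₀ : ℝ, 2 ≤ X₀ ∧ ∀ X : ℝ, X₀ ≤ X → κ * (r - 1) * X / (m.totient * Real.log X) ≤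
        (((Finset.Icc 1 ⌊r * X⌋₊).filter
          fun p : ℕ => p.Prime ∧ X < (p : ℝ) ∧ p ≡ u [MOD m]).card : ℝ))
    {ρ₁ ρ₂ : ℝ} (h1 : 1 ≤ ρ₁) (h2 : ρ₁ < ρ₂) {L P : Finset ℕ} (hL : SSN.OddPr L)
    (hP : SSN.OddPr P) : ∃ a₀ : ℕ, ∀ a : ℕ, a₀ ≤ a →
      κ * ((1 + ρ₂ / ρ₁) / 2 - 1) * ρ₁ / 8 * a / (SSN.ph (P ∪ L) * Real.log a) ≤
        ((CS L P ρ₁ ρ₂ a).card : ℝ) := by
  have hPL := OddPr_union hP hL
  have hm := MM_pos hPL
  set m : ℕ := SSN.MM (P ∪ L) with hmd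
  have hρ0 : 0 < ρ₁ := by linarith
  have hr : 1 < (1 + ρ₂ / ρ₁) / 2 := by
    have : 1 < ρ₂ / ρ₁ := (one_lt_div hρ0).2 h2
    linarith
  have hcop : (m - 1).Coprime m := by
    have h3 : (m - 1).Coprime (m - 1 + 1) := by simp
    rwa [Nat.sub_add_cancel hm] at h3
  obtain ⟨X₀, hX₀, H⟩ := h m (m - 1) hm hcop _ hr
  set r : ℝ := (1 + ρ₂ / ρ₁) / 2 with hrd
  refine ⟨max (max ⌈X₀⌉₊ ⌈ρ₁⌉₊) 2, fun a ha => ?_⟩
  have ha1 : X₀ ≤ a := (Nat.le_ceil _).trans (by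
    exact_mod_cast (le_max_left _ _).trans ((le_max_left _ _).trans ha))
  have ha2 : ρ₁ ≤ a := (Nat.le_ceil _).trans (by
    exact_mod_cast (le_max_right _ _).trans ((le_max_left _ _).trans ha))
  have ha3 : (2 : ℝ) ≤ a := by exact_mod_cast (le_max_right _ _).trans ha
  have ha0 : (0 : ℝ) < a := by linarith
  have hXa : (a : ℝ) ≤ ρ₁ * a := by nlinarith
  have h4 := H (ρ₁ * a) (ha1.trans hXa)
  have hlog0 : 0 < Real.log a := Real.log_pos (by linarith)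
  have hlog1 : Real.log (ρ₁ * a) ≤ 2 * Real.log a := by
    rw [Real.log_mul hρ0.ne' ha0.ne']
    have := Real.log_le_log hρ0 ha2
    linarith
  have hlog2 : 0 < Real.log (ρ₁ * a) := Real.log_pos (by linarith)
  have hph := ph_pos hPL
  have htot : (m.totient : ℝ) = 4 * SSN.ph (P ∪ L) := SSN.DIR_.totient_MM _ hPL
  have hsub : (Finset.Icc 1 ⌊r * (ρ₁ * a)⌋₊).filter
      (fun p : ℕ => p.Prime ∧ ρ₁ * a < (p : ℝ) ∧ p ≡ m - 1 [MOD m]) ⊆ CS L P ρ₁ ρ₂ a := by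
    intro p hp
    obtain ⟨hp1, hp2, hp3, hp4⟩ := Finset.mem_filter.1 hp
    obtain ⟨hp5, hp6⟩ := Finset.mem_Icc.1 hp1
    have hra : r * (ρ₁ * a) < ρ₂ * a := by
      have e1 : r * (ρ₁ * a) = (ρ₁ + ρ₂) / 2 * a := by
        rw [hrd]
        field_simp
      rw [e1]
      exact mul_lt_mul_of_pos_right (by linarith) ha0
    have hpr : (p : ℝ) ≤ r * (ρ₁ * a) := by
      have e2 : 0 ≤ r * (ρ₁ * a) := by positivity
      exact (Nat.le_floor_iff e2).1 hp6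
    refine Finset.mem_filter.2 ⟨Finset.mem_Icc.2 ⟨hp5, ?_⟩, hp2, hp3, hpr.trans_lt hra, ?_⟩
    · exact hp6.trans (Nat.floor_mono hra.le)
    · exact dvd_of_mod hm hp4
  refine le_trans ?_ (h4.trans (by exact_mod_cast Finset.card_le_card hsub))
  rw [htot]
  have hr0 : 0 < r - 1 := by linarith
  rw [div_le_div_iff₀ (by positivity) (by positivity)]
  have e3 : κ * (r - 1) * ρ₁ / 8 * a * (4 * SSN.ph (P ∪ L) * Real.log (ρ₁ * a)) =
      κ * (r - 1) * (ρ₁ * a) * (SSN.ph (P ∪ L) * (Real.log (ρ₁ * a) / 2)) := by ring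
  rw [e3]
  refine mul_le_mul_of_nonneg_left ?_ (by positivity)
  exact mul_le_mul_of_nonneg_left (by linarith) hph.le

/-- the residue class for `a` -/
theorem exists_u {L P : Finset ℕ} (hL : SSN.OddPr L) (hP : SSN.OddPr P) (hd : Disjoint P L) :
    ∃ u : ℕ, u.Coprime (SSL.pr L * SSN.MM P) ∧ SSL.pr L ∣ u + 1 ∧
      SSL.pr L * u ≡ 1 [MOD SSN.MM P] := by
  have hc := coprime_pr_MM hL hP hd
  have hpr : 0 < SSL.pr L := Finset.prod_pos fun p hp => (hL p hp).1.pos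
  have hMM : 1 < SSN.MM P := by
    have : 0 < ∏ p ∈ P, p := Finset.prod_pos fun p hp => (hP p hp).1.pos
    unfold SSN.MM
    omega
  obtain ⟨v, -, hv⟩ := Nat.exists_mul_mod_eq_one_of_coprime hc hMM
  obtain ⟨u, hu1, hu2⟩ := Nat.chineseRemainder hc (SSL.pr L - 1) v
  have h1 : SSL.pr L ∣ u + 1 := dvd_of_mod hpr hu1
  have h2 : SSL.pr L * u ≡ 1 [MOD SSN.MM P] := by
    have h3 : SSL.pr L * u ≡ SSL.pr L * v [MOD SSN.MM P] := hu2.mul_left _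
    refine h3.trans ?_
    rw [Nat.ModEq, hv, Nat.mod_eq_of_lt hMM]
  refine ⟨u, Nat.Coprime.mul_right ?_ ?_, h1, h2⟩
  · have h4 : u.Coprime (u + 1) := by simp
    exact Nat.Coprime.coprime_dvd_right h1 h4
  · have h5 : (SSL.pr L * u).Coprime (SSN.MM P) := by
      have h6 := h2.gcd_eq
      rw [Nat.Coprime, h6]
      simp
    exact Nat.Coprime.coprime_dvd_left (Dvd.intro_left _ rfl) h5

/-- the second part -/
theorem part2 {κ : ℝ} (hκ : 0 < κ)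
    (h : ∀ m u : ℕ, 0 < m → u.Coprime m → ∀ r : ℝ, 1 < r →
      ∃ X₀ : ℝ, 2 ≤ X₀ ∧ ∀ X : ℝ, X₀ ≤ X → κ * (r - 1) * X / (m.totient * Real.log X) ≤
        (((Finset.Icc 1 ⌊r * X⌋₊).filter
          fun p : ℕ => p.Prime ∧ X < (p : ℝ) ∧ p ≡ u [MOD m]).card : ℝ))
    {L P : Finset ℕ} (hL : SSN.OddPr L) (hP : SSN.OddPr P) (hd : Disjoint P L) :
    ∃ κ₂ Y₀ : ℝ, 0 < κ₂ ∧ 2 ≤ Y₀ ∧ ∀ Y : ℝ, Y₀ ≤ Y →
      κ₂ * Y / Real.log Y ≤ ((AS L P Y).card : ℝ) := by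
  obtain ⟨u, hu1, hu2, hu3⟩ := exists_u hL hP hd
  have hpr : 0 < SSL.pr L := Finset.prod_pos fun p hp => (hL p hp).1.pos
  have hm : 0 < SSL.pr L * SSN.MM P := Nat.mul_pos hpr (MM_pos hP)
  set m : ℕ := SSL.pr L * SSN.MM P with hmd
  obtain ⟨X₀, hX₀, H⟩ := h m u hm hu1 2 (by norm_num)
  have htot : (0 : ℝ) < m.totient := by exact_mod_cast Nat.totient_pos.2 hm
  refine ⟨κ / (2 * m.totient), 2 * X₀, by positivity, by linarith, fun Y hY => ?_⟩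
  have h1 : X₀ ≤ Y / 2 := by linarith
  have h2 := H (Y / 2) h1
  have hsub : (Finset.Icc 1 ⌊2 * (Y / 2)⌋₊).filter
      (fun p : ℕ => p.Prime ∧ Y / 2 < (p : ℝ) ∧ p ≡ u [MOD m]) ⊆ AS L P Y := by
    intro p hp
    obtain ⟨hp1, hp2, hp3, hp4⟩ := Finset.mem_filter.1 hp
    obtain ⟨hp5, hp6⟩ := Finset.mem_Icc.1 hp1
    have e1 : (2 : ℝ) * (Y / 2) = Y := by ring
    rw [e1] at hp6
    refine Finset.mem_filter.2 ⟨Finset.mem_Icc.2 ⟨hp5, hp6⟩, hp2, hp3, ?_, ?_⟩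
    · have h3 : p + 1 ≡ u + 1 [MOD SSL.pr L] := (hp4.of_dvd (Dvd.intro _ rfl)).add_right 1
      exact (h3.dvd_iff dvd_rfl).2 hu2
    · have h3 : p ≡ u [MOD SSN.MM P] := hp4.of_dvd (Dvd.intro_left _ rfl)
      exact (h3.mul_left _).trans hu3
  refine le_trans ?_ (h2.trans (by exact_mod_cast Finset.card_le_card hsub))
  have hY0 : (4 : ℝ) ≤ Y := by linarith
  have hl1 : 0 < Real.log (Y / 2) := Real.log_pos (by linarith)
  have hl2 : Real.log (Y / 2) ≤ Real.log Y := Real.log_le_log (by linarith) (by linarith)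
  have e2 : κ / (2 * m.totient) * Y / Real.log Y = κ * (2 - 1) * (Y / 2) /
      (m.totient * Real.log Y) := by
    field_simp
    norm_num
  rw [e2]
  refine div_le_div_of_nonneg_left (by nlinarith) (by positivity) ?_
  exact mul_le_mul_of_nonneg_left hl2 htot.le

end NPC_

open NPC_

theorem p_NPC (h : SSL.T_PAP) : T_NPC := by
  obtain ⟨κ, hκ, H⟩ := h
  intro ρ₁ ρ₂ h1 h2
  have hρ0 : 0 < ρ₁ := by linarith
  have hr : 1 < ρ₂ / ρ₁ := (one_lt_div hρ0).2 h2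
  refine ⟨κ * ((1 + ρ₂ / ρ₁) / 2 - 1) * ρ₁ / 8, ?_, fun L P hL hP hd => ⟨?_, ?_⟩⟩
  · have : 0 < (1 + ρ₂ / ρ₁) / 2 - 1 := by linarith
    positivity
  · exact part1 hκ H h1 h2 hL hP
  · exact part2 hκ H hL hP hd

end SSLC
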