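import Pool.Agent.SSL.Targets
import Pool.Agent.SLW.KNN
import Pool.Agent.SLW.KFT
import Pool.Agent.SLW.BDD
import Pool.Agent.SLW.LAP
import Pool.Agent.SLW.MAS
import Pool.Agent.SLW.FE1
import Pool.Agent.SLW.FE2
import Pool.Agent.SLW.FE3
import Pool.Agent.SLW.TAU
import Pool.Agent.SLW.PNT
import Pool.Agent.SLW.PRI

/-!
# SSL part (W): primes in progressions in short intervals (helper55)
-/

set_option autoImplicit false

namespace SSL

theorem p_PNTAP : SLW.T_PNT :=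
  SLW.p_PNT SLW.p_BDD (SLW.p_LAP SLW.p_BDD)
    (SLW.p_FE3 (SLW.p_FE2 SLW.p_KNN (SLW.p_FE1 SLW.p_KNN SLW.p_KFT)))
    (SLW.p_TAU SLW.p_KNN (SLW.p_MAS SLW.p_KNN))

theorem p_PAP : T_PAP :=
  ⟨1 / 2, by norm_num, fun m u hm hu r hr => SLW.p_PRI p_PNTAP m u hm hu r hr⟩

end SSL
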