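import Pool.Agent.SSL.Targets
import Pool.Agent.SSC.Targets2

/-!
# MP_d74fca_nt, project SSL, part C (helper12): counting for `D = pr L * a * c`
-/

set_option autoImplicit false

open scoped BigOperators Classical
open Finset

namespace SSLC

open SSL

/-- the modulus -/
def mo (L P : Finset ℕ) : ℕ := SSN.MM (P ∪ L)

/-- the primes `a` -/
noncomputable def AS (L P : Finset ℕ) (Y : ℝ) : Finset ℕ :=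
  (Icc 1 ⌊Y⌋₊).filter fun a : ℕ => a.Prime ∧ Y / 2 < (a : ℝ) ∧ pr L ∣ a + 1 ∧
    pr L * a ≡ 1 [MOD SSN.MM P]

/-- the primes `c` -/
noncomputable def CS (L P : Finset ℕ) (ρ₁ ρ₂ : ℝ) (a : ℕ) : Finset ℕ :=
  (Icc 1 ⌊ρ₂ * a⌋₊).filter fun c : ℕ => c.Prime ∧ ρ₁ * a < c ∧ (c : ℝ) < ρ₂ * a ∧ mo L P ∣ c + 1

/-- SPX (from SPL): splitting off several primes -/
def T_SPX : Prop := ∀ (p : ℕ) (E : Finset ℕ) (A B C w : ℤ), p.Prime →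
  (∀ l ∈ E, l.Prime ∧ l ≠ 2 ∧ l ≠ p) → SSC.Pf p A B C w → ∃ Fm : Finset (ℤ × ℤ × ℤ × ℤ),
    Fm.card ≤ 2 ^ E.card ∧ (∀ f ∈ Fm, SSC.Pf p f.1 f.2.1 f.2.2.1 f.2.2.2) ∧
    ∀ c : ℕ, (∀ l ∈ E, ¬ l ∣ c) → SSN.Val A B C (((∏ l ∈ E, l) * c : ℕ) : ℤ) →
      ∃ f ∈ Fm, SSN.Val f.1 f.2.1 f.2.2.1 (c : ℤ)

/-- FXA (from SPX, SSN.KIL): the `c` belonging to one `a` and one killer `p` -/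
def T_FXA : Prop := ∃ C : ℝ, 0 < C ∧ ∀ L P : Finset ℕ, SSN.OddPr L → SSN.OddPr P →
  ∃ A : ℝ, 0 ≤ A ∧ ∀ (p a : ℕ) (A₀ B₀ C₀ w : ℤ), p.Prime → p ≠ 2 → p ∉ L → a.Prime → a ≠ 2 →
    a ≠ p → a ∉ L → SSC.Pf p A₀ B₀ C₀ w → ∀ n : ℕ, 3 ≤ n →
    ((((Icc 1 n).filter fun c : ℕ => c.Prime ∧ a < c ∧ mo L P ∣ c + 1 ∧
      SSN.Val A₀ B₀ C₀ ((pr L * a * c : ℕ) : ℤ)).card : ℕ) : ℝ) ≤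
    2 ^ (L.card + 1) * (A + 7 * n / (Real.log n) ^ (3 / 2 : ℝ) +
      C / (SSN.ph (P ∪ L) * (p : ℝ) ^ (1 / 4 : ℝ)) * n / Real.log n)

/-- NPC (from PAP): many `c` for every `a`, many `a` -/
def T_NPC : Prop := ∀ ρ₁ ρ₂ : ℝ, 1 ≤ ρ₁ → ρ₁ < ρ₂ → ∃ κ₁ : ℝ, 0 < κ₁ ∧ ∀ L P : Finset ℕ,
  SSN.OddPr L → SSN.OddPr P → Disjoint P L →
  (∃ a₀ : ℕ, ∀ a : ℕ, a₀ ≤ a →
    κ₁ * a / (SSN.ph (P ∪ L) * Real.log a) ≤ ((CS L P ρ₁ ρ₂ a).card : ℝ)) ∧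
  ∃ κ₂ Y₀ : ℝ, 0 < κ₂ ∧ 2 ≤ Y₀ ∧ ∀ Y : ℝ, Y₀ ≤ Y → κ₂ * Y / Real.log Y ≤ ((AS L P Y).card : ℝ)

/-- TLS (from SSN.SUM): tails of `∑ p ^ (-1/4)` -/
def T_TLS : Prop := ∀ (S : Set ℕ) (β x₀ : ℝ), 0 < β → (∀ p ∈ S, 0 < p) →
  (∀ x : ℝ, x₀ ≤ x → SSC.NS S x ≤ (Real.log x) ^ β) → ∀ δ : ℝ, 0 < δ → ∃ P₁ : ℕ,
  ∀ G : Finset ℕ, (∀ p ∈ G, p ∈ S ∧ P₁ < p) → ∑ p ∈ G, (p : ℝ) ^ (-(1 / 4 : ℝ)) ≤ δ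

/-- CNTL restated: the counting theorem (from FXA, NPC, TLS, SSC.KIL) -/
def T_CNT : Prop := SSL.T_CNTL

end SSLC
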