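import Mathlib
import Pool.Agent.SSL.CTargets

/-!
SPX: splitting off several primes
-/

set_option autoImplicit false

open scoped BigOperators Classical
open Finset

namespace SSLC

open SSL

theorem p_SPX (h1 : SSC.T_SPL) : T_SPX := by
  intro p E
  induction E using Finset.induction_on with
  | empty =>
    intro A B C w _ _ hPf
    refine ⟨{(A, B, C, w)}, by simp, ?_, ?_⟩
    · intro f hf
      rw [mem_singleton] at hf
      subst hf
      exact hPf
    · intro c _ hc
      refine ⟨(A, B, C, w), mem_singleton_self _, ?_⟩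
      simpa using hc
  | insert l E hl ih =>
    intro A B C w hp hE hPf
    have hlp := hE l (mem_insert_self l E)
    obtain ⟨A₁, B₁, C₁, w₁, A₂, B₂, C₂, w₂, hP1, hP2, hS⟩ :=
      h1 p l A B C w hp hlp.1 hlp.2.1 hlp.2.2 hPf
    have hE' : ∀ m ∈ E, m.Prime ∧ m ≠ 2 ∧ m ≠ p := fun m hm => hE m (mem_insert_of_mem hm)
    obtain ⟨F₁, hc1, hf1, hv1⟩ := ih A₁ B₁ C₁ w₁ hp hE' hP1
    obtain ⟨F₂, hc2, hf2, hv2⟩ := ih A₂ B₂ C₂ w₂ hp hE' hP2
    refine ⟨F₁ ∪ F₂, ?_, ?_, ?_⟩
    · rw [card_insert_of_notMem hl, pow_succ]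
      exact (card_union_le _ _).trans (by omega)
    · intro f hf
      rcases mem_union.mp hf with h | h
      · exact hf1 f h
      · exact hf2 f h
    · intro c hc hV
      have hcE : ∀ m ∈ E, ¬ m ∣ c := fun m hm => hc m (mem_insert_of_mem hm)
      have hlc : ¬ l ∣ (∏ m ∈ E, m) * c := by
        intro h
        rcases hlp.1.dvd_mul.mp h with h | h
        · obtain ⟨m, hm, hlm⟩ := (hlp.1.prime.dvd_finsetProd_iff _).mp h
          rw [(Nat.prime_dvd_prime_iff_eq hlp.1 (hE' m hm).1).mp hlm] at hl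
          exact hl hm
        · exact hc l (mem_insert_self l E) h
      have hV' : SSN.Val A B C ((l : ℤ) * (((∏ m ∈ E, m) * c : ℕ) : ℤ)) := by
        rw [prod_insert hl] at hV
        convert hV using 1
        push_cast
        ring
      rcases hS _ (by exact_mod_cast hlc) hV' with h | h
      · obtain ⟨f, hf, hfc⟩ := hv1 c hcE h
        exact ⟨f, mem_union_left _ hf, hfc⟩
      · obtain ⟨f, hf, hfc⟩ := hv2 c hcE h
        exact ⟨f, mem_union_right _ hf, hfc⟩

end SSLC
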