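import Pool.Agent.SSL.CTargets

/-!
# TLS: tails of `∑ p ^ (-1/4)` over a sparse set
-/

set_option autoImplicit false

open scoped BigOperators Classical
open Finset

namespace SSLC

/-- TLS (from SSN.SUM) -/
theorem p_TLS (h1 : SSN.T_SUM) : T_TLS := by
  intro S β x₀ hβ _ hS δ hδ
  have hs := (h1 S β (β + 1) x₀ hβ (by linarith) hS).2
  rw [summable_iff_vanishing_norm] at hs
  obtain ⟨s, hs⟩ := hs δ hδ
  refine ⟨s.sup id, fun G hG => ?_⟩
  have hd : Disjoint G s := by
    rw [Finset.disjoint_left]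
    intro p hp hps
    have h2 : p ≤ s.sup id := Finset.le_sup (f := id) hps
    have h3 := (hG p hp).2
    omega
  have h := hs G hd
  have h2 : ∑ p ∈ G, S.indicator (fun n : ℕ => (n : ℝ) ^ (-1 / 4 : ℝ)) p =
      ∑ p ∈ G, (p : ℝ) ^ (-(1 / 4 : ℝ)) := by
    refine Finset.sum_congr rfl fun p hp => ?_
    rw [Set.indicator_of_mem (hG p hp).1, neg_div]
  rw [h2] at h
  exact le_of_lt (lt_of_le_of_lt (le_abs_self _) (by simpa [Real.norm_eq_abs] using h))

end SSLC
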