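import Pool.Agent.SSF.All
import Pool.Agent.SSL.SPX
import Pool.Agent.SSL.FXA
import Pool.Agent.SSL.NPC
import Pool.Agent.SSL.TLS
import Pool.Agent.SSL.CNTL
import Pool.Agent.SSL.PAP
import Pool.Agent.SSN.KIL
import Pool.Agent.SSN.CNT
import Pool.Agent.SSN.SIEVE

/-!
# MP_d74fca_nt, project SSL, part C: the chain of the counting part (helper12)
-/

set_option autoImplicit false

namespace SSLC.All

theorem SSN_CNT : SSN.T_CNT := SSN.p_CNT SSF.All.SSN_LAT SSF.All.SSN_ROOT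
theorem SSN_SIEVE : SSN.T_SIEVE := SSN.p_SIEVE SSF.All.SSN_RL SSF.All.SSN_SEL SSN_CNT
  SSF.All.SSN_SHH SSF.All.SSN_OMG SSF.All.SSN_RRM
theorem SSN_KIL : SSN.T_KIL := SSN.p_KIL SSF.All.SSN_RED SSF.All.SSN_TRIV SSN_SIEVE
theorem SPX : T_SPX := p_SPX SSF.All.SSC_SPL
theorem FXA : T_FXA := p_FXA SPX SSN_KIL
theorem NPC : T_NPC := p_NPC SSL.p_PAP
theorem TLS : T_TLS := p_TLS SSF.All.SSN_SUM
/-- the counting theorem -/
theorem CNTL : SSL.T_CNTL := p_CNTL FXA NPC TLS SSF.All.SSC_KIL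

end SSLC.All
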