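import Pool.Agent.SSL.All
import Pool.Agent.SSL.PAP
import Pool.Agent.SSL.CNTL
import Pool.Agent.SSL.SPX
import Pool.Agent.SSL.FXA
import Pool.Agent.SSL.NPC
import Pool.Agent.SSL.TLS
import Pool.Agent.SSN.CNT
import Pool.Agent.SSN.SIEVE
import Pool.Agent.SSN.KIL
import Pool.Agent.SSC.SPL
import Pool.Agent.SSC.KIL

/-!
# MP_d74fca_nt, project SSL: the unconditional theorem (helper22)
-/

set_option autoImplicit false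

namespace SSL.All

theorem SSN_CNT : SSN.T_CNT := SSN.p_CNT SSF.All.SSN_LAT SSF.All.SSN_ROOT
theorem SSN_SIEVE : SSN.T_SIEVE := SSN.p_SIEVE SSF.All.SSN_RL SSF.All.SSN_SEL SSN_CNT
  SSF.All.SSN_SHH SSF.All.SSN_OMG SSF.All.SSN_RRM
theorem SSN_KIL : SSN.T_KIL := SSN.p_KIL SSF.All.SSN_RED SSF.All.SSN_TRIV SSN_SIEVE
theorem SPX : SSLC.T_SPX := SSLC.p_SPX SSF.All.SSC_SPL
theorem FXA : SSLC.T_FXA := SSLC.p_FXA SPX SSN_KIL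
theorem NPC : SSLC.T_NPC := SSLC.p_NPC SSL.p_PAP
theorem TLS : SSLC.T_TLS := SSLC.p_TLS SSF.All.SSN_SUM
theorem CNTL : T_CNTL := SSLC.p_CNTL FXA NPC TLS SSF.All.SSC_KIL

/-- the unconditional theorem -/
theorem final (W : WeierstrassCurve ℤ) (hΔ : W.Δ ≠ 0) (h4 : W.c₄ ≠ 0) (h6 : W.c₆ ≠ 0)
    (L : Finset ℕ) (hL : ∀ l ∈ L, l.Prime ∧ 5 ≤ l ∧ ¬ (l : ℤ) ∣ W.c₄ * W.c₆ ∧ SSF.ap W l ≠ 0)
    (ε : ℝ) (hε : 0 < ε) (x₀ : ℝ) :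
    ∃ x : ℝ, x₀ ≤ x ∧ (Real.log x) ^ (2 - ε) ≤ (cntL W L x : ℝ) :=
  p_FIN DATL CNTL W hΔ h4 h6 L hL ε hε x₀

end SSL.All
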