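import Pool.Agent.SSL.Targets
import Pool.Agent.SSA.TargetsB

/-!
# MP_d74fca_nt, project SSL: a pole of `xr (l • id)`, `l` odd, is no zero of `x^3 + a x + b`
-/

set_option autoImplicit false

open Polynomial

namespace SSL

open SSA SSP

namespace TWO_

variable {k : Type} [Field k]

/-- homogenized value of a polynomial -/
noncomputable def hom (W Z : k[X]) (n : ℕ) (P : k[X]) : k[X] :=
  ∑ i ∈ Finset.range (n + 1), C (P.coeff i) * W ^ i * Z ^ (n - i)

theorem hom_spec (W Z : k[X]) (hZ : Z ≠ 0) (n : ℕ) (P : k[X]) (hP : P.natDegree ≤ n) :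
    aeval (algebraMap k[X] (RatFunc k) W / algebraMap k[X] (RatFunc k) Z) P *
      algebraMap k[X] (RatFunc k) Z ^ n = algebraMap k[X] (RatFunc k) (hom W Z n P) := by
  have hZ' : algebraMap k[X] (RatFunc k) Z ≠ 0 := RatFunc.algebraMap_ne_zero hZ
  rw [aeval_eq_sum_range' (Nat.lt_succ_of_le hP), Finset.sum_mul]
  unfold hom
  rw [map_sum]
  refine Finset.sum_congr rfl ?_
  intro i hi
  have hi' : i ≤ n := by
    have := Finset.mem_range.1 hi
    omega
  have e1 : algebraMap k[X] (RatFunc k) Z ^ n =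
      algebraMap k[X] (RatFunc k) Z ^ i * algebraMap k[X] (RatFunc k) Z ^ (n - i) := by
    rw [← pow_add]
    congr 1
    omega
  have e2 : (algebraMap k[X] (RatFunc k) (C (P.coeff i)) : RatFunc k) =
      algebraMap k (RatFunc k) (P.coeff i) := by
    rw [RatFunc.algebraMap_C, RatFunc.algebraMap_eq_C]
  rw [Algebra.smul_def, map_mul, map_mul, map_pow, map_pow, e1, e2, div_pow]
  field_simp

theorem hom_eval (W Z : k[X]) (n : ℕ) (P : k[X]) (e : k) (hZ : Z.eval e = 0) :
    (hom W Z n P).eval e = P.coeff n * W.eval e ^ n := by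
  unfold hom
  rw [eval_finsetSum, Finset.sum_range_succ, Finset.sum_eq_zero]
  · simp
  · intro i hi
    have hi' := Finset.mem_range.1 hi
    rw [eval_mul, eval_pow, hZ, zero_pow (by omega), mul_zero]

theorem disc_ne {a b e : k} (hH : Hyp a b) (he : e ^ 3 + a * e + b = 0) : 3 * e ^ 2 + a ≠ 0 := by
  intro h
  apply hH.disc
  have h1 : a = -(3 * e ^ 2) := by linear_combination h
  have h2 : b = 2 * e ^ 3 := by
    rw [h1] at he
    linear_combination he
  rw [h1, h2]
  ring

end TWO_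

open TWO_ in
theorem p_TWO (h1 : T_INF) (h2 : SSA.T_CMP) (h3 : SSA.T_TRS) (h4 : SSA.T_API) (h5 : SSA.T_RFC)
    (h6 : SSP.T_DGN) : T_TWO := by
  intro k _ _ a b hH l hl hlk e hD he
  have hl0 : 0 < l := hl.pos
  have hd := disc_ne hH he
  obtain ⟨d, hdd⟩ : ∃ d : k, d = 3 * e ^ 2 + a := ⟨_, rfl⟩
  rw [← hdd] at hd
  obtain ⟨hff, ⟨hx0, hy0⟩, hmk, -⟩ := h4 k a b hH
  -- the identity
  have hid := hmk RatFunc.X 1 (by unfold ff ev; ring)
  have hid0 : idM a b ≠ 0 := hid.1
  have hidx : xr (idM a b) = RatFunc.X := hid.2.1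
  obtain ⟨hT0, hTx, hTT, htr⟩ := h3 k a b hH e he
  set T : MM a b := mkP a b (RatFunc.C e) 0 with hT
  have hXe : (RatFunc.X : RatFunc k) ≠ RatFunc.C e := by
    intro h
    have h' : algebraMap k[X] (RatFunc k) X = algebraMap k[X] (RatFunc k) (C e) := by
      rw [RatFunc.algebraMap_X, RatFunc.algebraMap_C]
      exact h
    exact Polynomial.X_ne_C e (RatFunc.algebraMap_injective k h')
  obtain ⟨hV0, hVx⟩ := htr (idM a b) hid0 (by rw [hidx]; exact hXe)
  set V : MM a b := idM a b + T with hV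
  rw [hidx, ← hdd] at hVx
  -- polynomials W, Z with xr V = W / Z
  set Z : k[X] := X - C e with hZ
  set W : k[X] := C e * (X - C e) + C d with hW
  have hZ0 : Z ≠ 0 := X_sub_C_ne_zero e
  have hZe : Z.eval e = 0 := by rw [hZ]; simp
  have hWe : W.eval e = d := by rw [hW]; simp
  have hZ' : algebraMap k[X] (RatFunc k) Z ≠ 0 := RatFunc.algebraMap_ne_zero hZ0
  have hZx : algebraMap k[X] (RatFunc k) Z = RatFunc.X - RatFunc.C e := by
    rw [hZ, map_sub, RatFunc.algebraMap_X, RatFunc.algebraMap_C]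
  have hVW : xr V = algebraMap k[X] (RatFunc k) W / algebraMap k[X] (RatFunc k) Z := by
    rw [hVx, ← hZx, hW, map_add, map_mul, ← hZ, RatFunc.algebraMap_C, RatFunc.algebraMap_C]
    field_simp
  have hVn : ∀ c : k, xr V ≠ RatFunc.C c := by
    intro c hc
    rw [hVW, div_eq_iff hZ', ← RatFunc.algebraMap_C, ← map_mul] at hc
    have h7 := RatFunc.algebraMap_injective k hc
    have h8 := congrArg (fun P : k[X] => P.eval e) h7
    simp only [eval_mul, hZe, hWe, mul_zero] at h8
    exact hd h8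
  obtain ⟨Φ, hΦ1, -, hΦ3⟩ := h2 k a b hH V hVn
  -- multiplication by l
  set L : MM a b := l • idM a b with hL
  have hL0 : L ≠ 0 := (h6 k a b hH).2.1 l hl0
  set R := xr L with hR
  have hRe : R ≠ RatFunc.C e := by
    intro h
    rw [h, RatFunc.denom_C] at hD
    simp at hD
  obtain ⟨-, hΦx, -⟩ := hΦ3 L hL0
  have hlT : l • T = T := by
    obtain ⟨m, rfl⟩ := hl
    have : (2 * m + 1) • T = m • (T + T) + T := by
      rw [add_smul, one_smul, mul_comm, mul_smul, two_smul]
    rw [this, hTT, nsmul_zero, zero_add]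
  have hΦL : Φ L = L + T := by
    rw [hL, map_nsmul, hΦ1, hV, nsmul_add, hlT]
  obtain ⟨-, hLT⟩ := htr L hL0 hRe
  rw [hΦL, hLT, ← hR, ← hdd] at hΦx
  -- numerator and denominator of R
  obtain ⟨hdN, hdD⟩ := h1 k a b hH l hlk
  rw [← hL, ← hR] at hdN hdD
  set N := R.num with hN
  set D := R.denom with hDd
  have hD0 : D ≠ 0 := R.denom_ne_zero
  have hNe : N.eval e ≠ 0 := by
    intro h
    obtain ⟨u, v, huv⟩ := RatFunc.isCoprime_num_denom R
    have h7 := congrArg (fun P : k[X] => P.eval e) huv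
    simp only [eval_add, eval_mul, eval_one] at h7
    rw [← hN, ← hDd, h, hD] at h7
    simp at h7
  have hRND : R = algebraMap k[X] (RatFunc k) N / algebraMap k[X] (RatFunc k) D :=
    (RatFunc.num_div_denom R).symm
  have hD' : algebraMap k[X] (RatFunc k) D ≠ 0 := RatFunc.algebraMap_ne_zero hD0
  have hB0 : N - C e * D ≠ 0 := by
    intro h
    have h7 := congrArg (fun P : k[X] => P.eval e) h
    simp only [eval_sub, eval_mul, hD, mul_zero, sub_zero, eval_zero] at h7
    exact hNe h7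
  have hB' : algebraMap k[X] (RatFunc k) (N - C e * D) ≠ 0 := RatFunc.algebraMap_ne_zero hB0
  have hS : RatFunc.C e + RatFunc.C d / (R - RatFunc.C e) =
      algebraMap k[X] (RatFunc k) (C e * (N - C e * D) + C d * D) /
        algebraMap k[X] (RatFunc k) (N - C e * D) := by
    have h7 : R - RatFunc.C e = algebraMap k[X] (RatFunc k) (N - C e * D) /
        algebraMap k[X] (RatFunc k) D := by
      rw [hRND, map_sub, map_mul, RatFunc.algebraMap_C]
      field_simp
    rw [h7, map_add, map_mul, map_mul, RatFunc.algebraMap_C, RatFunc.algebraMap_C]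
    field_simp
  rw [hS] at hΦx
  -- composition
  obtain ⟨-, -, -, -, -, -, -, -, hrP, hr0, -⟩ := h5 k (xr V) hVn
  have haD : aeval (xr V) D ≠ 0 := by
    intro h
    rw [← hrP] at h
    exact hD' (hr0 _ h)
  have hl2 : l ^ 2 = (l ^ 2 - 1) + 1 := by
    have : 0 < l ^ 2 := pow_pos hl0 2
    omega
  have hspN := hom_spec W Z hZ0 (l ^ 2) N hdN.le
  have hspD := hom_spec W Z hZ0 (l ^ 2 - 1) D hdD.le
  rw [← hVW] at hspN hspD
  have key : algebraMap k[X] (RatFunc k)
      ((C e * (N - C e * D) + C d * D) * (hom W Z (l ^ 2 - 1) D * Z)) =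
      algebraMap k[X] (RatFunc k) (hom W Z (l ^ 2) N * (N - C e * D)) := by
    unfold rcomp at hΦx
    rw [← hN, ← hDd, div_eq_div_iff hB' haD] at hΦx
    rw [map_mul, map_mul, map_mul, ← hspN, ← hspD]
    have e1 : algebraMap k[X] (RatFunc k) Z ^ (l ^ 2) =
        algebraMap k[X] (RatFunc k) Z ^ (l ^ 2 - 1) * algebraMap k[X] (RatFunc k) Z := by
      rw [← pow_succ, ← hl2]
    rw [e1]
    linear_combination (algebraMap k[X] (RatFunc k) Z ^ (l ^ 2 - 1) *
      algebraMap k[X] (RatFunc k) Z) * hΦx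
  have key2 := congrArg (fun P : k[X] => P.eval e) (RatFunc.algebraMap_injective k key)
  simp only [eval_mul] at key2
  rw [hZe, mul_zero, mul_zero, hom_eval W Z _ N e hZe, hWe, eval_sub, eval_mul, hD, mul_zero,
    sub_zero] at key2
  have hlc : N.coeff (l ^ 2) ≠ 0 := by
    rw [← hdN]
    have hN0 : N ≠ 0 := by
      intro h
      rw [h] at hNe
      simp at hNe
    exact leadingCoeff_ne_zero.2 hN0
  exact mul_ne_zero (mul_ne_zero hlc (pow_ne_zero _ hd)) hNe key2.symm

end SSL
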